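import Pool.Agent.Lib_helper59.KE.Defs
import Mathlib
/-! Block KC: elementary properties of `Qp`, `g4`. -/

set_option autoImplicit false

namespace Pool.Agent.KE

open Finset

theorem kc_swap1 (x y z : ℕ) : Qp x y z = Qp y x z := by
  unfold Qp
  by_cases h1 : (y : ℤ) + z ≤ x
  · rw [if_pos h1]
    by_cases h2 : (x : ℤ) + z ≤ y
    · have hz : (z : ℤ) = 0 := by omega
      rw [if_pos h2, hz]
      ring
    · rw [if_neg h2, if_pos h1]
  · rw [if_neg h1]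
    by_cases h2 : (x : ℤ) + z ≤ y
    · rw [if_pos h2, if_pos h2]
    · rw [if_neg h2, if_neg h2, if_neg h1, add_comm (x : ℤ) (y : ℤ)]
      split_ifs
      · ring
      · ring

theorem kc_swap2 (x y z : ℕ) : Qp x y z = Qp x z y := by
  unfold Qp
  rw [add_comm (z : ℤ) (y : ℤ)]
  by_cases h1 : (y : ℤ) + z ≤ x
  · rw [if_pos h1, if_pos h1]
    ring
  · rw [if_neg h1, if_neg h1]
    by_cases h2 : (x : ℤ) + z ≤ y
    · rw [if_pos h2]
      by_cases h3 : (x : ℤ) + y ≤ z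
      · have hx : (x : ℤ) = 0 := by omega
        rw [if_pos h3, hx]
        ring
      · rw [if_neg h3, if_pos h2]
    · rw [if_neg h2]
      by_cases h3 : (x : ℤ) + y ≤ z
      · rw [if_pos h3, if_pos h3]
      · rw [if_neg h3, if_neg h3, if_neg h2]
        ring

/-- KC1 -/
theorem qp_comm_pr (x y z : ℕ) :
    Qp x y z = Qp y x z ∧ Qp x y z = Qp x z y ∧ Qp x y z = Qp z y x := by
  refine ⟨kc_swap1 x y z, kc_swap2 x y z, ?_⟩
  rw [kc_swap1 x y z, kc_swap2 y x z, kc_swap1 y z x]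

theorem kc_g1 (x y z : ℕ) : g4 x y z = g4 y x z := by
  unfold g4
  rw [kc_swap1 x y z, add_comm (x : ℤ) (y : ℤ)]
  congr 1
  apply if_congr _ rfl rfl
  constructor
  · rintro (h | h | h)
    · exact Or.inr (Or.inl h)
    · exact Or.inl h
    · exact Or.inr (Or.inr h)
  · rintro (h | h | h)
    · exact Or.inr (Or.inl h)
    · exact Or.inl h
    · exact Or.inr (Or.inr h)

theorem kc_g2 (x y z : ℕ) : g4 x y z = g4 x z y := by
  unfold g4
  rw [kc_swap2 x y z, add_comm (z : ℤ) (y : ℤ), add_right_comm (x : ℤ) (z : ℤ) (y : ℤ)]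
  congr 1
  apply if_congr _ rfl rfl
  constructor
  · rintro (h | h | h)
    · exact Or.inl h
    · exact Or.inr (Or.inr h)
    · exact Or.inr (Or.inl h)
  · rintro (h | h | h)
    · exact Or.inl h
    · exact Or.inr (Or.inr h)
    · exact Or.inr (Or.inl h)

/-- KC2 -/
theorem g4_comm_pr (x y z : ℕ) :
    g4 x y z = g4 y x z ∧ g4 x y z = g4 x z y ∧ g4 x y z = g4 z y x := by
  refine ⟨kc_g1 x y z, kc_g2 x y z, ?_⟩
  rw [kc_g1 x y z, kc_g2 y x z, kc_g1 y z x]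

/-- KC3 -/
theorem g4_zero_pr (y z : ℕ) : g4 0 y z = 0 := by
  unfold g4 Qp
  have h : ((y : ℤ) + z ≤ 0 ∨ (0 : ℤ) + z ≤ y ∨ (0 : ℤ) + y ≤ z) := by omega
  rw [if_pos h, add_zero]
  by_cases h1 : (y : ℤ) + z ≤ 0
  · have hy : (y : ℤ) = 0 := by omega
    rw [if_pos h1, hy]
    ring
  rw [if_neg h1]
  by_cases h2 : (0 : ℤ) + z ≤ y
  · rw [if_pos h2]
    ring
  rw [if_neg h2]
  have h3 : (0 : ℤ) + y ≤ z := by omega
  rw [if_pos h3]
  ring

/-- the value of `g4` below the line -/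
theorem kc_val (e y m : ℕ) (hy : e ≤ y) :
    (e ≤ m → 4 * (e : ℤ) * (((y + m : ℕ) : ℤ) + y) - 2 * g4 e ((y + m : ℕ) : ℤ) y = 4 * e * m) ∧
    (m < e → 4 * (e : ℤ) * (((y + m : ℕ) : ℤ) + y) - 2 * g4 e ((y + m : ℕ) : ℤ) y =
      2 * (e : ℤ) ^ 2 + 2 * (m : ℤ) ^ 2 - 2 * (((e : ℤ) + m) % 2)) := by
  unfold g4 Qp
  push_cast
  constructor
  · intro hm
    by_cases h1 : (y : ℤ) + m + y ≤ e
    · have e1 : (y : ℤ) = 0 := by omega
      have e2 : (e : ℤ) = 0 := by omega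
      rw [if_pos h1, if_pos (Or.inl h1), e1, e2]
      ring
    · have h2 : (e : ℤ) + y ≤ (y : ℤ) + m := by omega
      rw [if_neg h1, if_pos h2, if_pos (Or.inr (Or.inl h2))]
      ring
  · intro hm
    have h1 : ¬ (y : ℤ) + m + y ≤ e := by omega
    have h2 : ¬ (e : ℤ) + y ≤ (y : ℤ) + m := by omega
    have h3 : ¬ (e : ℤ) + (y + m) ≤ (y : ℤ) := by omega
    have h4 : ¬ ((y : ℤ) + m + y ≤ e ∨ (e : ℤ) + y ≤ (y : ℤ) + m ∨ (e : ℤ) + (y + m) ≤ (y : ℤ)) := by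
      rintro (h | h | h)
      · exact h1 h
      · exact h2 h
      · exact h3 h
    rw [if_neg h1, if_neg h2, if_neg h3, if_neg h4]
    have h5 : ((e : ℤ) + (y + m) + y) % 2 = ((e : ℤ) + m) % 2 := by omega
    rw [h5]
    ring

theorem kc_abs (y m : ℕ) : |((y + m : ℕ) : ℤ) - y| = m := by
  push_cast
  rw [add_sub_cancel_left, abs_of_nonneg (Int.natCast_nonneg m)]

theorem kc_a (e y m : ℕ) (hy : e ≤ y) :
    15 * (e : ℤ) ^ 2 + 8 * e * m - 16 * (if 1 ≤ e then 1 else 0)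
      ≤ 8 * (4 * e * (((y + m : ℕ) : ℤ) + y) - 2 * g4 e ((y + m : ℕ) : ℤ) y) := by
  obtain ⟨h1, h2⟩ := kc_val e y m hy
  have h0 : (0 : ℤ) ≤ e := Int.natCast_nonneg e
  by_cases hm : e ≤ m
  · rw [h1 hm]
    have h3 : (e : ℤ) ≤ m := by exact_mod_cast hm
    have h4 : (e : ℤ) ^ 2 ≤ e * m := by nlinarith
    have h5 : (0 : ℤ) ≤ 16 * (if 1 ≤ e then 1 else 0) := by split_ifs <;> norm_num
    nlinarith
  · rw [h2 (by omega), if_pos (by omega)]
    have h3 : ((e : ℤ) + m) % 2 ≤ 1 := by omega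
    nlinarith [sq_nonneg ((e : ℤ) - 4 * m)]

theorem kc_b (e y m : ℕ) (hy : e ≤ y) (he : 1 ≤ e) :
    2 * ((e : ℤ) ^ 2 - 1) - 2 * (if e % 2 = 0 then 1 else 0) + 4 * (m : ℤ)
      ≤ 4 * e * (((y + m : ℕ) : ℤ) + y) - 2 * g4 e ((y + m : ℕ) : ℤ) y := by
  obtain ⟨h1, h2⟩ := kc_val e y m hy
  have h0 : (1 : ℤ) ≤ e := by exact_mod_cast he
  by_cases hm : e ≤ m
  · rw [h1 hm]
    have h3 : (e : ℤ) ≤ m := by exact_mod_cast hm
    have h5 : (0 : ℤ) ≤ 2 * (if e % 2 = 0 then 1 else 0) := by split_ifs <;> norm_num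
    nlinarith [mul_nonneg (sub_nonneg.2 h0) (sub_nonneg.2 h3), sq_nonneg ((e : ℤ) - 1)]
  · rw [h2 (by omega)]
    by_cases hev : e % 2 = 0
    · rw [if_pos hev]
      have h3 : ((e : ℤ) + m) % 2 ≤ 1 := by omega
      nlinarith [sq_nonneg ((m : ℤ) - 1)]
    · rw [if_neg hev]
      by_cases hmo : m % 2 = 0
      · have h3 : ((e : ℤ) + m) % 2 ≤ 1 := by omega
        have h4 : (1 : ℤ) ≤ ((m : ℤ) - 1) ^ 2 := by
          have h5 : (m : ℤ) - 1 ≠ 0 := by omega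
          have h6 : 0 < ((m : ℤ) - 1) ^ 2 := by positivity
          omega
        nlinarith
      · have h3 : ((e : ℤ) + m) % 2 = 0 := by omega
        rw [h3]
        nlinarith [sq_nonneg ((m : ℤ) - 1)]

/-- KC4: first line -/
theorem line_a_pr (e x y : ℕ) (hx : e ≤ x) (hy : e ≤ y) :
    15 * (e : ℤ) ^ 2 + 8 * e * |(x : ℤ) - y| - 16 * (if 1 ≤ e then 1 else 0)
      ≤ 8 * (4 * e * ((x : ℤ) + y) - 2 * g4 e x y) := by
  rcases le_total y x with h | h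
  · obtain ⟨m, rfl⟩ := Nat.exists_eq_add_of_le h
    rw [kc_abs]
    exact kc_a e y m hy
  · obtain ⟨m, rfl⟩ := Nat.exists_eq_add_of_le h
    rw [abs_sub_comm, kc_abs, kc_g2 e x (x + m), add_comm (x : ℤ)]
    exact kc_a e x m hx

/-- KC5: second line -/
theorem line_b_pr (e x y : ℕ) (hx : e ≤ x) (hy : e ≤ y) (he : 1 ≤ e) :
    2 * ((e : ℤ) ^ 2 - 1) - 2 * (if e % 2 = 0 then 1 else 0) + 4 * |(x : ℤ) - y|
      ≤ 4 * e * ((x : ℤ) + y) - 2 * g4 e x y := by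
  rcases le_total y x with h | h
  · obtain ⟨m, rfl⟩ := Nat.exists_eq_add_of_le h
    rw [kc_abs]
    exact kc_b e y m hy he
  · obtain ⟨m, rfl⟩ := Nat.exists_eq_add_of_le h
    rw [abs_sub_comm, kc_abs, kc_g2 e x (x + m), add_comm (x : ℤ)]
    exact kc_b e x m hx he

/-- KC6: third line (at most three levels) -/
theorem line_c_pr (e x y : ℕ) (hx : e ≤ x) (hy : e ≤ y) (hx3 : x ≤ 3) (hy3 : y ≤ 3) :
    (if e = 2 then 8 else if e = 3 then 16 else 0)
      + (if e = 1 ∨ e = 3 then 4 else 0) * |(x : ℤ) - y|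
      ≤ 4 * e * ((x : ℤ) + y) - 2 * g4 e x y := by
  interval_cases x <;> interval_cases y <;> interval_cases e <;> decide

theorem qp_comm : type_of% @qp_comm_pr := @qp_comm_pr

theorem g4_comm : type_of% @g4_comm_pr := @g4_comm_pr

theorem g4_zero : type_of% @g4_zero_pr := @g4_zero_pr

theorem line_a : type_of% @line_a_pr := @line_a_pr

theorem line_b : type_of% @line_b_pr := @line_b_pr

theorem line_c : type_of% @line_c_pr := @line_c_pr

end Pool.Agent.KE
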