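import Pool.Agent.Lib_helper59.KE.Defs
import Mathlib
set_option autoImplicit false

namespace Pool.Agent.KE

open Finset

theorem kg1_thr (M : ℕ) (n : ℕ → ℕ) (hn : ∀ k, M < k → n k = 0)
    (hanti : ∀ k l, 1 ≤ k → k ≤ l → n l ≤ n k) {j : ℕ} (hj : 1 ≤ j) {k : ℕ} (hk : 1 ≤ k) :
    j ≤ n k ↔ k ≤ cj M n j := by
  unfold cj
  constructor
  · intro h
    have h1 : Icc 1 k ⊆ (Icc 1 M).filter (fun k => j ≤ n k) := by
      intro i hi
      rw [mem_Icc] at hi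
      have h2 := hanti i k hi.1 hi.2
      rw [mem_filter, mem_Icc]
      refine ⟨⟨hi.1, ?_⟩, by omega⟩
      by_contra hc
      rw [not_le] at hc
      have := hn i hc
      omega
    have h2 := card_le_card h1
    rw [Nat.card_Icc] at h2
    omega
  · intro h
    by_contra hc
    rw [not_le] at hc
    have h1 : (Icc 1 M).filter (fun k => j ≤ n k) ⊆ Icc 1 (k - 1) := by
      intro i hi
      rw [mem_filter, mem_Icc] at hi
      rw [mem_Icc]
      refine ⟨hi.1.1, ?_⟩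
      by_contra hc2
      have := hanti k i hk (by omega)
      omega
    have h2 := card_le_card h1
    rw [Nat.card_Icc] at h2
    omega

theorem kg1_sum (w m : ℕ) : ∑ k ∈ Icc 1 m, (2 * ((w : ℤ) - k) + 1) = 2 * w * m - (m : ℤ) ^ 2 := by
  induction m with
  | zero => simp
  | succ m ih =>
    rw [sum_Icc_succ_top (by omega), ih]
    push_cast
    ring

theorem kg1_cnt (M c : ℕ) (hc : c ≤ M) (p : ℕ → Prop) [DecidablePred p]
    (hp : ∀ l, 1 ≤ l → (p l ↔ l ≤ c)) : ∑ l ∈ Icc 1 M, (if p l then (1 : ℤ) else 0) = c := by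
  rw [← sum_filter, sum_const, nsmul_eq_mul, mul_one]
  have h1 : (Icc 1 M).filter p = Icc 1 c := by
    ext l
    rw [mem_filter, mem_Icc, mem_Icc]
    constructor
    · rintro ⟨⟨h1, h2⟩, h3⟩
      exact ⟨h1, (hp l h1).1 h3⟩
    · rintro ⟨h1, h2⟩
      exact ⟨⟨h1, by omega⟩, (hp l h1).2 h2⟩
  rw [h1, Nat.card_Icc, Nat.add_sub_cancel]

theorem kg1_sq (M v : ℕ) (hv : v ≤ M) : ∑ k ∈ Icc 1 M, ∑ l ∈ Icc 1 M,
    ((if k + l - 1 ≤ v then (1 : ℤ) else 0) + (if k + l ≤ v then (1 : ℤ) else 0)) = (v : ℤ) ^ 2 := by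
  have h1 : ∀ k ∈ Icc 1 M, ∑ l ∈ Icc 1 M, ((if k + l - 1 ≤ v then (1 : ℤ) else 0) +
      (if k + l ≤ v then (1 : ℤ) else 0)) = if k ≤ v then 2 * ((v : ℤ) - k) + 1 else 0 := by
    intro k hk
    rw [mem_Icc] at hk
    rw [sum_add_distrib, kg1_cnt M (v + 1 - k) (by omega) (fun l => k + l - 1 ≤ v)
      (fun l hl => by show k + l - 1 ≤ v ↔ l ≤ v + 1 - k; omega), kg1_cnt M (v - k) (by omega) (fun l => k + l ≤ v)
      (fun l hl => by show k + l ≤ v ↔ l ≤ v - k; omega)]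
    by_cases h : k ≤ v
    · rw [if_pos h, Nat.cast_sub (by omega), Nat.cast_sub h]
      push_cast
      ring
    · rw [if_neg h]
      have e1 : v + 1 - k = 0 := by omega
      have e2 : v - k = 0 := by omega
      rw [e1, e2]
      rfl
  rw [sum_congr rfl h1, ← sum_filter]
  have h2 : (Icc 1 M).filter (fun k => k ≤ v) = Icc 1 v := by
    ext k
    rw [mem_filter, mem_Icc, mem_Icc]
    omega
  rw [h2, kg1_sum]
  ring

theorem kg1_tel (a : ℕ → ℤ) (ha : a 0 = 0) (N m : ℕ) (hm : m ≤ N) :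
    a m = ∑ j ∈ Icc 1 N, (a j - a (j - 1)) * (if j ≤ m then 1 else 0) := by
  simp only [mul_ite, mul_one, mul_zero]
  rw [← sum_filter]
  have h2 : (Icc 1 N).filter (fun k => k ≤ m) = Icc 1 m := by
    ext k
    rw [mem_filter, mem_Icc, mem_Icc]
    omega
  rw [h2]
  clear h2 hm
  induction m with
  | zero => simpa using ha
  | succ m ih =>
    rw [sum_Icc_succ_top (by omega), ← ih, Nat.add_sub_cancel]
    ring

/-- KG1 -/
theorem eval_a_pr (M N : ℕ) (n : ℕ → ℕ) (hn : ∀ k, M < k → n k = 0)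
    (hanti : ∀ k l, 1 ≤ k → k ≤ l → n l ≤ n k) (hN : ∀ k, n k ≤ N) (a : ℕ → ℤ) (ha : a 0 = 0) :
    ∑ k ∈ Icc 1 M, ∑ l ∈ Icc 1 M, (a (n (k + l - 1)) + a (n (k + l)))
      = ∑ j ∈ Icc 1 N, (a j - a (j - 1)) * (cj M n j : ℤ) ^ 2 := by
  have h1 : ∀ k ∈ Icc 1 M, ∀ l ∈ Icc 1 M, a (n (k + l - 1)) + a (n (k + l)) =
      ∑ j ∈ Icc 1 N, (a j - a (j - 1)) * ((if k + l - 1 ≤ cj M n j then (1 : ℤ) else 0) +
        (if k + l ≤ cj M n j then (1 : ℤ) else 0)) := by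
    intro k hk l hl
    rw [mem_Icc] at hk hl
    rw [kg1_tel a ha N _ (hN (k + l - 1)), kg1_tel a ha N _ (hN (k + l)), ← sum_add_distrib]
    apply sum_congr rfl
    intro j hj
    rw [mem_Icc] at hj
    have e1 := kg1_thr M n hn hanti hj.1 (k := k + l - 1) (by omega)
    have e2 := kg1_thr M n hn hanti hj.1 (k := k + l) (by omega)
    simp only [e1, e2]
    ring
  rw [sum_congr rfl fun k hk => sum_congr rfl fun l hl => h1 k hk l hl]
  have h2 : ∀ k ∈ Icc 1 M, ∑ l ∈ Icc 1 M, ∑ j ∈ Icc 1 N, (a j - a (j - 1)) *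
      ((if k + l - 1 ≤ cj M n j then (1 : ℤ) else 0) + (if k + l ≤ cj M n j then (1 : ℤ) else 0)) =
      ∑ j ∈ Icc 1 N, ∑ l ∈ Icc 1 M, (a j - a (j - 1)) *
      ((if k + l - 1 ≤ cj M n j then (1 : ℤ) else 0) + (if k + l ≤ cj M n j then (1 : ℤ) else 0)) :=
    fun k _ => sum_comm
  rw [sum_congr rfl h2, sum_comm]
  apply sum_congr rfl
  intro j _
  have h3 : cj M n j ≤ M := by
    unfold cj
    refine (card_filter_le _ _).trans ?_
    rw [Nat.card_Icc, Nat.add_sub_cancel]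
  rw [← kg1_sq M (cj M n j) h3, mul_sum]
  apply sum_congr rfl
  intro k _
  rw [mul_sum]

theorem eval_a : type_of% @eval_a_pr := @eval_a_pr

end Pool.Agent.KE
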