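import Pool.Agent.Lib_helper59.KE.Defs
import Mathlib
set_option autoImplicit false

namespace Pool.Agent.KE

open Finset

theorem kg2_tel0 (β : ℕ → ℤ) (hβ : β 0 = 0) (m : ℕ) :
    ∑ j ∈ Icc 1 m, (β j - β (j - 1)) = β m := by
  induction m with
  | zero => simp [hβ]
  | succ m ih =>
    rw [Finset.sum_Icc_succ_top (by omega), ih]
    simp

theorem kg2_tel (β : ℕ → ℤ) (hβ : β 0 = 0) (N m : ℕ) (hm : m ≤ N) :
    β m = ∑ j ∈ Icc 1 N, (β j - β (j - 1)) * (if j ≤ m then 1 else 0) := by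
  have h : ∀ j ∈ Icc 1 N, (β j - β (j - 1)) * (if j ≤ m then 1 else 0) =
      if j ≤ m then (β j - β (j - 1)) else 0 := by
    intro j _
    split_ifs <;> simp
  rw [Finset.sum_congr rfl h, ← Finset.sum_filter]
  have e : (Icc 1 N).filter (fun j => j ≤ m) = Icc 1 m := by
    ext j
    simp only [Finset.mem_filter, Finset.mem_Icc]
    omega
  rw [e, kg2_tel0 β hβ m]

theorem kg2_abs0 (N a b : ℕ) (ha : a ≤ N) (hb : b ≤ N) (hab : a ≤ b) :
    |(a : ℤ) - b| = ∑ i ∈ Icc 1 N, |((if i ≤ a then 1 else 0 : ℤ)) - (if i ≤ b then 1 else 0)| := by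
  have h1 := kg2_tel (fun m => (m : ℤ)) (by simp) N a ha
  have h2 := kg2_tel (fun m => (m : ℤ)) (by simp) N b hb
  have h3 : |(a : ℤ) - b| = b - a := by
    rw [abs_sub_comm, abs_of_nonneg]
    have : (a : ℤ) ≤ b := by exact_mod_cast hab
    linarith
  rw [h3, h1, h2, ← Finset.sum_sub_distrib]
  refine Finset.sum_congr rfl fun i hi => ?_
  rw [Finset.mem_Icc] at hi
  have e : ((i : ℤ) - ((i - 1 : ℕ) : ℤ)) = 1 := by
    have : ((i - 1 : ℕ) : ℤ) = i - 1 := by
      rw [Nat.cast_sub hi.1]; simp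
    rw [this]; ring
  rw [e]
  split_ifs with c1 c2
  · simp
  · simp
  · omega
  · simp

theorem kg2_abs (N a b : ℕ) (ha : a ≤ N) (hb : b ≤ N) :
    |(a : ℤ) - b| = ∑ i ∈ Icc 1 N, |((if i ≤ a then 1 else 0 : ℤ)) - (if i ≤ b then 1 else 0)| := by
  rcases le_total a b with h | h
  · exact kg2_abs0 N a b ha hb h
  · rw [abs_sub_comm, kg2_abs0 N b a hb ha h]
    exact Finset.sum_congr rfl fun i _ => abs_sub_comm _ _

theorem kg2_G (d m : ℕ) : ∑ k ∈ Icc 1 m, (((d + 1 - k : ℕ) : ℤ) + ((d - k : ℕ) : ℤ)) =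
    if m ≤ d then 2 * (d : ℤ) * m - (m : ℤ) ^ 2 else (d : ℤ) ^ 2 := by
  induction m with
  | zero => simp
  | succ m ih =>
    rw [Finset.sum_Icc_succ_top (by omega), ih]
    rcases lt_trichotomy m d with h | h | h
    · rw [if_pos (by omega), if_pos (by omega)]
      have e1 : ((d + 1 - (m + 1) : ℕ) : ℤ) = d - m := by
        rw [Nat.add_sub_add_right, Nat.cast_sub h.le]
      have e2 : ((d - (m + 1) : ℕ) : ℤ) = d - m - 1 := by
        rw [Nat.cast_sub h]
        push_cast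
        ring
      rw [e1, e2]
      push_cast
      ring
    · subst h
      rw [if_pos le_rfl, if_neg (by omega)]
      have e1 : m + 1 - (m + 1) = 0 := by omega
      have e2 : m - (m + 1) = 0 := by omega
      rw [e1, e2]
      push_cast
      ring
    · rw [if_neg (by omega), if_neg (by omega)]
      have e1 : d + 1 - (m + 1) = 0 := by omega
      have e2 : d - (m + 1) = 0 := by omega
      rw [e1, e2]
      simp

theorem kg2_H (x y : ℕ) (h : y < x) :
    ∑ k ∈ Icc 1 y, (((x + 1 - k - y : ℕ) : ℤ) + ((x - k - y : ℕ) : ℤ)) = HH x y := by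
  have e : ∀ k ∈ Icc 1 y, (((x + 1 - k - y : ℕ) : ℤ) + ((x - k - y : ℕ) : ℤ)) =
      ((((x - y) + 1 - k : ℕ) : ℤ) + (((x - y) - k : ℕ) : ℤ)) := by
    intro k _
    have a1 : x + 1 - k - y = (x - y) + 1 - k := by omega
    have a2 : x - k - y = (x - y) - k := by omega
    rw [a1, a2]
  rw [Finset.sum_congr rfl e, kg2_G]
  have c : ((x - y : ℕ) : ℤ) = (x : ℤ) - y := by
    rw [Nat.cast_sub h.le]
  have hv : HH x y = if (x : ℤ) ≤ 2 * y then ((x : ℤ) - y) ^ 2 else 2 * x * y - 3 * y ^ 2 := by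
    unfold HH
    have h0 : ¬ ((x : ℤ) ≤ y) := by push Not; exact_mod_cast h
    rw [if_neg h0]
  rw [c, hv]
  by_cases h1 : y ≤ x - y <;> by_cases h2 : (x : ℤ) ≤ 2 * y
  · rw [if_pos h1, if_pos h2]
    have : (x : ℤ) = 2 * y := by omega
    rw [this]; ring
  · rw [if_pos h1, if_neg h2]; ring
  · rw [if_neg h1, if_pos h2]
  · omega

theorem kg2_in (M x y k : ℕ) (hx : x ≤ M) (hk : 1 ≤ k) :
    ∑ l ∈ Icc 1 M, (((if k + l - 1 ≤ x then 1 else 0 : ℤ)) + (if k + l ≤ x then 1 else 0)) *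
      (if y < l then 1 else 0) = ((x + 1 - k - y : ℕ) : ℤ) + ((x - k - y : ℕ) : ℤ) := by
  have e : ∀ l ∈ Icc 1 M, (((if k + l - 1 ≤ x then 1 else 0 : ℤ)) + (if k + l ≤ x then 1 else 0)) *
      (if y < l then 1 else 0) =
      (if (l ∈ Ioc y (x + 1 - k)) then 1 else 0) + (if (l ∈ Ioc y (x - k)) then 1 else 0) := by
    intro l hl
    rw [Finset.mem_Icc] at hl
    have a1 : l ∈ Ioc y (x + 1 - k) ↔ (k + l - 1 ≤ x ∧ y < l) := by
      rw [Finset.mem_Ioc]; omega
    have a2 : l ∈ Ioc y (x - k) ↔ (k + l ≤ x ∧ y < l) := by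
      rw [Finset.mem_Ioc]; omega
    rw [if_congr a1 rfl rfl, if_congr a2 rfl rfl]
    by_cases c1 : k + l - 1 ≤ x <;> by_cases c2 : k + l ≤ x <;> by_cases c3 : y < l <;>
      simp [c1, c2, c3]
  rw [Finset.sum_congr rfl e, Finset.sum_add_distrib, Finset.sum_ite_mem, Finset.sum_ite_mem]
  have b1 : Icc 1 M ∩ Ioc y (x + 1 - k) = Ioc y (x + 1 - k) := by
    rw [Finset.inter_eq_right]
    intro l hl
    rw [Finset.mem_Ioc] at hl
    rw [Finset.mem_Icc]
    omega
  have b2 : Icc 1 M ∩ Ioc y (x - k) = Ioc y (x - k) := by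
    rw [Finset.inter_eq_right]
    intro l hl
    rw [Finset.mem_Ioc] at hl
    rw [Finset.mem_Icc]
    omega
  rw [b1, b2]
  simp

theorem kg2_half (M x y : ℕ) (hx : x ≤ M) :
    ∑ k ∈ Icc 1 M, ∑ l ∈ Icc 1 M,
      (((if k + l - 1 ≤ x then 1 else 0 : ℤ)) + (if k + l ≤ x then 1 else 0)) *
        ((if k ≤ y then 1 else 0) * (if y < l then 1 else 0)) = HH x y := by
  have e : ∀ k ∈ Icc 1 M, ∑ l ∈ Icc 1 M,
      (((if k + l - 1 ≤ x then 1 else 0 : ℤ)) + (if k + l ≤ x then 1 else 0)) *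
        ((if k ≤ y then 1 else 0) * (if y < l then 1 else 0)) =
      if k ≤ y then (((x + 1 - k - y : ℕ) : ℤ) + ((x - k - y : ℕ) : ℤ)) else 0 := by
    intro k hk
    rw [Finset.mem_Icc] at hk
    split_ifs with hky
    · rw [← kg2_in M x y k hx hk.1]
      refine Finset.sum_congr rfl fun l _ => ?_
      ring
    · simp
  rw [Finset.sum_congr rfl e, ← Finset.sum_filter]
  rcases lt_or_ge y x with h | h
  · have b : (Icc 1 M).filter (fun k => k ≤ y) = Icc 1 y := by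
      ext k
      simp only [Finset.mem_filter, Finset.mem_Icc]
      omega
    rw [b, kg2_H x y h]
  · have hz : HH x y = 0 := by
      unfold HH
      rw [if_pos (by exact_mod_cast h)]
    rw [hz]
    refine Finset.sum_eq_zero fun k hk => ?_
    simp only [Finset.mem_filter, Finset.mem_Icc] at hk
    have a1 : x + 1 - k - y = 0 := by omega
    have a2 : x - k - y = 0 := by omega
    rw [a1, a2]
    simp

theorem kg2_cnt (M x y : ℕ) (hx : x ≤ M) :
    ∑ k ∈ Icc 1 M, ∑ l ∈ Icc 1 M,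
      (((if k + l - 1 ≤ x then 1 else 0 : ℤ)) + (if k + l ≤ x then 1 else 0)) *
        |((if k ≤ y then 1 else 0 : ℤ)) - (if l ≤ y then 1 else 0)| = 2 * HH x y := by
  have e : ∀ k ∈ Icc 1 M, ∀ l ∈ Icc 1 M,
      (((if k + l - 1 ≤ x then 1 else 0 : ℤ)) + (if k + l ≤ x then 1 else 0)) *
        |((if k ≤ y then 1 else 0 : ℤ)) - (if l ≤ y then 1 else 0)| =
      (((if k + l - 1 ≤ x then 1 else 0 : ℤ)) + (if k + l ≤ x then 1 else 0)) *
        ((if k ≤ y then 1 else 0) * (if y < l then 1 else 0)) +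
      (((if l + k - 1 ≤ x then 1 else 0 : ℤ)) + (if l + k ≤ x then 1 else 0)) *
        ((if l ≤ y then 1 else 0) * (if y < k then 1 else 0)) := by
    intro k _ l _
    rw [add_comm l k]
    by_cases c1 : k ≤ y <;> by_cases c2 : l ≤ y
    · have c3 : ¬ y < l := by omega
      have c4 : ¬ y < k := by omega
      simp [c1, c2, c3, c4]
    · have c3 : y < l := by omega
      have c4 : ¬ y < k := by omega
      simp [c1, c2, c3, c4]
    · have c3 : ¬ y < l := by omega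
      have c4 : y < k := by omega
      simp [c1, c2, c3, c4]
    · have c3 : y < l := by omega
      have c4 : y < k := by omega
      simp [c1, c2, c3, c4]
  rw [Finset.sum_congr rfl fun k hk => Finset.sum_congr rfl fun l hl => e k hk l hl]
  simp only [Finset.sum_add_distrib]
  rw [kg2_half M x y hx]
  rw [Finset.sum_comm, kg2_half M x y hx]
  ring

theorem kg2_cj (M : ℕ) (n : ℕ → ℕ) (hn : ∀ k, M < k → n k = 0)
    (hanti : ∀ k l, 1 ≤ k → k ≤ l → n l ≤ n k) (j k : ℕ) (hj : 1 ≤ j) (hk : 1 ≤ k) :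
    j ≤ n k ↔ k ≤ cj M n j := by
  unfold cj
  constructor
  · intro h
    have hkM : k ≤ M := by
      by_contra hc
      have := hn k (by omega)
      omega
    have hsub : Icc 1 k ⊆ (Icc 1 M).filter (fun k => j ≤ n k) := by
      intro l hl
      rw [Finset.mem_Icc] at hl
      rw [Finset.mem_filter, Finset.mem_Icc]
      exact ⟨⟨hl.1, hl.2.trans hkM⟩, h.trans (hanti l k hl.1 hl.2)⟩
    have := Finset.card_le_card hsub
    rw [Nat.card_Icc] at this
    omega
  · intro h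
    by_contra hc
    have hsub : (Icc 1 M).filter (fun k => j ≤ n k) ⊆ Icc 1 (k - 1) := by
      intro l hl
      rw [Finset.mem_filter, Finset.mem_Icc] at hl
      rw [Finset.mem_Icc]
      refine ⟨hl.1.1, ?_⟩
      by_contra hc2
      have := hanti k l hk (by omega)
      omega
    have := Finset.card_le_card hsub
    rw [Nat.card_Icc] at this
    omega

theorem kg2_cjM (M : ℕ) (n : ℕ → ℕ) (j : ℕ) : cj M n j ≤ M := by
  unfold cj
  have := Finset.card_filter_le (Icc 1 M) (fun k => j ≤ n k)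
  rw [Nat.card_Icc] at this
  omega

/-- KG2 -/
theorem eval_b_pr (M N : ℕ) (n : ℕ → ℕ) (hn : ∀ k, M < k → n k = 0)
    (hanti : ∀ k l, 1 ≤ k → k ≤ l → n l ≤ n k) (hN : ∀ k, n k ≤ N) (β : ℕ → ℤ) (hβ : β 0 = 0) :
    ∑ k ∈ Icc 1 M, ∑ l ∈ Icc 1 M,
        (β (n (k + l - 1)) + β (n (k + l))) * |(n k : ℤ) - n l|
      = 2 * ∑ j ∈ Icc 1 N, (β j - β (j - 1)) * ∑ i ∈ Icc 1 N, HH (cj M n j) (cj M n i) := by
  have hb : ∀ m, 1 ≤ m → β (n m) =
      ∑ j ∈ Icc 1 N, (β j - β (j - 1)) * (if m ≤ cj M n j then 1 else 0) := by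
    intro m hm
    rw [kg2_tel β hβ N (n m) (hN m)]
    refine Finset.sum_congr rfl fun j hj => ?_
    rw [Finset.mem_Icc] at hj
    rw [if_congr (kg2_cj M n hn hanti j m hj.1 hm) rfl rfl]
  have ha : ∀ k l, 1 ≤ k → 1 ≤ l → |(n k : ℤ) - n l| =
      ∑ i ∈ Icc 1 N, |((if k ≤ cj M n i then 1 else 0 : ℤ)) - (if l ≤ cj M n i then 1 else 0)| := by
    intro k l hk hl
    rw [kg2_abs N (n k) (n l) (hN k) (hN l)]
    refine Finset.sum_congr rfl fun i hi => ?_
    rw [Finset.mem_Icc] at hi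
    rw [if_congr (kg2_cj M n hn hanti i k hi.1 hk) rfl rfl,
      if_congr (kg2_cj M n hn hanti i l hi.1 hl) rfl rfl]
  have step : ∀ k ∈ Icc 1 M, ∀ l ∈ Icc 1 M,
      (β (n (k + l - 1)) + β (n (k + l))) * |(n k : ℤ) - n l| =
      ∑ j ∈ Icc 1 N, ∑ i ∈ Icc 1 N, (β j - β (j - 1)) *
        ((((if k + l - 1 ≤ cj M n j then 1 else 0 : ℤ)) + (if k + l ≤ cj M n j then 1 else 0)) *
        |((if k ≤ cj M n i then 1 else 0 : ℤ)) - (if l ≤ cj M n i then 1 else 0)|) := by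
    intro k hk l hl
    rw [Finset.mem_Icc] at hk hl
    rw [hb (k + l - 1) (by omega), hb (k + l) (by omega), ha k l hk.1 hl.1,
      ← Finset.sum_add_distrib, Finset.sum_mul_sum]
    refine Finset.sum_congr rfl fun j _ => Finset.sum_congr rfl fun i _ => ?_
    ring
  rw [Finset.sum_congr rfl fun k hk => Finset.sum_congr rfl fun l hl => step k hk l hl]
  have sw : ∀ k ∈ Icc 1 M, ∑ l ∈ Icc 1 M, ∑ j ∈ Icc 1 N, ∑ i ∈ Icc 1 N, (β j - β (j - 1)) *
        ((((if k + l - 1 ≤ cj M n j then 1 else 0 : ℤ)) + (if k + l ≤ cj M n j then 1 else 0)) *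
        |((if k ≤ cj M n i then 1 else 0 : ℤ)) - (if l ≤ cj M n i then 1 else 0)|) =
      ∑ j ∈ Icc 1 N, ∑ i ∈ Icc 1 N, ∑ l ∈ Icc 1 M, (β j - β (j - 1)) *
        ((((if k + l - 1 ≤ cj M n j then 1 else 0 : ℤ)) + (if k + l ≤ cj M n j then 1 else 0)) *
        |((if k ≤ cj M n i then 1 else 0 : ℤ)) - (if l ≤ cj M n i then 1 else 0)|) := by
    intro k _
    rw [Finset.sum_comm]
    refine Finset.sum_congr rfl fun j _ => ?_
    rw [Finset.sum_comm]
  rw [Finset.sum_congr rfl sw, Finset.sum_comm, Finset.mul_sum]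
  refine Finset.sum_congr rfl fun j _ => ?_
  rw [Finset.sum_comm, Finset.mul_sum, Finset.mul_sum]
  refine Finset.sum_congr rfl fun i _ => ?_
  simp only [← Finset.mul_sum]
  rw [kg2_cnt M (cj M n j) (cj M n i) (kg2_cjM M n j)]
  ring

theorem eval_b : type_of% @eval_b_pr := @eval_b_pr

end Pool.Agent.KE
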