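import Pool.Agent.Lib_helper59.KE.Defs
import Mathlib
set_option autoImplicit false

namespace Pool.Agent.KE

open Finset

/-- the number of `j` in `[1, N]` with `j ≤ a` -/
theorem kh_count (a N : ℕ) (h : a ≤ N) : ∑ j ∈ Icc 1 N, (if j ≤ a then 1 else 0) = a := by
  rw [← Finset.sum_filter, Finset.sum_const, smul_eq_mul, mul_one]
  have : (Icc 1 N).filter (fun j => j ≤ a) = Icc 1 a := by
    ext j
    simp only [Finset.mem_filter, Finset.mem_Icc]
    omega
  rw [this, Nat.card_Icc]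
  omega

/-- double counting -/
theorem kh_double {ι : Type*} (s : Finset ι) (g : ι → ℕ) (N : ℕ) (h : ∀ i, g i ≤ N) :
    ∑ j ∈ Icc 1 N, (s.filter (fun i => j ≤ g i)).card = ∑ i ∈ s, g i := by
  have h1 : ∀ j, (s.filter (fun i => j ≤ g i)).card = ∑ i ∈ s, (if j ≤ g i then 1 else 0) := by
    intro j
    rw [Finset.card_filter]
  simp only [h1]
  rw [Finset.sum_comm]
  apply Finset.sum_congr rfl
  intro i _
  exact kh_count (g i) N (h i)

/-- KH -/
theorem cj_facts_pr (M N : ℕ) (n : ℕ → ℕ) (hanti : ∀ k l, 1 ≤ k → k ≤ l → n l ≤ n k)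
    (hN : ∀ k, n k ≤ N) :
    (∀ i j, i ≤ j → cj M n j ≤ cj M n i) ∧ (∀ j, N < j → cj M n j = 0) ∧
      ∑ j ∈ Icc 1 N, cj M n j = ∑ k ∈ Icc 1 M, n k ∧ (∀ j, cj M n j ≤ M) ∧
      ((1 ≤ M → 1 ≤ n M → cj M n 1 = M)) := by
  refine ⟨?_, ?_, ?_, ?_, ?_⟩
  · intro i j hij
    unfold cj
    apply Finset.card_le_card
    intro k hk
    simp only [Finset.mem_filter] at hk ⊢
    exact ⟨hk.1, le_trans hij hk.2⟩
  · intro j hj
    unfold cj
    rw [Finset.card_eq_zero, Finset.filter_eq_empty_iff]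
    intro k _ hk
    have := hN k
    omega
  · unfold cj
    exact kh_double (Icc 1 M) n N hN
  · intro j
    unfold cj
    refine le_trans (Finset.card_filter_le _ _) ?_
    rw [Nat.card_Icc]
    omega
  · intro hM hnM
    unfold cj
    have : (Icc 1 M).filter (fun k => 1 ≤ n k) = Icc 1 M := by
      rw [Finset.filter_true_of_mem]
      intro k hk
      rw [Finset.mem_Icc] at hk
      exact le_trans hnM (hanti k M hk.1 hk.2)
    rw [this, Nat.card_Icc]
    omega

/-- KH2 : `Σ n_k = b` -/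
theorem nn_facts_pr (J M : ℕ) (f : ℤ → ℕ) (hM : ∀ i, f i ≤ M) :
    (∀ k l, k ≤ l → nn J f l ≤ nn J f k) ∧ (∀ k, nn J f k ≤ 2 * J + 1) ∧
      (∀ k, M < k → nn J f k = 0) ∧
      ∑ k ∈ Icc 1 M, nn J f k = ∑ i ∈ Icc (-(J : ℤ)) J, f i := by
  refine ⟨?_, ?_, ?_, ?_⟩
  · intro k l hkl
    unfold nn SS
    apply Finset.card_le_card
    intro i hi
    simp only [Finset.mem_filter] at hi ⊢
    exact ⟨hi.1, le_trans hkl hi.2⟩
  · intro k
    unfold nn SS
    refine le_trans (Finset.card_filter_le _ _) ?_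
    rw [Int.card_Icc]
    omega
  · intro k hk
    unfold nn SS
    rw [Finset.card_eq_zero, Finset.filter_eq_empty_iff]
    intro i _ hi
    have := hM i
    omega
  · unfold nn SS
    exact kh_double (Icc (-(J : ℤ)) J) f M hM

theorem cj_facts : type_of% @cj_facts_pr := @cj_facts_pr

theorem nn_facts : type_of% @nn_facts_pr := @nn_facts_pr

end Pool.Agent.KE
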