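import Pool.Agent.Lib_helper59.KE.Defs
import Mathlib
/-! Block KB: Pollard's inequality in the integers. -/

set_option autoImplicit false

namespace Pool.Agent.KE

open Finset

theorem kb_inj (S C : Finset ℤ) (f : ℤ → ℤ) (hf : Function.Injective f) (P : ℤ → Prop)
    [DecidablePred P] (hP : ∀ s ∈ S, P (f s)) :
    ∑ s ∈ S, (if f s ∈ C then (1 : ℤ) else 0) ≤ ((C.filter P).card : ℤ) := by
  rw [Finset.sum_ite, Finset.sum_const_zero, add_zero, Finset.sum_const, nsmul_eq_mul, mul_one]
  have h : (S.filter (fun s => f s ∈ C)).card ≤ (C.filter P).card := by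
    apply Finset.card_le_card_of_injOn f
    · intro s hs
      have hs' := Finset.mem_filter.1 (Finset.mem_coe.1 hs)
      exact Finset.mem_coe.2 (Finset.mem_filter.2 ⟨hs'.2, hP s hs'.1⟩)
    · intro s _ s' _ h
      exact hf h
  exact_mod_cast h

theorem kb_erase (A B C : Finset ℤ) {a b : ℤ} (ha : a ∈ A) (hb : b ∈ B) :
    NZ A B C = (∑ y ∈ B, (if a + y ∈ C then (1 : ℤ) else 0) +
      ∑ x ∈ A.erase a, (if x + b ∈ C then (1 : ℤ) else 0)) + NZ (A.erase a) (B.erase b) C := by
  unfold NZ
  rw [← Finset.add_sum_erase A _ ha, add_assoc]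
  congr 1
  rw [← Finset.sum_add_distrib]
  apply Finset.sum_congr rfl
  intro x _
  rw [← Finset.add_sum_erase B _ hb]

theorem kb_triv (A B C : Finset ℤ) : NZ A B C ≤ (A.card : ℤ) * B.card := by
  unfold NZ
  calc ∑ a ∈ A, ∑ b ∈ B, (if a + b ∈ C then (1 : ℤ) else 0)
      ≤ ∑ a ∈ A, ∑ b ∈ B, (1 : ℤ) := by
        apply Finset.sum_le_sum
        intro a _
        apply Finset.sum_le_sum
        intro b _
        split_ifs
        · exact le_rfl
        · exact zero_le_one
    _ = (A.card : ℤ) * B.card := by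
        simp only [Finset.sum_const, nsmul_eq_mul, mul_one]

theorem kb_left (A B C : Finset ℤ) : NZ A B C ≤ (A.card : ℤ) * C.card := by
  unfold NZ
  calc ∑ a ∈ A, ∑ b ∈ B, (if a + b ∈ C then (1 : ℤ) else 0)
      ≤ ∑ a ∈ A, (C.card : ℤ) := by
        apply Finset.sum_le_sum
        intro a _
        have h := kb_inj B C (fun b => a + b) (fun x y h => by simpa using h) (fun _ => True)
          (fun _ _ => trivial)
        rw [Finset.filter_true_of_mem (fun _ _ => trivial)] at h
        exact h
    _ = (A.card : ℤ) * C.card := by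
        simp only [Finset.sum_const, nsmul_eq_mul]

theorem kb_right (A B C : Finset ℤ) : NZ A B C ≤ (B.card : ℤ) * C.card := by
  unfold NZ
  rw [Finset.sum_comm]
  calc ∑ b ∈ B, ∑ a ∈ A, (if a + b ∈ C then (1 : ℤ) else 0)
      ≤ ∑ b ∈ B, (C.card : ℤ) := by
        apply Finset.sum_le_sum
        intro b _
        have h := kb_inj A C (fun a => a + b) (fun x y h => by simpa using h) (fun _ => True)
          (fun _ _ => trivial)
        rw [Finset.filter_true_of_mem (fun _ _ => trivial)] at h
        exact h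
    _ = (B.card : ℤ) * C.card := by
        simp only [Finset.sum_const, nsmul_eq_mul]

/-- KB1 -/
theorem nz_hook_pr (A B C : Finset ℤ) (t : ℕ) (hA : t ≤ A.card) (hB : t ≤ B.card) :
    NZ A B C ≤ t * C.card + ((A.card : ℤ) - t) * ((B.card : ℤ) - t) := by
  induction t generalizing A B with
  | zero =>
    have := kb_triv A B C
    simpa using this
  | succ t ih =>
    have hA0 : A.Nonempty := Finset.card_pos.1 (by omega)
    have hB0 : B.Nonempty := Finset.card_pos.1 (by omega)
    obtain ⟨a, ha, ha'⟩ := Finset.exists_min_image A id hA0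
    obtain ⟨b, hb, hb'⟩ := Finset.exists_max_image B id hB0
    simp only [id] at ha' hb'
    have h1 := ih (A.erase a) (B.erase b) (by rw [Finset.card_erase_of_mem ha]; omega)
      (by rw [Finset.card_erase_of_mem hb]; omega)
    have hcA : ((A.erase a).card : ℤ) = A.card - 1 := by
      rw [Finset.card_erase_of_mem ha]
      have := Finset.card_pos.2 hA0
      omega
    have hcB : ((B.erase b).card : ℤ) = B.card - 1 := by
      rw [Finset.card_erase_of_mem hb]
      have := Finset.card_pos.2 hB0
      omega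
    rw [hcA, hcB] at h1
    have h2 := kb_inj B C (fun y => a + y) (fun x y h => by simpa using h)
      (fun x => x ≤ a + b) (fun y hy => by
        have := hb' y hy
        show a + y ≤ a + b
        omega)
    have h3 := kb_inj (A.erase a) C (fun x => x + b) (fun x y h => by simpa using h)
      (fun x => ¬ x ≤ a + b) (fun x hx => by
        have h4 := ha' x (Finset.mem_of_mem_erase hx)
        have h5 := Finset.ne_of_mem_erase hx
        show ¬ x + b ≤ a + b
        omega)
    have h4 : (C.filter (fun x => x ≤ a + b)).card + (C.filter (fun x => ¬ x ≤ a + b)).card =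
        C.card := Finset.card_filter_add_card_filter_not _
    have h5 := kb_erase A B C ha hb
    have h6 : ((C.filter (fun x => x ≤ a + b)).card : ℤ) +
        (C.filter (fun x => ¬ x ≤ a + b)).card = C.card := by exact_mod_cast h4
    push_cast
    have h7 : ((t : ℤ) + 1) * (C.card : ℤ) + ((A.card : ℤ) - (t + 1)) * ((B.card : ℤ) - (t + 1)) =
        C.card + (t * (C.card : ℤ) + ((A.card : ℤ) - 1 - t) * ((B.card : ℤ) - 1 - t)) := by ring
    rw [h7, h5]
    linarith

/-- KB2 -/
theorem nz_le_pr (A B C : Finset ℤ) : 4 * NZ A B C ≤ g4 A.card B.card C.card := by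
  have h1 := kb_triv A B C
  have h2 := kb_left A B C
  have h3 := kb_right A B C
  unfold g4 Qp
  by_cases c1 : (B.card : ℤ) + C.card ≤ A.card
  · rw [if_pos c1, if_pos (Or.inl c1)]
    linarith
  by_cases c2 : (A.card : ℤ) + C.card ≤ B.card
  · rw [if_neg c1, if_pos c2, if_pos (Or.inr (Or.inl c2))]
    linarith
  by_cases c3 : (A.card : ℤ) + B.card ≤ C.card
  · rw [if_neg c1, if_neg c2, if_pos c3, if_pos (Or.inr (Or.inr c3))]
    linarith
  rw [if_neg c1, if_neg c2, if_neg c3, if_neg (by
    rintro (h | h | h)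
    · exact c1 h
    · exact c2 h
    · exact c3 h)]
  have h4 := nz_hook_pr A B C ((A.card + B.card - C.card) / 2) (by omega) (by omega)
  obtain ⟨p, hp⟩ : ∃ p, p = A.card := ⟨_, rfl⟩
  obtain ⟨q, hq⟩ : ∃ q, q = B.card := ⟨_, rfl⟩
  obtain ⟨r, hr⟩ : ∃ r, r = C.card := ⟨_, rfl⟩
  obtain ⟨t, ht⟩ : ∃ t, t = (p + q - r) / 2 := ⟨_, rfl⟩
  rw [← hp, ← hq, ← hr, ← ht] at h4
  rw [← hp, ← hq] at c3
  rw [← hr] at c3
  rw [← hp, ← hq, ← hr]
  rcases Nat.even_or_odd' (p + q - r) with ⟨s, hs | hs⟩
  · have hts : t = s := by omega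
    subst hts
    have e1 : (p : ℤ) + q - r = 2 * t := by omega
    have e2 : ((p : ℤ) + q + r) % 2 = 0 := by omega
    rw [e2]
    have e3 : (r : ℤ) = p + q - 2 * t := by linarith
    rw [e3] at h4 ⊢
    linarith
  · have hts : t = s := by omega
    subst hts
    have e1 : (p : ℤ) + q - r = 2 * t + 1 := by omega
    have e2 : ((p : ℤ) + q + r) % 2 = 1 := by omega
    rw [e2]
    have e3 : (r : ℤ) = p + q - (2 * t + 1) := by linarith
    rw [e3] at h4 ⊢
    linarith

theorem nz_hook : type_of% @nz_hook_pr := @nz_hook_pr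

theorem nz_le : type_of% @nz_le_pr := @nz_le_pr

end Pool.Agent.KE
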