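import Pool.Agent.Lib_helper59.KE.Defs
import Mathlib
set_option autoImplicit false

namespace Pool.Agent.KE

open Finset

theorem ka_count (y a b : ℕ) (P : ℕ → Prop) [DecidablePred P]
    (h : ∀ l, 1 ≤ l → l ≤ y → (P l ↔ (a < l ∧ l ≤ b))) :
    (∑ l ∈ Icc 1 y, (if P l then (1 : ℤ) else 0)) = ((min y b - a : ℕ) : ℤ) := by
  rw [Finset.sum_boole]
  have e : (Icc 1 y).filter P = Icc (a + 1) (min y b) := by
    ext l
    simp only [mem_filter, mem_Icc]
    constructor
    · rintro ⟨⟨h1, h2⟩, h3⟩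
      have := (h l h1 h2).1 h3
      omega
    · rintro ⟨h1, h2⟩
      have h3 : 1 ≤ l := by omega
      have h4 : l ≤ y := by omega
      exact ⟨⟨h3, h4⟩, (h l h3 h4).2 ⟨by omega, by omega⟩⟩
  rw [e, Nat.card_Icc]
  have : min y b + 1 - (a + 1) = min y b - a := by omega
  rw [this]

theorem ka_qpA (x y z : ℤ) (h : y + z ≤ x) : Qp x y z = 4 * y * z := by
  unfold Qp; rw [if_pos h]

theorem ka_qpB (x y z : ℤ) (hz : 0 ≤ z) (h : x + z ≤ y) : Qp x y z = 4 * x * z := by
  unfold Qp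
  split_ifs with h1
  · have e1 : z = 0 := by omega
    subst e1; ring
  · rfl

theorem ka_qpC (x y z : ℤ) (hx : 0 ≤ x) (hy : 0 ≤ y) (h : x + y ≤ z) : Qp x y z = 4 * x * y := by
  unfold Qp
  split_ifs with h1 h2
  · have e1 : y = 0 := by omega
    subst e1; ring
  · have e1 : x = 0 := by omega
    subst e1; ring
  · rfl

theorem ka_qpD (x y z : ℤ) (h1 : x ≤ y + z) (h2 : y ≤ x + z) (h3 : z ≤ x + y) :
    Qp x y z = 2 * x * y + 2 * y * z + 2 * z * x - x ^ 2 - y ^ 2 - z ^ 2 := by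
  unfold Qp
  split_ifs with g1 g2 g3
  · have e1 : x = y + z := by omega
    subst e1; ring
  · have e1 : y = x + z := by omega
    subst e1; ring
  · have e1 : z = x + y := by omega
    subst e1; ring
  · rfl

theorem ka_inner (x y z : ℕ) :
    (∑ l ∈ Icc 1 y,
      ((if (x + 1) + l ≤ z + 1 then 1 else 0) + (if (x + 1) + l ≤ z then 1 else 0)
        + (if max (((x + 1) - l) + (l - (x + 1))) 1 ≤ z then 1 else 0)
        + (if ((x + 1) - l) + (l - (x + 1)) + 1 ≤ z then 1 else 0) : ℤ))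
      = ((min y (z - x) - 0 : ℕ) : ℤ) + ((min y (z - x - 1) - 0 : ℕ) : ℤ)
        + ((if z = 0 then 0 else min y (x + 1 + z) - (x - z) : ℕ) : ℤ)
        + ((min y (x + z) - (x + 1 - z) : ℕ) : ℤ) := by
  rw [Finset.sum_add_distrib, Finset.sum_add_distrib, Finset.sum_add_distrib]
  have e1 := ka_count y 0 (z - x) (fun l => (x + 1) + l ≤ z + 1) (by intro l h1 h2; omega)
  have e2 := ka_count y 0 (z - x - 1) (fun l => (x + 1) + l ≤ z) (by intro l h1 h2; omega)
  have e4 := ka_count y (x + 1 - z) (x + z) (fun l => ((x + 1) - l) + (l - (x + 1)) + 1 ≤ z)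
    (by intro l h1 h2; omega)
  have e3 : (∑ l ∈ Icc 1 y, (if max (((x + 1) - l) + (l - (x + 1))) 1 ≤ z then (1 : ℤ) else 0))
      = ((if z = 0 then 0 else min y (x + 1 + z) - (x - z) : ℕ) : ℤ) := by
    by_cases hz : z = 0
    · rw [if_pos hz]
      rw [Nat.cast_zero]
      apply Finset.sum_eq_zero
      intro l _
      rw [if_neg]
      intro h
      have := le_max_right (((x + 1) - l) + (l - (x + 1))) 1
      omega
    · rw [if_neg hz]
      exact ka_count y (x - z) (x + 1 + z) (fun l => max (((x + 1) - l) + (l - (x + 1))) 1 ≤ z)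
        (by intro l h1 h2; show max _ _ ≤ z ↔ _; rw [max_le_iff]; omega)
  rw [e3]
  rw [e1, e2, e4]

theorem qp_identity_pr (x y z : ℕ) :
    Qp x y z = ∑ k ∈ Icc 1 x, ∑ l ∈ Icc 1 y,
      ((if k + l ≤ z + 1 then 1 else 0) + (if k + l ≤ z then 1 else 0)
        + (if max ((k - l) + (l - k)) 1 ≤ z then 1 else 0)
        + (if (k - l) + (l - k) + 1 ≤ z then 1 else 0) : ℤ) := by
  induction x with
  | zero =>
    simp only [Nat.cast_zero, show Icc 1 0 = (∅ : Finset ℕ) from rfl, Finset.sum_empty]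
    by_cases h : (z : ℤ) ≤ y
    · rw [ka_qpB 0 y z (by positivity) (by omega)]; ring
    · rw [ka_qpC 0 y z le_rfl (by positivity) (by omega)]; ring
  | succ x ih =>
    rw [Finset.sum_Icc_succ_top (by omega), ← ih, ka_inner]
    have hx : (0 : ℤ) ≤ x := by positivity
    have hy : (0 : ℤ) ≤ y := by positivity
    have hz : (0 : ℤ) ≤ z := by positivity
    push_cast
    rcases le_or_gt ((y : ℤ) + z) x with hA | hA
    · rw [ka_qpA _ _ _ (show (y : ℤ) + z ≤ (x : ℤ) + 1 by omega), ka_qpA _ _ _ hA]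
      split_ifs <;> omega
    · rcases le_or_gt ((x : ℤ) + 1 + z) y with hB | hB
      · rw [ka_qpB _ _ _ hz hB, ka_qpB _ _ _ hz (show (x : ℤ) + z ≤ y by omega)]
        have e : 4 * ((x : ℤ) + 1) * z = 4 * x * z + 4 * z := by ring
        rw [e]
        split_ifs <;> omega
      · rcases le_or_gt ((x : ℤ) + 1 + y) z with hC | hC
        · rw [ka_qpC _ _ _ (by omega) hy hC, ka_qpC _ _ _ hx hy (show (x : ℤ) + y ≤ z by omega)]
          have e : 4 * ((x : ℤ) + 1) * y = 4 * x * y + 4 * y := by ring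
          rw [e]
          split_ifs <;> omega
        · rw [ka_qpD _ _ _ (show (x : ℤ) + 1 ≤ y + z by omega) (by omega) (by omega),
            ka_qpD _ _ _ (show (x : ℤ) ≤ y + z by omega) (by omega) (by omega)]
          have e : 2 * ((x : ℤ) + 1) * y + 2 * y * z + 2 * z * ((x : ℤ) + 1) - ((x : ℤ) + 1) ^ 2
              - (y : ℤ) ^ 2 - (z : ℤ) ^ 2
              = (2 * (x : ℤ) * y + 2 * y * z + 2 * z * x - (x : ℤ) ^ 2 - (y : ℤ) ^ 2 - (z : ℤ) ^ 2)
                + (2 * (y : ℤ) + 2 * z - 2 * x - 1) := by ring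
          rw [e]
          split_ifs <;> omega

theorem qp_identity : type_of% @qp_identity_pr := @qp_identity_pr

end Pool.Agent.KE
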