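import Pool.Agent.Lib_helper59.KE.Defs
import Pool.Agent.Lib_helper59.KEF.KA
import Mathlib
set_option autoImplicit false

namespace Pool.Agent.KE

open Finset

theorem kd_mem (J : ℕ) (f : ℤ → ℕ) (hf : ∀ i, (J : ℤ) < |i| → f i = 0) (r : ℕ) (hr : 1 ≤ r)
    (a : ℤ) : a ∈ SS J f r ↔ r ≤ f a := by
  rw [SS, Finset.mem_filter, Finset.mem_Icc]
  constructor
  · exact fun h => h.2
  · intro h
    refine ⟨?_, h⟩
    by_contra hcon
    have h1 : (J : ℤ) < |a| := by
      by_contra h2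
      exact hcon (abs_le.1 (not_lt.1 h2))
    rw [hf a h1] at h
    omega

theorem kd_nz (J : ℕ) (f : ℤ → ℕ) (hf : ∀ i, (J : ℤ) < |i| → f i = 0) (k l r : ℕ) (hr : 1 ≤ r) :
    NZ (SS J f k) (SS J f l) (SS J f r) = ∑ i ∈ Icc (-(J : ℤ)) J, ∑ j ∈ Icc (-(J : ℤ)) J,
      if k ≤ f i ∧ l ≤ f j then (if r ≤ f (i + j) then (1 : ℤ) else 0) else 0 := by
  rw [NZ]
  conv_lhs => rw [SS, Finset.sum_filter]
  refine Finset.sum_congr rfl fun i _ => ?_
  by_cases hi : k ≤ f i
  · rw [if_pos hi, SS, Finset.sum_filter]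
    refine Finset.sum_congr rfl fun j _ => ?_
    by_cases hj : l ≤ f j
    · have hij : k ≤ f i ∧ l ≤ f j := ⟨hi, hj⟩
      have hmem := kd_mem J f hf r hr (i + j)
      by_cases h : r ≤ f (i + j)
      · have h2 : i + j ∈ SS J f r := hmem.2 h
        simp only [if_pos hj, if_pos hij, if_pos h, if_pos h2]
      · have h2 : i + j ∉ SS J f r := fun h3 => h (hmem.1 h3)
        simp only [if_pos hj, if_pos hij, if_neg h, if_neg h2]
    · have hij : ¬ (k ≤ f i ∧ l ≤ f j) := fun h => hj h.2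
      simp only [if_neg hj, if_neg hij]
  · rw [if_neg hi]
    symm
    exact Finset.sum_eq_zero fun j _ => by rw [if_neg (fun h => hi h.1)]

theorem kd_ext (M a : ℕ) (h : a ≤ M) (g : ℕ → ℤ) :
    ∑ k ∈ Icc 1 a, g k = ∑ k ∈ Icc 1 M, if k ≤ a then g k else 0 := by
  rw [← Finset.sum_filter]
  refine Finset.sum_congr ?_ fun _ _ => rfl
  ext k
  simp only [Finset.mem_Icc, Finset.mem_filter]
  omega

/-- KD -/
theorem sum_qp_eq_pr (J M : ℕ) (f : ℤ → ℕ) (hf : ∀ i, (J : ℤ) < |i| → f i = 0)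
    (hM : ∀ i, f i ≤ M) :
    ∑ i ∈ Icc (-(J : ℤ)) J, ∑ j ∈ Icc (-(J : ℤ)) J, Qp (f i) (f j) (f (i + j))
      = ∑ k ∈ Icc 1 M, ∑ l ∈ Icc 1 M,
        (NZ (SS J f k) (SS J f l) (SS J f (k + l - 1)) + NZ (SS J f k) (SS J f l) (SS J f (k + l))
          + NZ (SS J f k) (SS J f l) (SS J f (max ((k - l) + (l - k)) 1))
          + NZ (SS J f k) (SS J f l) (SS J f ((k - l) + (l - k) + 1))) := by
  -- the common value of one term
  have h1 : ∀ i j : ℤ, Qp (f i) (f j) (f (i + j)) = ∑ k ∈ Icc 1 M, ∑ l ∈ Icc 1 M,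
      if k ≤ f i ∧ l ≤ f j then
        ((if k + l - 1 ≤ f (i + j) then (1 : ℤ) else 0) + (if k + l ≤ f (i + j) then 1 else 0)
          + (if max ((k - l) + (l - k)) 1 ≤ f (i + j) then 1 else 0)
          + (if (k - l) + (l - k) + 1 ≤ f (i + j) then 1 else 0)) else 0 := by
    intro i j
    rw [qp_identity, kd_ext M (f i) (hM i)]
    refine Finset.sum_congr rfl fun k hk => ?_
    rw [Finset.mem_Icc] at hk
    by_cases hi : k ≤ f i
    · rw [if_pos hi, kd_ext M (f j) (hM j)]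
      refine Finset.sum_congr rfl fun l hl => ?_
      rw [Finset.mem_Icc] at hl
      have h2 : (k + l ≤ f (i + j) + 1) = (k + l - 1 ≤ f (i + j)) := by
        apply propext
        omega
      by_cases hj : l ≤ f j
      · have hij : k ≤ f i ∧ l ≤ f j := ⟨hi, hj⟩
        simp only [if_pos hj, if_pos hij, h2]
      · have hij : ¬ (k ≤ f i ∧ l ≤ f j) := fun h => hj h.2
        simp only [if_neg hj, if_neg hij]
    · rw [if_neg hi]
      symm
      exact Finset.sum_eq_zero fun l _ => by rw [if_neg (fun h => hi h.1)]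
  -- the sums of one term
  have h3 : ∀ k ∈ Icc 1 M, ∀ l ∈ Icc 1 M,
      (NZ (SS J f k) (SS J f l) (SS J f (k + l - 1)) + NZ (SS J f k) (SS J f l) (SS J f (k + l))
          + NZ (SS J f k) (SS J f l) (SS J f (max ((k - l) + (l - k)) 1))
          + NZ (SS J f k) (SS J f l) (SS J f ((k - l) + (l - k) + 1))) =
      ∑ i ∈ Icc (-(J : ℤ)) J, ∑ j ∈ Icc (-(J : ℤ)) J, if k ≤ f i ∧ l ≤ f j then
        ((if k + l - 1 ≤ f (i + j) then (1 : ℤ) else 0) + (if k + l ≤ f (i + j) then 1 else 0)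
          + (if max ((k - l) + (l - k)) 1 ≤ f (i + j) then 1 else 0)
          + (if (k - l) + (l - k) + 1 ≤ f (i + j) then 1 else 0)) else 0 := by
    intro k hk l hl
    rw [Finset.mem_Icc] at hk hl
    rw [kd_nz J f hf k l (k + l - 1) (by omega), kd_nz J f hf k l (k + l) (by omega),
      kd_nz J f hf k l (max ((k - l) + (l - k)) 1) (le_max_right _ _),
      kd_nz J f hf k l ((k - l) + (l - k) + 1) (by omega)]
    simp only [← Finset.sum_add_distrib]
    refine Finset.sum_congr rfl fun i _ => Finset.sum_congr rfl fun j _ => ?_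
    by_cases h : k ≤ f i ∧ l ≤ f j
    · simp only [if_pos h]
    · simp only [if_neg h, add_zero]
  rw [Finset.sum_congr rfl fun k hk => Finset.sum_congr rfl fun l hl => h3 k hk l hl]
  rw [Finset.sum_congr rfl fun i _ => Finset.sum_congr rfl fun j _ => h1 i j]
  -- exchange the sums
  have h4 : ∀ F : ℤ → ℤ → ℕ → ℕ → ℤ, ∑ i ∈ Icc (-(J : ℤ)) J, ∑ j ∈ Icc (-(J : ℤ)) J,
      ∑ k ∈ Icc 1 M, ∑ l ∈ Icc 1 M, F i j k l = ∑ k ∈ Icc 1 M, ∑ l ∈ Icc 1 M,
      ∑ i ∈ Icc (-(J : ℤ)) J, ∑ j ∈ Icc (-(J : ℤ)) J, F i j k l := by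
    intro F
    calc _ = ∑ i ∈ Icc (-(J : ℤ)) J, ∑ k ∈ Icc 1 M, ∑ l ∈ Icc 1 M,
          ∑ j ∈ Icc (-(J : ℤ)) J, F i j k l := by
          refine Finset.sum_congr rfl fun i _ => ?_
          rw [Finset.sum_comm]
          refine Finset.sum_congr rfl fun k _ => ?_
          rw [Finset.sum_comm]
      _ = _ := by
          rw [Finset.sum_comm]
          refine Finset.sum_congr rfl fun k _ => ?_
          rw [Finset.sum_comm]
  exact h4 _

theorem sum_qp_eq : type_of% @sum_qp_eq_pr := @sum_qp_eq_pr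

end Pool.Agent.KE
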