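import Pool.Agent.Lib_helper59.KE.Defs
import Mathlib
set_option autoImplicit false

namespace Pool.Agent.KE

open Finset

theorem ke_shift (M l : ℕ) (F : ℕ → ℤ) (hF : ∀ x, M < x → F x = 0) :
    ∑ r ∈ Icc 1 M, F (l + r) = ∑ k ∈ Icc 1 M, if l < k then F k else 0 := by
  rw [← sum_filter]
  have h1 : ∑ r ∈ Icc 1 M, F (l + r) = ∑ x ∈ (Icc 1 M).image (fun r => l + r), F x := by
    rw [sum_image]
    intro a _ b _ h
    exact Nat.add_left_cancel h
  rw [h1]
  symm
  apply sum_subset
  · intro k hk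
    rw [mem_filter, mem_Icc] at hk
    rw [mem_image]
    exact ⟨k - l, by rw [mem_Icc]; omega, by omega⟩
  · intro x hx hx2
    rw [mem_image] at hx
    obtain ⟨r, hr, rfl⟩ := hx
    rw [mem_Icc] at hr
    rw [mem_filter, mem_Icc] at hx2
    apply hF
    by_contra hc
    exact hx2 ⟨⟨by omega, by omega⟩, by omega⟩

theorem ke_shift' (M l : ℕ) (hl : 1 ≤ l) (F : ℕ → ℤ) (hF : ∀ x, M < x → F x = 0) :
    ∑ r ∈ Icc 1 M, F (l + r - 1) = ∑ k ∈ Icc 1 M, if l ≤ k then F k else 0 := by
  have h1 := ke_shift M (l - 1) F hF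
  have h2 : ∀ r ∈ Icc 1 M, F (l + r - 1) = F (l - 1 + r) := by
    intro r _
    congr 1
    omega
  have h3 : ∀ k ∈ Icc 1 M, (if l ≤ k then F k else 0) = if l - 1 < k then F k else 0 := by
    intro k _
    by_cases h : l ≤ k
    · rw [if_pos h, if_pos (by omega)]
    · rw [if_neg h, if_neg (by omega)]
  rw [sum_congr rfl h2, sum_congr rfl h3, h1]

/-- KE -/
theorem reindex_pr (M : ℕ) (G : ℕ → ℕ → ℕ → ℤ) (h1 : ∀ r k l, G r k l = G k r l)
    (h2 : ∀ r k l, G r k l = G r l k) (h0 : ∀ r k l, M < r → G r k l = 0) :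
    ∑ k ∈ Icc 1 M, ∑ l ∈ Icc 1 M,
        (G (k + l - 1) k l + G (k + l) k l + G (max ((k - l) + (l - k)) 1) k l
          + G ((k - l) + (l - k) + 1) k l)
      = 3 * ∑ k ∈ Icc 1 M, ∑ l ∈ Icc 1 M, (G (k + l - 1) k l + G (k + l) k l) := by
  have hz2 : ∀ r k l, M < k → G r k l = 0 := fun r k l h => by rw [h1]; exact h0 _ _ _ h
  -- the two basic sums
  have hB : ∑ l ∈ Icc 1 M, ∑ k ∈ Icc 1 M, (if l < k then G (k - l) k l else 0) =
      ∑ k ∈ Icc 1 M, ∑ l ∈ Icc 1 M, G (k + l) k l := by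
    apply sum_congr rfl
    intro l _
    rw [← ke_shift M l (fun k => G (k - l) k l) (fun x hx => hz2 _ _ _ hx)]
    apply sum_congr rfl
    intro r _
    show G (l + r - l) (l + r) l = G (l + r) l r
    rw [Nat.add_sub_cancel_left, h1, h2]
  have hA : ∑ l ∈ Icc 1 M, ∑ k ∈ Icc 1 M, (if l ≤ k then G (k - l + 1) k l else 0) =
      ∑ k ∈ Icc 1 M, ∑ l ∈ Icc 1 M, G (k + l - 1) k l := by
    apply sum_congr rfl
    intro l hl
    rw [mem_Icc] at hl
    rw [← ke_shift' M l hl.1 (fun k => G (k - l + 1) k l) (fun x hx => hz2 _ _ _ hx)]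
    apply sum_congr rfl
    intro r hr
    rw [mem_Icc] at hr
    show G (l + r - 1 - l + 1) (l + r - 1) l = G (l + r - 1) l r
    have e : l + r - 1 - l + 1 = r := by omega
    rw [e, h1, h2]
  have hB' : ∑ k ∈ Icc 1 M, ∑ l ∈ Icc 1 M, (if k < l then G (l - k) k l else 0) =
      ∑ k ∈ Icc 1 M, ∑ l ∈ Icc 1 M, G (k + l) k l := by
    rw [← hB]
    apply sum_congr rfl
    intro k _
    apply sum_congr rfl
    intro l _
    rw [h2]
  have hA' : ∑ k ∈ Icc 1 M, ∑ l ∈ Icc 1 M, (if k ≤ l then G (l - k + 1) k l else 0) =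
      ∑ k ∈ Icc 1 M, ∑ l ∈ Icc 1 M, G (k + l - 1) k l := by
    rw [← hA]
    apply sum_congr rfl
    intro k _
    apply sum_congr rfl
    intro l _
    rw [h2]
  rw [sum_comm] at hB hA
  have hC : ∑ k ∈ Icc 1 M, ∑ l ∈ Icc 1 M, G (max ((k - l) + (l - k)) 1) k l =
      ∑ k ∈ Icc 1 M, ∑ l ∈ Icc 1 M, ((if l < k then G (k - l) k l else 0) +
        (if k < l then G (l - k) k l else 0) + (if k = l then G 1 k l else 0)) := by
    apply sum_congr rfl
    intro k _
    apply sum_congr rfl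
    intro l _
    rcases lt_trichotomy k l with h | h | h
    · rw [if_neg (by omega), if_pos h, if_neg (by omega)]
      have e : max ((k - l) + (l - k)) 1 = l - k := by omega
      rw [e]
      ring
    · rw [if_neg (by omega), if_neg (by omega), if_pos h]
      have e : max ((k - l) + (l - k)) 1 = 1 := by omega
      rw [e]
      ring
    · rw [if_pos h, if_neg (by omega), if_neg (by omega)]
      have e : max ((k - l) + (l - k)) 1 = k - l := by omega
      rw [e]
      ring
  have hD : ∑ k ∈ Icc 1 M, ∑ l ∈ Icc 1 M, G ((k - l) + (l - k) + 1) k l =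
      ∑ k ∈ Icc 1 M, ∑ l ∈ Icc 1 M, ((if l ≤ k then G (k - l + 1) k l else 0) +
        (if k ≤ l then G (l - k + 1) k l else 0) - (if k = l then G 1 k l else 0)) := by
    apply sum_congr rfl
    intro k _
    apply sum_congr rfl
    intro l _
    rcases lt_trichotomy k l with h | h | h
    · rw [if_neg (by omega), if_pos h.le, if_neg (by omega)]
      have e : (k - l) + (l - k) + 1 = l - k + 1 := by omega
      rw [e]
      ring
    · rw [if_pos h.ge, if_pos h.le, if_pos h]
      have e : (k - l) + (l - k) + 1 = 1 := by omega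
      have e2 : k - l + 1 = 1 := by omega
      have e3 : l - k + 1 = 1 := by omega
      rw [e, e2, e3]
      ring
    · rw [if_pos h.le, if_neg (by omega), if_neg (by omega)]
      have e : (k - l) + (l - k) + 1 = k - l + 1 := by omega
      rw [e]
      ring
  simp only [sum_add_distrib, sum_sub_distrib] at hC hD ⊢
  rw [hC, hD, hA, hA', hB, hB']
  ring

theorem reindex : type_of% @reindex_pr := @reindex_pr

end Pool.Agent.KE
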