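import Pool.Agent.Lib_helper59.KE.Defs
import Mathlib
set_option autoImplicit false

namespace Pool.Agent.KE

open Finset

/-- shift of a sum, the summand vanishing above `M` -/
theorem kf_shift (M k : ℕ) (n : ℕ → ℕ) (hn : ∀ k, M < k → n k = 0) :
    ∑ l ∈ Icc 1 M, (n (k + l) : ℤ) = ∑ j ∈ Icc 1 M, if k < j then (n j : ℤ) else 0 := by
  rw [← Finset.sum_filter]
  have h1 : ∑ l ∈ Icc 1 M, (n (k + l) : ℤ)
      = ∑ l ∈ (Icc 1 M).filter (fun l => k + l ≤ M), (n (k + l) : ℤ) := by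
    symm
    apply Finset.sum_subset (Finset.filter_subset _ _)
    intro l hl hl'
    simp only [Finset.mem_filter, not_and, not_le] at hl'
    rw [hn _ (hl' hl)]
    simp
  rw [h1]
  apply Finset.sum_nbij' (fun l => k + l) (fun j => j - k)
  · intro l hl
    simp only [Finset.mem_filter, Finset.mem_Icc] at hl ⊢
    omega
  · intro l hl
    simp only [Finset.mem_filter, Finset.mem_Icc] at hl ⊢
    omega
  · intro l hl
    simp
  · intro j hj
    simp only [Finset.mem_filter, Finset.mem_Icc] at hj ⊢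
    omega
  · intro l hl
    rfl

/-- one half of the identity -/
theorem kf_half (M : ℕ) (n : ℕ → ℕ) (hn : ∀ k, M < k → n k = 0) :
    ∑ k ∈ Icc 1 M, ∑ l ∈ Icc 1 M, ((n (k + l - 1) : ℤ) + n (k + l)) * (n k : ℤ)
      = (∑ k ∈ Icc 1 M, (n k : ℤ)) ^ 2 := by
  have h1 : ∀ k ∈ Icc 1 M, ∑ l ∈ Icc 1 M, ((n (k + l - 1) : ℤ) + n (k + l)) * (n k : ℤ)
      = ∑ j ∈ Icc 1 M, ((if k ≤ j then (n k : ℤ) * n j else 0)
          + (if k < j then (n k : ℤ) * n j else 0)) := by
    intro k hk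
    have hk1 : 1 ≤ k := (Finset.mem_Icc.mp hk).1
    rw [← Finset.sum_mul, Finset.sum_add_distrib]
    have h2 : ∑ l ∈ Icc 1 M, (n (k + l - 1) : ℤ)
        = ∑ j ∈ Icc 1 M, if k - 1 < j then (n j : ℤ) else 0 := by
      rw [← kf_shift M (k - 1) n hn]
      apply Finset.sum_congr rfl
      intro l _
      have : k + l - 1 = k - 1 + l := by omega
      rw [this]
    rw [h2, kf_shift M k n hn, ← Finset.sum_add_distrib, Finset.sum_mul]
    apply Finset.sum_congr rfl
    intro j _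
    have h3 : (k - 1 < j) ↔ k ≤ j := by omega
    simp only [h3]
    split_ifs <;> ring
  rw [Finset.sum_congr rfl h1]
  simp only [Finset.sum_add_distrib]
  have h4 : ∑ k ∈ Icc 1 M, ∑ j ∈ Icc 1 M, (if k < j then (n k : ℤ) * n j else 0)
      = ∑ k ∈ Icc 1 M, ∑ j ∈ Icc 1 M, (if j < k then (n k : ℤ) * n j else 0) := by
    rw [Finset.sum_comm]
    apply Finset.sum_congr rfl
    intro k _
    apply Finset.sum_congr rfl
    intro j _
    split_ifs
    · ring
    · rfl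
  rw [h4, ← Finset.sum_add_distrib, sq, Finset.sum_mul_sum]
  apply Finset.sum_congr rfl
  intro k _
  rw [← Finset.sum_add_distrib]
  apply Finset.sum_congr rfl
  intro j _
  by_cases h : k ≤ j
  · have h' : ¬ j < k := by omega
    rw [if_pos h, if_neg h', add_zero]
  · have h' : j < k := by omega
    rw [if_neg h, if_pos h', zero_add]

/-- KF -/
theorem sq_identity_pr (M : ℕ) (n : ℕ → ℕ) (hn : ∀ k, M < k → n k = 0) :
    ∑ k ∈ Icc 1 M, ∑ l ∈ Icc 1 M,
        (((n (k + l - 1) : ℤ) + n (k + l)) * ((n k : ℤ) + n l))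
      = 2 * (∑ k ∈ Icc 1 M, (n k : ℤ)) ^ 2 := by
  have h1 : ∑ k ∈ Icc 1 M, ∑ l ∈ Icc 1 M,
        (((n (k + l - 1) : ℤ) + n (k + l)) * ((n k : ℤ) + n l))
      = ∑ k ∈ Icc 1 M, ∑ l ∈ Icc 1 M, ((n (k + l - 1) : ℤ) + n (k + l)) * (n k : ℤ)
        + ∑ k ∈ Icc 1 M, ∑ l ∈ Icc 1 M, ((n (k + l - 1) : ℤ) + n (k + l)) * (n l : ℤ) := by
    rw [← Finset.sum_add_distrib]
    apply Finset.sum_congr rfl
    intro k _
    rw [← Finset.sum_add_distrib]
    apply Finset.sum_congr rfl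
    intro l _
    ring
  have h2 : ∑ k ∈ Icc 1 M, ∑ l ∈ Icc 1 M, ((n (k + l - 1) : ℤ) + n (k + l)) * (n l : ℤ)
      = ∑ k ∈ Icc 1 M, ∑ l ∈ Icc 1 M, ((n (k + l - 1) : ℤ) + n (k + l)) * (n k : ℤ) := by
    rw [Finset.sum_comm]
    apply Finset.sum_congr rfl
    intro k _
    apply Finset.sum_congr rfl
    intro l _
    have : l + k = k + l := by omega
    rw [this]
  rw [h1, h2, kf_half M n hn]
  ring

theorem sq_identity : type_of% @sq_identity_pr := @sq_identity_pr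

end Pool.Agent.KE
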