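import Pool.Agent.Lib_helper59.KE.Defs
import Pool.Agent.Lib_helper59.KEF.KB
import Pool.Agent.Lib_helper59.KEF.KC
import Pool.Agent.Lib_helper59.KEF.KD
import Pool.Agent.Lib_helper59.KEF.KE
import Pool.Agent.Lib_helper59.KEF.KF
import Pool.Agent.Lib_helper59.KEF.KH
import Mathlib
set_option autoImplicit false

namespace Pool.Agent.KE

open Finset

theorem ki_nz (J : ℕ) (f : ℤ → ℕ) (k l r : ℕ) :
    4 * NZ (SS J f k) (SS J f l) (SS J f r) ≤ g4 (nn J f r) (nn J f k) (nn J f l) := by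
  have h := nz_le (SS J f k) (SS J f l) (SS J f r)
  have h1 := (g4_comm (nn J f k) (nn J f l) (nn J f r)).2.2
  have h2 := (g4_comm (nn J f r) (nn J f l) (nn J f k)).2.1
  calc 4 * NZ (SS J f k) (SS J f l) (SS J f r)
      ≤ g4 (nn J f k) (nn J f l) (nn J f r) := h
    _ = g4 (nn J f r) (nn J f l) (nn J f k) := h1
    _ = g4 (nn J f r) (nn J f k) (nn J f l) := h2

/-- KI (uses KB, KC, KD, KE, KF) -/
theorem basic_pr (J M : ℕ) (f : ℤ → ℕ) (hf : ∀ i, (J : ℤ) < |i| → f i = 0) (hM : ∀ i, f i ≤ M)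
    (b : ℤ) (hb : b = ∑ i ∈ Icc (-(J : ℤ)) J, (f i : ℤ)) :
    3 * ∑ k ∈ Icc 1 M, ∑ l ∈ Icc 1 M,
        ((4 * (nn J f (k + l - 1) : ℤ) * ((nn J f k : ℤ) + nn J f l)
            - 2 * g4 (nn J f (k + l - 1)) (nn J f k) (nn J f l))
          + (4 * (nn J f (k + l) : ℤ) * ((nn J f k : ℤ) + nn J f l)
            - 2 * g4 (nn J f (k + l)) (nn J f k) (nn J f l)))
      ≤ 8 * (3 * b ^ 2
        - ∑ i ∈ Icc (-(J : ℤ)) J, ∑ j ∈ Icc (-(J : ℤ)) J, Qp (f i) (f j) (f (i + j))) := by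
  obtain ⟨-, -, hz, hs⟩ := nn_facts J M f hM
  have hsum : (∑ k ∈ Icc 1 M, (nn J f k : ℤ)) = b := by
    rw [hb]
    exact_mod_cast hs
  have h1 := sum_qp_eq J M f hf hM
  have h2 := reindex M (fun r k l => g4 (nn J f r) (nn J f k) (nn J f l))
    (fun r k l => (g4_comm _ _ _).1) (fun r k l => (g4_comm _ _ _).2.1)
    (fun r k l hr => by
      show g4 ((nn J f r : ℕ) : ℤ) _ _ = 0
      rw [hz r hr, Nat.cast_zero]
      exact g4_zero _ _)
  have h3 := sq_identity M (nn J f) hz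
  rw [hsum] at h3
  have h4 : 4 * ∑ i ∈ Icc (-(J : ℤ)) J, ∑ j ∈ Icc (-(J : ℤ)) J, Qp (f i) (f j) (f (i + j)) ≤
      3 * ∑ k ∈ Icc 1 M, ∑ l ∈ Icc 1 M, (g4 (nn J f (k + l - 1)) (nn J f k) (nn J f l) +
        g4 (nn J f (k + l)) (nn J f k) (nn J f l)) := by
    rw [h1, ← h2, mul_sum]
    refine sum_le_sum fun k _ => ?_
    rw [mul_sum]
    refine sum_le_sum fun l _ => ?_
    have e1 := ki_nz J f k l (k + l - 1)
    have e2 := ki_nz J f k l (k + l)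
    have e3 := ki_nz J f k l (max ((k - l) + (l - k)) 1)
    have e4 := ki_nz J f k l ((k - l) + (l - k) + 1)
    linarith
  have h5 : ∑ k ∈ Icc 1 M, ∑ l ∈ Icc 1 M,
        ((4 * (nn J f (k + l - 1) : ℤ) * ((nn J f k : ℤ) + nn J f l)
            - 2 * g4 (nn J f (k + l - 1)) (nn J f k) (nn J f l))
          + (4 * (nn J f (k + l) : ℤ) * ((nn J f k : ℤ) + nn J f l)
            - 2 * g4 (nn J f (k + l)) (nn J f k) (nn J f l))) =
      4 * ∑ k ∈ Icc 1 M, ∑ l ∈ Icc 1 M,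
        (((nn J f (k + l - 1) : ℤ) + nn J f (k + l)) * ((nn J f k : ℤ) + nn J f l)) -
      2 * ∑ k ∈ Icc 1 M, ∑ l ∈ Icc 1 M, (g4 (nn J f (k + l - 1)) (nn J f k) (nn J f l) +
        g4 (nn J f (k + l)) (nn J f k) (nn J f l)) := by
    rw [mul_sum, mul_sum, ← sum_sub_distrib]
    refine sum_congr rfl fun k _ => ?_
    rw [mul_sum, mul_sum, ← sum_sub_distrib]
    refine sum_congr rfl fun l _ => ?_
    ring
  rw [h5, h3]
  linarith

theorem basic : type_of% @basic_pr := @basic_pr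

end Pool.Agent.KE
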