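import Pool.Agent.Lib_helper59.KE.Defs
import Pool.Agent.Lib_helper59.KEF.KC
import Pool.Agent.Lib_helper59.KEF.KG1
import Pool.Agent.Lib_helper59.KEF.KG2
import Pool.Agent.Lib_helper59.KEF.KH
import Pool.Agent.Lib_helper59.KEF.KI
import Mathlib
/-!
# KE, block KJ: the three bounds
-/

set_option autoImplicit false

namespace Pool.Agent.KE

open Finset

theorem kj_min (v : ℕ → ℕ) (hv : ∀ i j, i ≤ j → v j ≤ v i) (N : ℕ) :
    ∑ i ∈ Icc 1 N, ∑ j ∈ Icc 1 N, (min (v i : ℤ) (v j)) ^ 2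
      = ∑ j ∈ Icc 1 N, (2 * (j : ℤ) - 1) * (v j : ℤ) ^ 2 := by
  induction N with
  | zero => simp
  | succ N ih =>
    have h1 : ∀ F : ℕ → ℤ, ∑ i ∈ Icc 1 (N + 1), F i = ∑ i ∈ Icc 1 N, F i + F (N + 1) := fun F =>
      Finset.sum_Icc_succ_top (by omega) F
    rw [h1, h1, h1]
    have h2 : ∀ i ∈ Icc 1 N, ∑ j ∈ Icc 1 (N + 1), (min (v i : ℤ) (v j)) ^ 2 =
        ∑ j ∈ Icc 1 N, (min (v i : ℤ) (v j)) ^ 2 + (v (N + 1) : ℤ) ^ 2 := by
      intro i hi
      rw [Finset.mem_Icc] at hi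
      rw [h1, min_eq_right (by exact_mod_cast hv i (N + 1) (by omega))]
    have h3 : ∀ j ∈ Icc 1 N, (min (v (N + 1) : ℤ) (v j)) ^ 2 = (v (N + 1) : ℤ) ^ 2 := by
      intro j hj
      rw [Finset.mem_Icc] at hj
      rw [min_eq_left (by exact_mod_cast hv j (N + 1) (by omega))]
    rw [Finset.sum_congr rfl h2, Finset.sum_add_distrib, ih, Finset.sum_congr rfl h3,
      Finset.sum_const, Nat.card_Icc, min_self]
    simp only [nsmul_eq_mul, Nat.add_sub_cancel]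
    push_cast
    ring

theorem kj_ext (M : ℕ) (n : ℕ → ℕ) (g : ℕ → ℕ → ℕ → ℤ) (a β : ℕ → ℤ)
    (hanti : ∀ k l, 1 ≤ k → k ≤ l → n l ≤ n k)
    (h : ∀ e x y : ℕ, e ≤ x → e ≤ y → (∃ k, e = n k) → (∃ k, x = n k) → (∃ k, y = n k) →
      a e + β e * |(x : ℤ) - y| ≤ g e x y) :
    ∑ k ∈ Icc 1 M, ∑ l ∈ Icc 1 M, (a (n (k + l - 1)) + a (n (k + l)))
      + ∑ k ∈ Icc 1 M, ∑ l ∈ Icc 1 M, (β (n (k + l - 1)) + β (n (k + l))) * |(n k : ℤ) - n l|
      ≤ ∑ k ∈ Icc 1 M, ∑ l ∈ Icc 1 M, (g (n (k + l - 1)) (n k) (n l) + g (n (k + l)) (n k) (n l)) := by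
  rw [← Finset.sum_add_distrib]
  refine Finset.sum_le_sum fun k hk => ?_
  rw [← Finset.sum_add_distrib]
  refine Finset.sum_le_sum fun l hl => ?_
  rw [Finset.mem_Icc] at hk hl
  have h1 := h (n (k + l - 1)) (n k) (n l) (hanti _ _ hk.1 (by omega)) (hanti _ _ hl.1 (by omega))
    ⟨_, rfl⟩ ⟨_, rfl⟩ ⟨_, rfl⟩
  have h2 := h (n (k + l)) (n k) (n l) (hanti _ _ hk.1 (by omega)) (hanti _ _ hl.1 (by omega))
    ⟨_, rfl⟩ ⟨_, rfl⟩ ⟨_, rfl⟩
  linarith [add_mul (β (n (k + l - 1))) (β (n (k + l))) (|(n k : ℤ) - n l|)]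

/-- the combination of `basic` with two evaluation lemmas -/
theorem kj_comb (J M : ℕ) (f : ℤ → ℕ) (hf : ∀ i, (J : ℤ) < |i| → f i = 0)
    (hM : ∀ i, f i ≤ M)
    (b E : ℤ) (hb : b = ∑ i ∈ Icc (-(J : ℤ)) J, (f i : ℤ))
    (hE : E = 3 * b ^ 2
        - ∑ i ∈ Icc (-(J : ℤ)) J, ∑ j ∈ Icc (-(J : ℤ)) J, Qp (f i) (f j) (f (i + j)))
    (c : ℤ) (a β : ℕ → ℤ) (ha : a 0 = 0) (hβ : β 0 = 0)
    (h : ∀ e x y : ℕ, e ≤ x → e ≤ y → x ≤ 2 * J + 1 → y ≤ 2 * J + 1 →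
      a e + β e * |(x : ℤ) - y| ≤ c * (4 * e * ((x : ℤ) + y) - 2 * g4 e x y)) (hc : 0 ≤ c) :
    3 * (∑ j ∈ Icc 1 (2 * J + 1), (a j - a (j - 1)) * (cj M (nn J f) j : ℤ) ^ 2
      + 2 * ∑ j ∈ Icc 1 (2 * J + 1), (β j - β (j - 1)) *
          ∑ i ∈ Icc 1 (2 * J + 1), HH (cj M (nn J f) j) (cj M (nn J f) i)) ≤ c * (8 * E) := by
  obtain ⟨hn1, hn2, hn3, -⟩ := nn_facts J M f hM
  have hanti : ∀ k l, 1 ≤ k → k ≤ l → nn J f l ≤ nn J f k := fun k l _ h => hn1 k l h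
  have hbas := basic J M f hf hM b hb
  rw [← hE] at hbas
  rw [← eval_a M (2 * J + 1) (nn J f) hn3 hanti hn2 a ha,
    ← eval_b M (2 * J + 1) (nn J f) hn3 hanti hn2 β hβ]
  have h1 := kj_ext M (nn J f) (fun e x y => c * (4 * e * ((x : ℤ) + y) - 2 * g4 e x y)) a β hanti
    (by
      rintro e x y h1 h2 - ⟨k, hk⟩ ⟨l, hl⟩
      exact h e x y h1 h2 (hk ▸ hn2 k) (hl ▸ hn2 l))
  have h2 : ∑ k ∈ Icc 1 M, ∑ l ∈ Icc 1 M,
      ((fun (e x y : ℕ) => c * (4 * (e : ℤ) * ((x : ℤ) + y) - 2 * g4 e x y)) (nn J f (k + l - 1))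
        (nn J f k) (nn J f l) +
       (fun (e x y : ℕ) => c * (4 * (e : ℤ) * ((x : ℤ) + y) - 2 * g4 e x y)) (nn J f (k + l))
        (nn J f k) (nn J f l)) = c * ∑ k ∈ Icc 1 M, ∑ l ∈ Icc 1 M,
        ((4 * (nn J f (k + l - 1) : ℤ) * ((nn J f k : ℤ) + nn J f l)
            - 2 * g4 (nn J f (k + l - 1)) (nn J f k) (nn J f l))
          + (4 * (nn J f (k + l) : ℤ) * ((nn J f k : ℤ) + nn J f l)
            - 2 * g4 (nn J f (k + l)) (nn J f k) (nn J f l))) := by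
    rw [Finset.mul_sum]
    refine Finset.sum_congr rfl fun k _ => ?_
    rw [Finset.mul_sum]
    refine Finset.sum_congr rfl fun l _ => ?_
    ring
  rw [h2] at h1
  have h3 := mul_le_mul_of_nonneg_left hbas hc
  linarith

theorem kj_HH_zero (x y : ℤ) (h : x ≤ y) : HH x y = 0 := by
  unfold HH
  rw [if_pos h]

/-- KJ (uses KC, KG, KH, KI) -/
theorem three_bounds_pr (J M : ℕ) (f : ℤ → ℕ) (hf : ∀ i, (J : ℤ) < |i| → f i = 0)
    (hM : ∀ i, f i ≤ M) (hM2 : ∃ i, f i = M) (hM1 : 1 ≤ M)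
    (b E : ℤ) (hb : b = ∑ i ∈ Icc (-(J : ℤ)) J, (f i : ℤ))
    (hE : E = 3 * b ^ 2
        - ∑ i ∈ Icc (-(J : ℤ)) J, ∑ j ∈ Icc (-(J : ℤ)) J, Qp (f i) (f j) (f (i + j))) :
    ∃ v : ℕ → ℕ, (∀ i j, i ≤ j → v j ≤ v i) ∧ v 1 = M ∧ (∀ j, 2 * J + 1 < j → v j = 0) ∧
      (∑ j ∈ Icc 1 (2 * J + 1), (v j : ℤ)) = b ∧
      45 * (∑ i ∈ Icc 1 (2 * J + 1), ∑ j ∈ Icc 1 (2 * J + 1), (min (v i : ℤ) (v j)) ^ 2)
        + 48 * (∑ i ∈ Icc 1 (2 * J + 1), ∑ j ∈ Icc 1 (2 * J + 1), HH (v i) (v j))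
        - 48 * (v 1 : ℤ) ^ 2 ≤ 64 * E ∧
      3 * (∑ j ∈ Icc 1 (2 * J + 1), dB j * (v j : ℤ) ^ 2)
        + 24 * (∑ i ∈ Icc 1 (2 * J + 1), HH (v 1) (v i)) ≤ 8 * E ∧
      (J = 1 → 3 * ((v 2 : ℤ) ^ 2 + (v 3 : ℤ) ^ 2)
        + 3 * (HH (v 1) (v 2) + HH (v 1) (v 3) - HH (v 2) (v 3)) ≤ E) := by
  obtain ⟨hn1, hn2, hn3, hn4⟩ := nn_facts J M f hM
  have hanti : ∀ k l, 1 ≤ k → k ≤ l → nn J f l ≤ nn J f k := fun k l _ h => hn1 k l h
  obtain ⟨hc1, hc2, hc3, hc4, hc5⟩ := cj_facts M (2 * J + 1) (nn J f) hanti hn2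
  have hnM : 1 ≤ nn J f M := by
    obtain ⟨i, hi⟩ := hM2
    have h1 : |i| ≤ (J : ℤ) := by
      by_contra h
      have := hf i (not_le.1 h)
      omega
    unfold nn
    rw [Nat.one_le_iff_ne_zero, Finset.card_ne_zero]
    refine ⟨i, ?_⟩
    unfold SS
    rw [Finset.mem_filter, Finset.mem_Icc]
    exact ⟨abs_le.1 h1, hi.ge⟩
  refine ⟨cj M (nn J f), hc1, hc5 hM1 hnM, hc2, ?_, ?_, ?_, ?_⟩
  · have h1 : ((∑ j ∈ Icc 1 (2 * J + 1), cj M (nn J f) j : ℕ) : ℤ) = b := by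
      rw [hc3, hn4, hb]
      push_cast
      rfl
    rw [← h1]
    push_cast
    rfl
  · have h1 := kj_comb J M f hf hM b E hb hE 8 (fun e => 15 * (e : ℤ) ^ 2 - 16 * (if 1 ≤ e then 1 else 0))
      (fun e => 8 * (e : ℤ)) (by simp) (by simp)
      (by
        intro e x y h1 h2 _ _
        have := line_a e x y h1 h2
        linarith) (by norm_num)
    have h2 : ∑ j ∈ Icc 1 (2 * J + 1), ((fun e : ℕ => 15 * (e : ℤ) ^ 2 - 16 * (if 1 ≤ e then (1 : ℤ) else 0)) j -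
          (fun e : ℕ => 15 * (e : ℤ) ^ 2 - 16 * (if 1 ≤ e then (1 : ℤ) else 0)) (j - 1)) *
          (cj M (nn J f) j : ℤ) ^ 2 =
        15 * ∑ j ∈ Icc 1 (2 * J + 1), (2 * (j : ℤ) - 1) * (cj M (nn J f) j : ℤ) ^ 2
          - ∑ j ∈ Icc 1 (2 * J + 1), (if j = 1 then 16 * (cj M (nn J f) j : ℤ) ^ 2 else 0) := by
      rw [Finset.mul_sum, ← Finset.sum_sub_distrib]
      refine Finset.sum_congr rfl fun j hj => ?_
      rw [Finset.mem_Icc] at hj
      rcases Nat.lt_or_ge 1 j with h3 | h3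
      · have h4 : 1 ≤ j - 1 := by omega
        have h5 : ((j - 1 : ℕ) : ℤ) = (j : ℤ) - 1 := by push_cast [Nat.cast_sub hj.1]; rfl
        simp only [if_pos hj.1, if_pos h4, if_neg (show ¬ j = 1 by omega), h5]
        ring
      · have h4 : j = 1 := by omega
        subst h4
        simp
        ring
    have h3 : ∑ j ∈ Icc 1 (2 * J + 1), ((fun e : ℕ => 8 * (e : ℤ)) j -
          (fun e : ℕ => 8 * (e : ℤ)) (j - 1)) *
          ∑ i ∈ Icc 1 (2 * J + 1), HH (cj M (nn J f) j) (cj M (nn J f) i) =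
        8 * ∑ j ∈ Icc 1 (2 * J + 1), ∑ i ∈ Icc 1 (2 * J + 1),
          HH (cj M (nn J f) j) (cj M (nn J f) i) := by
      rw [Finset.mul_sum]
      refine Finset.sum_congr rfl fun j hj => ?_
      rw [Finset.mem_Icc] at hj
      have h5 : ((j - 1 : ℕ) : ℤ) = (j : ℤ) - 1 := by push_cast [Nat.cast_sub hj.1]; rfl
      simp only [h5]
      ring
    rw [h2, h3, Finset.sum_ite_eq' (Icc 1 (2 * J + 1)) 1, if_pos (by
      rw [Finset.mem_Icc]; omega), ← kj_min _ hc1] at h1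
    linarith
  · have h1 := kj_comb J M f hf hM b E hb hE 1
      (fun e => if e = 0 then 0 else 2 * ((e : ℤ) ^ 2 - 1) - 2 * (if e % 2 = 0 then 1 else 0))
      (fun e => if e = 0 then 0 else 4) (by simp) (by simp)
      (by
        intro e x y h1 h2 _ _
        rcases Nat.eq_zero_or_pos e with h3 | h3
        · subst h3
          have := g4_zero x y
          simp only [if_true, Nat.cast_zero]
          rw [this]
          simp
        · have := line_b e x y h1 h2 h3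
          simp only [if_neg h3.ne']
          linarith) (by norm_num)
    have h2 : ∀ j ∈ Icc 1 (2 * J + 1), ((fun e : ℕ => if e = 0 then (0 : ℤ) else
          2 * ((e : ℤ) ^ 2 - 1) - 2 * (if e % 2 = 0 then 1 else 0)) j -
          (fun e : ℕ => if e = 0 then (0 : ℤ) else
          2 * ((e : ℤ) ^ 2 - 1) - 2 * (if e % 2 = 0 then 1 else 0)) (j - 1)) *
          (cj M (nn J f) j : ℤ) ^ 2 = dB j * (cj M (nn J f) j : ℤ) ^ 2 := by
      intro j hj
      rw [Finset.mem_Icc] at hj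
      congr 1
      unfold dB
      rcases Nat.lt_or_ge 1 j with h3 | h3
      · obtain ⟨t, ht⟩ : ∃ t, j = 2 * t ∨ j = 2 * t + 1 := ⟨j / 2, by omega⟩
        rcases ht with ht | ht
        · have h6 : (j - 1) / 2 = t - 1 := by omega
          have h7 : j % 2 = 0 := by omega
          have h8 : ¬ (j - 1) % 2 = 0 := by omega
          have h5 : ((j - 1 : ℕ) : ℤ) = (j : ℤ) - 1 := by push_cast [Nat.cast_sub hj.1]; rfl
          have h9 : ((t - 1 : ℕ) : ℤ) = (t : ℤ) - 1 := by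
            push_cast [Nat.cast_sub (show 1 ≤ t by omega)]; rfl
          simp only [if_neg (show ¬ j = 0 by omega), if_neg (show ¬ j - 1 = 0 by omega),
            if_pos h7, if_neg h8, if_neg (show ¬ j ≤ 1 by omega), h5, h6, h9]
          rw [ht]
          push_cast
          ring
        · have h6 : (j - 1) / 2 = t := by omega
          have h7 : ¬ j % 2 = 0 := by omega
          have h8 : (j - 1) % 2 = 0 := by omega
          have h5 : ((j - 1 : ℕ) : ℤ) = (j : ℤ) - 1 := by push_cast [Nat.cast_sub hj.1]; rfl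
          simp only [if_neg (show ¬ j = 0 by omega), if_neg (show ¬ j - 1 = 0 by omega),
            if_neg h7, if_pos h8, if_neg (show ¬ j ≤ 1 by omega), h5, h6]
          rw [ht]
          push_cast
          ring
      · have h4 : j = 1 := by omega
        subst h4
        simp
    have h3 : ∀ j ∈ Icc 1 (2 * J + 1), ((fun e : ℕ => if e = 0 then (0 : ℤ) else 4) j -
          (fun e : ℕ => if e = 0 then (0 : ℤ) else 4) (j - 1)) *
          ∑ i ∈ Icc 1 (2 * J + 1), HH (cj M (nn J f) j) (cj M (nn J f) i) =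
        if j = 1 then 4 * ∑ i ∈ Icc 1 (2 * J + 1),
          HH (cj M (nn J f) j) (cj M (nn J f) i) else 0 := by
      intro j hj
      rw [Finset.mem_Icc] at hj
      rcases Nat.lt_or_ge 1 j with h3 | h3
      · simp only [if_neg (show ¬ j = 0 by omega), if_neg (show ¬ j - 1 = 0 by omega),
          if_neg (show ¬ j = 1 by omega)]
        ring
      · have h4 : j = 1 := by omega
        subst h4
        simp
    rw [Finset.sum_congr rfl h2, Finset.sum_congr rfl h3, Finset.sum_ite_eq' (Icc 1 (2 * J + 1)) 1,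
      if_pos (by rw [Finset.mem_Icc]; omega)] at h1
    linarith
  · intro hJ
    subst hJ
    have h1 := kj_comb 1 M f hf hM b E hb hE 1
      (fun e => if e = 2 then 8 else if e = 3 then 16 else 0)
      (fun e => if e = 1 ∨ e = 3 then 4 else 0) (by simp) (by simp)
      (by
        intro e x y h1 h2 h3 h4
        have := line_c e x y h1 h2 (by omega) (by omega)
        linarith) (by norm_num)
    have h2 : ∀ F : ℕ → ℤ, ∑ j ∈ Icc 1 (2 * 1 + 1), F j = F 1 + F 2 + F 3 := by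
      intro F
      have : Icc 1 (2 * 1 + 1) = ({1, 2, 3} : Finset ℕ) := by decide
      rw [this, Finset.sum_insert (by decide), Finset.sum_insert (by decide), Finset.sum_singleton]
      ring
    simp only [h2] at h1
    norm_num at h1
    have e1 := kj_HH_zero (cj M (nn 1 f) 1) (cj M (nn 1 f) 1) le_rfl
    have e2 := kj_HH_zero (cj M (nn 1 f) 2) (cj M (nn 1 f) 2) le_rfl
    have e3 := kj_HH_zero (cj M (nn 1 f) 3) (cj M (nn 1 f) 3) le_rfl
    have e4 := kj_HH_zero (cj M (nn 1 f) 2) (cj M (nn 1 f) 1) (by exact_mod_cast hc1 1 2 (by omega))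
    have e5 := kj_HH_zero (cj M (nn 1 f) 3) (cj M (nn 1 f) 1) (by exact_mod_cast hc1 1 3 (by omega))
    have e6 := kj_HH_zero (cj M (nn 1 f) 3) (cj M (nn 1 f) 2) (by exact_mod_cast hc1 2 3 (by omega))
    rw [e1, e2, e3, e4, e5, e6] at h1
    linarith

theorem three_bounds : type_of% @three_bounds_pr := @three_bounds_pr

end Pool.Agent.KE
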