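import Pool.Agent.Lib_helper59.KE.Defs
import Mathlib
/-!
# Block KK: numbers for the first bound
-/

set_option autoImplicit false

namespace Pool.Agent.KE

open Finset

/-- a pair of levels -/
theorem kk_pair (x y : ℝ) (hx : 0 ≤ x) (hy : 0 ≤ y) :
    1.04 * (x * y) ≤ (45 / 64 * (min x y) ^ 2 + 3 / 4 * HR x y) +
      (45 / 64 * (min y x) ^ 2 + 3 / 4 * HR y x) := by
  have key : ∀ x y : ℝ, 0 ≤ x → 0 ≤ y → y ≤ x →
      1.04 * (x * y) ≤ (45 / 64 * (min x y) ^ 2 + 3 / 4 * HR x y) +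
      (45 / 64 * (min y x) ^ 2 + 3 / 4 * HR y x) := by
    intro x y hx hy h
    rw [min_eq_right h, min_eq_left h]
    have h0 : HR y x = 0 := by unfold HR; rw [if_pos h]
    rw [h0]
    by_cases h1 : x ≤ y
    · have : x = y := le_antisymm h1 h
      subst this
      have : HR x x = 0 := by unfold HR; rw [if_pos le_rfl]
      rw [this]
      nlinarith [sq_nonneg x]
    · by_cases h2 : x ≤ 2 * y
      · have : HR x y = (x - y) ^ 2 := by unfold HR; rw [if_neg h1, if_pos h2]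
        rw [this]
        nlinarith [sq_nonneg (x - 127 / 75 * y), sq_nonneg y]
      · have : HR x y = 2 * x * y - 3 * y ^ 2 := by unfold HR; rw [if_neg h1, if_neg h2]
        rw [this]
        push Not at h2
        nlinarith [mul_nonneg hy (sub_nonneg.2 h2.le), sq_nonneg y]
  rcases le_total y x with h | h
  · exact key x y hx hy h
  · have := key y x hy hx h
    linarith

/-- a level against the largest one -/
theorem kk_psi (X x : ℝ) (hx : 0 ≤ x) (h : x ≤ X) :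
    1.148 * (X * x) ≤ 45 / 32 * x ^ 2 + 3 / 4 * HR X x + 0.183125 * x ^ 2 := by
  by_cases h1 : X ≤ x
  · have : X = x := le_antisymm h1 h
    subst this
    have : HR X X = 0 := by unfold HR; rw [if_pos le_rfl]
    rw [this]
    nlinarith [sq_nonneg X]
  · by_cases h2 : X ≤ 2 * x
    · have : HR X x = (X - x) ^ 2 := by unfold HR; rw [if_neg h1, if_pos h2]
      rw [this]
      nlinarith [sq_nonneg (X - 1324 / 750 * x), sq_nonneg x]
    · have : HR X x = 2 * X * x - 3 * x ^ 2 := by unfold HR; rw [if_neg h1, if_neg h2]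
      rw [this]
      push Not at h2
      nlinarith [mul_nonneg hx (sub_nonneg.2 h2.le), sq_nonneg x]

/-- the double sum of the pair function -/
theorem kk_double (I : Finset ℕ) (v : ℕ → ℝ) (h0 : ∀ i, 0 ≤ v i) :
    0.52 * (∑ i ∈ I, v i) ^ 2 + 0.183125 * ∑ i ∈ I, v i ^ 2 ≤
      ∑ i ∈ I, ∑ j ∈ I, (45 / 64 * (min (v i) (v j)) ^ 2 + 3 / 4 * HR (v i) (v j)) := by
  set G : ℕ → ℕ → ℝ := fun i j => 45 / 64 * (min (v i) (v j)) ^ 2 + 3 / 4 * HR (v i) (v j) with hG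
  have hsym : ∑ i ∈ I, ∑ j ∈ I, G i j = ∑ i ∈ I, ∑ j ∈ I, G j i := Finset.sum_comm
  have h1 : ∑ i ∈ I, ∑ j ∈ I, (1.04 * (v i * v j) + if i = j then 0.36625 * v i ^ 2 else 0) ≤
      ∑ i ∈ I, ∑ j ∈ I, (G i j + G j i) := by
    refine Finset.sum_le_sum fun i _ => Finset.sum_le_sum fun j _ => ?_
    by_cases hij : i = j
    · subst hij
      rw [if_pos rfl]
      have : HR (v i) (v i) = 0 := by unfold HR; rw [if_pos le_rfl]
      simp only [hG, this, min_self]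
      nlinarith [sq_nonneg (v i)]
    · rw [if_neg hij, add_zero]
      exact kk_pair _ _ (h0 i) (h0 j)
  have h2 : ∑ i ∈ I, ∑ j ∈ I, (1.04 * (v i * v j) + if i = j then 0.36625 * v i ^ 2 else 0) =
      1.04 * (∑ i ∈ I, v i) ^ 2 + 0.36625 * ∑ i ∈ I, v i ^ 2 := by
    simp only [Finset.sum_add_distrib]
    congr 1
    · rw [pow_two, Finset.sum_mul_sum, Finset.mul_sum]
      refine Finset.sum_congr rfl fun i _ => ?_
      rw [Finset.mul_sum]
    · rw [Finset.mul_sum]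
      refine Finset.sum_congr rfl fun i hi => ?_
      rw [Finset.sum_ite_eq, if_pos hi]
  have h3 : ∑ i ∈ I, ∑ j ∈ I, (G i j + G j i) = 2 * ∑ i ∈ I, ∑ j ∈ I, G i j := by
    simp only [Finset.sum_add_distrib]
    rw [← hsym]
    ring
  rw [h2, h3] at h1
  show _ ≤ ∑ i ∈ I, ∑ j ∈ I, G i j
  linarith

/-- KK -/
theorem num_a_pr (N : ℕ) (v : ℕ → ℝ) (hv : ∀ i j, 1 ≤ i → i ≤ j → v j ≤ v i) (h0 : ∀ i, 0 ≤ v i)
    (b : ℝ) (hb : b = ∑ i ∈ Icc 1 N, v i) (hN : 1 ≤ N) (hM : 4.6 * v 1 ≤ b) :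
    0.5115 * b ^ 2 ≤
      45 / 64 * (∑ i ∈ Icc 1 N, ∑ j ∈ Icc 1 N, (min (v i) (v j)) ^ 2)
        + 3 / 4 * (∑ i ∈ Icc 1 N, ∑ j ∈ Icc 1 N, HR (v i) (v j)) - 3 / 4 * (v 1) ^ 2 := by
  have hI : Icc 1 N = insert 1 (Icc 2 N) := by
    ext x
    simp only [mem_Icc, mem_insert]
    omega
  have h1I : (1 : ℕ) ∉ Icc 2 N := by simp
  set G : ℕ → ℕ → ℝ := fun i j => 45 / 64 * (min (v i) (v j)) ^ 2 + 3 / 4 * HR (v i) (v j) with hG
  have e0 : 45 / 64 * (∑ i ∈ Icc 1 N, ∑ j ∈ Icc 1 N, (min (v i) (v j)) ^ 2)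
        + 3 / 4 * (∑ i ∈ Icc 1 N, ∑ j ∈ Icc 1 N, HR (v i) (v j)) =
      ∑ i ∈ Icc 1 N, ∑ j ∈ Icc 1 N, G i j := by
    simp only [hG, Finset.sum_add_distrib, Finset.mul_sum]
  set S : ℝ := ∑ i ∈ Icc 2 N, v i with hS
  have hbS : b = v 1 + S := by rw [hb, hI, Finset.sum_insert h1I]
  have e1 : ∑ i ∈ Icc 1 N, ∑ j ∈ Icc 1 N, G i j =
      G 1 1 + ∑ i ∈ Icc 2 N, (G 1 i + G i 1) + ∑ i ∈ Icc 2 N, ∑ j ∈ Icc 2 N, G i j := by
    rw [hI, Finset.sum_insert h1I, Finset.sum_insert h1I]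
    have : ∑ i ∈ Icc 2 N, ∑ j ∈ insert 1 (Icc 2 N), G i j =
        ∑ i ∈ Icc 2 N, G i 1 + ∑ i ∈ Icc 2 N, ∑ j ∈ Icc 2 N, G i j := by
      rw [← Finset.sum_add_distrib]
      exact Finset.sum_congr rfl fun i _ => Finset.sum_insert h1I
    have h5 : ∑ i ∈ Icc 2 N, (G 1 i + G i 1) = ∑ i ∈ Icc 2 N, G 1 i + ∑ i ∈ Icc 2 N, G i 1 :=
      Finset.sum_add_distrib
    rw [this, h5]
    ring
  have h11 : G 1 1 = 45 / 64 * v 1 ^ 2 := by
    have : HR (v 1) (v 1) = 0 := by unfold HR; rw [if_pos le_rfl]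
    simp only [hG, this, min_self]
    ring
  have h1i : ∀ i ∈ Icc 2 N, 1.148 * (v 1 * v i) ≤ (G 1 i + G i 1) + 0.183125 * v i ^ 2 := by
    intro i hi
    have hi' := mem_Icc.1 hi
    have hle : v i ≤ v 1 := hv 1 i le_rfl (by omega)
    have h2 := kk_psi (v 1) (v i) (h0 i) hle
    have h3 : HR (v i) (v 1) = 0 := by unfold HR; rw [if_pos hle]
    simp only [hG, h3, min_eq_right hle, min_eq_left hle]
    linarith
  have h1s : 1.148 * (v 1 * S) ≤ ∑ i ∈ Icc 2 N, (G 1 i + G i 1) +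
      0.183125 * ∑ i ∈ Icc 2 N, v i ^ 2 := by
    have h2 := Finset.sum_le_sum h1i
    rw [Finset.sum_add_distrib (f := fun i => G 1 i + G i 1), ← Finset.mul_sum,
      ← Finset.mul_sum, ← Finset.mul_sum] at h2
    exact h2
  have h2s := kk_double (Icc 2 N) v h0
  rw [e0, e1, h11]
  have hv1 := h0 1
  have hS0 : 3.6 * v 1 ≤ S := by linarith
  have h4 : 0.52 * S ^ 2 ≤ ∑ i ∈ Icc 2 N, ∑ j ∈ Icc 2 N, G i j -
      0.183125 * ∑ i ∈ Icc 2 N, v i ^ 2 := by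
    have : ∑ i ∈ Icc 2 N, ∑ j ∈ Icc 2 N, G i j = ∑ i ∈ Icc 2 N, ∑ j ∈ Icc 2 N,
      (45 / 64 * (min (v i) (v j)) ^ 2 + 3 / 4 * HR (v i) (v j)) := rfl
    rw [this]
    linarith
  rw [hbS]
  nlinarith [mul_nonneg hv1 (sub_nonneg.2 hS0), mul_nonneg (sub_nonneg.2 hS0) (sub_nonneg.2 hS0),
    sq_nonneg (v 1)]

theorem num_a : type_of% @num_a_pr := @num_a_pr

end Pool.Agent.KE
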