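import Pool.Agent.Lib_helper59.KE.Defs
import Mathlib
set_option autoImplicit false

namespace Pool.Agent.KE

open Finset

theorem kl_dB (i : ℕ) (hi : 2 ≤ i) : dB i = 8 * (((i - 1) / 2 : ℕ) : ℤ) + 4 := by
  unfold dB
  rw [if_neg (by omega)]

theorem kl_hr (c x y : ℝ) (hc : 0 < c) : HR (c * x) (c * y) = c ^ 2 * HR x y := by
  unfold HR
  have h1 : c * x ≤ c * y ↔ x ≤ y := by
    constructor
    · intro h; exact le_of_mul_le_mul_left h hc
    · intro h; exact mul_le_mul_of_nonneg_left h hc.le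
  have h2 : c * x ≤ 2 * (c * y) ↔ x ≤ 2 * y := by
    rw [show 2 * (c * y) = c * (2 * y) by ring]
    constructor
    · intro h; exact le_of_mul_le_mul_left h hc
    · intro h; exact mul_le_mul_of_nonneg_left h hc.le
  by_cases c1 : x ≤ y
  · rw [if_pos (h1.2 c1), if_pos c1]; ring
  · rw [if_neg (fun h => c1 (h1.1 h)), if_neg c1]
    by_cases c2 : x ≤ 2 * y
    · rw [if_pos (h2.2 c2), if_pos c2]; ring
    · rw [if_neg (fun h => c2 (h2.1 h)), if_neg c2]; ring

theorem kl_hr1 (x : ℝ) (h : x ≤ 1 / 2) : HR 1 x = 2 * x - 3 * x ^ 2 := by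
  unfold HR
  rw [if_neg (by linarith)]
  split_ifs with h2
  · have : x = 1 / 2 := by linarith
    rw [this]; norm_num
  · ring

theorem kl_hr2 (x : ℝ) (h : 1 / 2 ≤ x) (h1 : x ≤ 1) : HR 1 x = (1 - x) ^ 2 := by
  unfold HR
  split_ifs with h2 h3
  · have : x = 1 := le_antisymm h1 h2
    rw [this]; norm_num
  · rfl
  · exact absurd (by linarith) h3

/-- term of the index `i` -/
noncomputable def kl_psi (i : ℕ) (x : ℝ) : ℝ := 3 / 8 * (dB i : ℝ) * x ^ 2 + 3 * HR 1 x

theorem kl_lb (A s m : ℝ) (i : ℕ) (x : ℝ) (h0 : 0 ≤ x) (hx : x ≤ 1) (hA : A ≤ 3 / 8 * (dB i : ℝ))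
    (h1 : x ≤ 1 / 2 → s * x + m ≤ (A - 9) * x ^ 2 + 6 * x)
    (h2 : 1 / 2 ≤ x → s * x + m ≤ (A + 3) * x ^ 2 - 6 * x + 3) : s * x + m ≤ kl_psi i x := by
  have hsq : A * x ^ 2 ≤ 3 / 8 * (dB i : ℝ) * x ^ 2 := mul_le_mul_of_nonneg_right hA (sq_nonneg x)
  unfold kl_psi
  rcases le_total x (1 / 2) with h | h
  · rw [kl_hr1 x h]
    have := h1 h
    linarith
  · rw [kl_hr2 x h hx]
    have := h2 h
    nlinarith

theorem kl_psi1 : kl_psi 1 1 = 0 := by
  unfold kl_psi
  rw [kl_hr2 1 (by norm_num) le_rfl]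
  simp [dB]

theorem kl_d2 : (3 / 2 : ℝ) ≤ 3 / 8 * (dB 2 : ℝ) := by
  rw [kl_dB 2 le_rfl]; norm_num

theorem kl_d3 (i : ℕ) (hi : 3 ≤ i) : (9 / 2 : ℝ) ≤ 3 / 8 * (dB i : ℝ) := by
  have h : (12 : ℤ) ≤ dB i := by rw [kl_dB i (by omega)]; omega
  have : (12 : ℝ) ≤ (dB i : ℝ) := by exact_mod_cast h
  linarith

theorem kl_d5 (i : ℕ) (hi : 5 ≤ i) : (15 / 2 : ℝ) ≤ 3 / 8 * (dB i : ℝ) := by
  have h : (20 : ℤ) ≤ dB i := by rw [kl_dB i (by omega)]; omega
  have : (20 : ℝ) ≤ (dB i : ℝ) := by exact_mod_cast h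
  linarith

theorem kl_d7 (i : ℕ) (hi : 7 ≤ i) : (21 / 2 : ℝ) ≤ 3 / 8 * (dB i : ℝ) := by
  have h : (28 : ℤ) ≤ dB i := by rw [kl_dB i (by omega)]; omega
  have : (28 : ℝ) ≤ (dB i : ℝ) := by exact_mod_cast h
  linarith

theorem kl_m (N : ℕ) (m : ℕ → ℝ) (hm : ∀ i, m i ≤ 0) (h6 : ∀ i, 6 < i → m i = 0) :
    ∑ i ∈ Icc 1 6, m i ≤ ∑ i ∈ Icc 1 N, m i := by
  rcases le_total N 6 with h | h
  · have hs : Icc 1 N ⊆ Icc 1 6 := Finset.Icc_subset_Icc_right h
    have := Finset.sum_le_sum_of_subset_of_nonneg (f := fun i => - m i) hs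
      fun i _ _ => neg_nonneg.2 (hm i)
    rw [Finset.sum_neg_distrib, Finset.sum_neg_distrib] at this
    linarith
  · have hs : Icc 1 6 ⊆ Icc 1 N := Finset.Icc_subset_Icc_right h
    refine le_of_eq (Finset.sum_subset hs fun i hi hi' => h6 i ?_)
    rw [Finset.mem_Icc] at hi hi'
    omega

theorem kl_six (m : ℕ → ℝ) : ∑ i ∈ Icc 1 6, m i = m 1 + m 2 + m 3 + m 4 + m 5 + m 6 := by
  rw [show Icc 1 6 = ({1, 2, 3, 4, 5, 6} : Finset ℕ) from by decide]
  simp [add_assoc]

/-- linear lower bound summed -/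
theorem kl_sum (N : ℕ) (x : ℕ → ℝ) (S s : ℝ) (hS : 1 + S = ∑ i ∈ Icc 1 N, x i) (m : ℕ → ℝ)
    (hm : ∀ i, m i ≤ 0) (h6 : ∀ i, 6 < i → m i = 0)
    (ht : ∀ i ∈ Icc 1 N, s * x i + m i ≤ kl_psi i (x i)) :
    s * (1 + S) + (m 1 + m 2 + m 3 + m 4 + m 5 + m 6) ≤ ∑ i ∈ Icc 1 N, kl_psi i (x i) := by
  have h1 := Finset.sum_le_sum ht
  rw [Finset.sum_add_distrib, ← Finset.mul_sum, ← hS] at h1
  have h2 := kl_m N m hm h6
  rw [kl_six] at h2
  linarith

theorem kl_core (N : ℕ) (x : ℕ → ℝ) (x1 : x 1 = 1) (hv : ∀ i j, 1 ≤ i → i ≤ j → x j ≤ x i)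
    (h0 : ∀ i, 0 ≤ x i) (S : ℝ) (hS : 1 + S = ∑ i ∈ Icc 1 N, x i) (hN : 2 ≤ N)
    (hS1 : 1.1834 ≤ S) (hS2 : S ≤ 3.6) :
    0.5115 * (1 + S) ^ 2 ≤ ∑ i ∈ Icc 1 N, kl_psi i (x i) := by
  have hx1 : ∀ i, 1 ≤ i → x i ≤ 1 := fun i hi => by rw [← x1]; exact hv 1 i le_rfl hi
  rcases le_total 2.6 S with hA | hA
  · -- slope 6
    have key := kl_sum N x S 6 hS (fun i => if i = 1 then -6 else if i = 2 then -4.5 else
      if i ≤ 4 then -1.8 else if i ≤ 6 then -(3 / 7) else 0) (by
        intro i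
        split_ifs <;> norm_num) (by
        intro i hi
        rw [if_neg (by omega), if_neg (by omega), if_neg (by omega), if_neg (by omega)]) (by
        intro i hi
        rw [Finset.mem_Icc] at hi
        have p0 := h0 i
        have p1 := hx1 i hi.1
        split_ifs with c1 c2 c4 c6
        · subst c1
          rw [x1, kl_psi1]
          norm_num
        · subst c2
          exact kl_lb (3 / 2) _ _ 2 _ p0 p1 kl_d2 (fun h => by nlinarith) (fun h => by nlinarith)
        · exact kl_lb (9 / 2) _ _ i _ p0 p1 (kl_d3 i (by omega)) (fun h => by nlinarith)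
            (fun h => by nlinarith [sq_nonneg (x i - 4 / 5)])
        · exact kl_lb (15 / 2) _ _ i _ p0 p1 (kl_d5 i (by omega)) (fun h => by nlinarith)
            (fun h => by nlinarith [sq_nonneg (x i - 4 / 7)])
        · exact kl_lb (21 / 2) _ _ i _ p0 p1 (kl_d7 i (by omega)) (fun h => by nlinarith)
            (fun h => by nlinarith [sq_nonneg (x i - 4 / 9)]))
    norm_num at key
    nlinarith
  rcases le_total 1.8 S with hB | hB
  · -- slope 4
    have key := kl_sum N x S 4 hS (fun i => if i = 1 then -4 else if i = 2 then -2.5 else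
      if i ≤ 4 then -(1 / 3) else 0) (by
        intro i
        split_ifs <;> norm_num) (by
        intro i hi
        rw [if_neg (by omega), if_neg (by omega), if_neg (by omega)]) (by
        intro i hi
        rw [Finset.mem_Icc] at hi
        have p0 := h0 i
        have p1 := hx1 i hi.1
        split_ifs with c1 c2 c4
        · subst c1
          rw [x1, kl_psi1]
          norm_num
        · subst c2
          exact kl_lb (3 / 2) _ _ 2 _ p0 p1 kl_d2 (fun h => by nlinarith) (fun h => by nlinarith)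
        · exact kl_lb (9 / 2) _ _ i _ p0 p1 (kl_d3 i (by omega)) (fun h => by nlinarith)
            (fun h => by nlinarith [sq_nonneg (x i - 2 / 3)])
        · exact kl_lb (15 / 2) _ _ i _ p0 p1 (kl_d5 i (by omega)) (fun h => by nlinarith)
            (fun h => by nlinarith [sq_nonneg (x i - 10 / 21)]))
    norm_num at key
    nlinarith
  have q0 := h0 2
  have q1 := hx1 2 (by norm_num)
  rcases le_total (x 2) (1 / 2) with hC | hC
  · have key := kl_sum N x S 3.75 hS (fun i => if i = 1 then -3.75 else if i = 2 then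
      -1.5 * x 2 else 0) (by
        intro i
        split_ifs <;> [norm_num; linarith; norm_num]) (by
        intro i hi
        rw [if_neg (by omega), if_neg (by omega)]) (by
        intro i hi
        rw [Finset.mem_Icc] at hi
        have p0 := h0 i
        have p1 := hx1 i hi.1
        split_ifs with c1 c2
        · subst c1
          rw [x1, kl_psi1]
          norm_num
        · subst c2
          exact kl_lb (3 / 2) _ _ 2 _ p0 p1 kl_d2 (fun h => by nlinarith) (fun h => by nlinarith)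
        · have hi2 : x i ≤ 1 / 2 := (hv 2 i (by norm_num) (by omega)).trans hC
          exact kl_lb (9 / 2) _ _ i _ p0 p1 (kl_d3 i (by omega)) (fun h => by nlinarith)
            (fun h => by
              have : x i = 1 / 2 := le_antisymm hi2 h
              rw [this]; norm_num))
    norm_num at key
    nlinarith
  -- case (I)
  have keyI := kl_sum N x S 3.48 hS (fun i => if i = 1 then -3.48 else if i = 2 then
      4.5 * x 2 ^ 2 - 9.48 * x 2 + 3 else 0) (by
        intro i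
        split_ifs
        · norm_num
        · nlinarith
        · norm_num) (by
        intro i hi
        rw [if_neg (by omega), if_neg (by omega)]) (by
        intro i hi
        rw [Finset.mem_Icc] at hi
        have p0 := h0 i
        have p1 := hx1 i hi.1
        split_ifs with c1 c2
        · subst c1
          rw [x1, kl_psi1]
          norm_num
        · subst c2
          exact kl_lb (3 / 2) _ _ 2 _ p0 p1 kl_d2
            (fun h => by
              have : x 2 = 1 / 2 := le_antisymm h hC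
              rw [this]; norm_num)
            (fun h => by nlinarith)
        · exact kl_lb (9 / 2) _ _ i _ p0 p1 (kl_d3 i (by omega)) (fun h => by nlinarith)
            (fun h => by nlinarith [sq_nonneg (x i - 79 / 125)]))
  norm_num at keyI
  -- case (II)
  have keyII : 4.5 * x 2 ^ 2 - 6 * x 2 + 3 + 6 * (S - x 2) - 4.5 * (S - x 2) ^ 2 ≤
      ∑ i ∈ Icc 1 N, kl_psi i (x i) := by
    have dec : ∀ f : ℕ → ℝ, ∑ i ∈ Icc 1 N, f i = f 1 + f 2 + ∑ i ∈ Icc 3 N, f i := by
      intro f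
      rw [← Finset.add_sum_Ioc_eq_sum_Icc (by omega : 1 ≤ N)]
      have e1 : Ioc 1 N = Icc 2 N := by ext i; simp only [Finset.mem_Ioc, Finset.mem_Icc]; omega
      rw [e1, ← Finset.add_sum_Ioc_eq_sum_Icc hN]
      have e2 : Ioc 2 N = Icc 3 N := by ext i; simp only [Finset.mem_Ioc, Finset.mem_Icc]; omega
      rw [e2]
      ring
    have hR : ∑ i ∈ Icc 3 N, x i = S - x 2 := by
      have := dec x
      rw [← hS, x1] at this
      linarith
    have t : ∀ i ∈ Icc 3 N, 6 * x i - 4.5 * x i ^ 2 ≤ kl_psi i (x i) := by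
      intro i hi
      rw [Finset.mem_Icc] at hi
      have p0 := h0 i
      have p1 := hx1 i (by omega)
      have := kl_lb (9 / 2) 6 (-4.5 * x i ^ 2) i (x i) p0 p1 (kl_d3 i hi.1)
        (fun h => by nlinarith) (fun h => by nlinarith [sq_nonneg (x i - 1 / 2)])
      linarith
    have t2 := Finset.sum_le_sum t
    rw [Finset.sum_sub_distrib, ← Finset.mul_sum, ← Finset.mul_sum, hR] at t2
    have t3 : ∑ i ∈ Icc 3 N, x i ^ 2 ≤ (∑ i ∈ Icc 3 N, x i) ^ 2 :=
      Finset.sum_sq_le_sq_sum_of_nonneg (fun i _ => h0 i)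
    rw [hR] at t3
    rw [dec, x1, kl_psi1]
    have t4 := kl_lb (3 / 2) 0 (4.5 * x 2 ^ 2 - 6 * x 2 + 3) 2 (x 2) q0 q1 kl_d2
      (fun h => by
        have : x 2 = 1 / 2 := le_antisymm h hC
        rw [this]; norm_num) (fun h => by nlinarith)
    linarith
  rcases le_total 1.5 S with hD | hD
  · nlinarith
  rcases le_total (4 / 3) S with hE | hE
  · rcases le_total (S - x 2) (1 / 2) with hF | hF
    · have : (9 * S - 12) * (S - 1 / 2) ≤ (9 * S - 12) * x 2 :=
        mul_le_mul_of_nonneg_left (by linarith) (by linarith)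
      nlinarith [sq_nonneg (S - 1.4445)]
    · have h2 : x 2 ≤ S - 1 / 2 := by linarith
      have h3 : 0 ≤ (S - 1 / 2 - x 2) * (9.48 - 4.5 * (S - 1 / 2 + x 2)) :=
        mul_nonneg (by linarith) (by linarith)
      nlinarith [sq_nonneg (S - 1.4445)]
  · rcases le_total (S - x 2) (x 2) with hF | hF
    · have : (12 - 9 * S) * x 2 ≤ (12 - 9 * S) * 1 :=
        mul_le_mul_of_nonneg_left q1 (by linarith)
      nlinarith [mul_nonneg (sub_nonneg.2 hS1) (sub_nonneg.2 hE)]
    · have h2 : x 2 ≤ S / 2 := by linarith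
      have h3 : 0 ≤ (S / 2 - x 2) * (9.48 - 4.5 * (S / 2 + x 2)) :=
        mul_nonneg (by linarith) (by linarith)
      nlinarith

/-- KL -/
theorem num_b_pr (N : ℕ) (v : ℕ → ℝ) (hv : ∀ i j, 1 ≤ i → i ≤ j → v j ≤ v i) (h0 : ∀ i, 0 ≤ v i)
    (b : ℝ) (hb : b = ∑ i ∈ Icc 1 N, v i) (hN : 1 ≤ N) (hM : v 1 ≤ 0.458 * b)
    (hM2 : b ≤ 4.6 * v 1) :
    0.5115 * b ^ 2 ≤ 3 / 8 * (∑ j ∈ Icc 1 N, (dB j : ℝ) * (v j) ^ 2)
        + 3 * (∑ i ∈ Icc 1 N, HR (v 1) (v i)) := by
  rcases (h0 1).eq_or_lt with hz | hp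
  · have hb0 : b = 0 := by linarith
    have hv0 : ∀ i ∈ Icc 1 N, v i = 0 := by
      intro i hi
      rw [Finset.mem_Icc] at hi
      have := hv 1 i le_rfl hi.1
      have := h0 i
      linarith
    have e1 : ∑ j ∈ Icc 1 N, (dB j : ℝ) * (v j) ^ 2 = 0 :=
      Finset.sum_eq_zero fun j hj => by rw [hv0 j hj]; ring
    have e2 : ∑ i ∈ Icc 1 N, HR (v 1) (v i) = 0 :=
      Finset.sum_eq_zero fun j hj => by
        rw [hv0 j hj, ← hz]
        unfold HR
        simp
    rw [hb0, e1, e2]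
    norm_num
  · have hN2 : 2 ≤ N := by
      by_contra hc
      have : N = 1 := by omega
      subst this
      simp only [Finset.Icc_self, Finset.sum_singleton] at hb
      linarith
    have hne : v 1 ≠ 0 := hp.ne'
    have hsum : 1 + (b / v 1 - 1) = ∑ i ∈ Icc 1 N, v i / v 1 := by
      rw [← Finset.sum_div, ← hb]
      ring
    have hbv : b = v 1 * (b / v 1) := by field_simp
    have l1 : 1.1834 ≤ b / v 1 - 1 := by
      have : 2.1834 ≤ b / v 1 := by
        rw [le_div_iff₀ hp]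
        linarith
      linarith
    have l2 : b / v 1 - 1 ≤ 3.6 := by
      have : b / v 1 ≤ 4.6 := by
        rw [div_le_iff₀ hp]
        linarith
      linarith
    have core := kl_core N (fun i => v i / v 1) (by simp [hne])
      (fun i j hi hij => div_le_div_of_nonneg_right (hv i j hi hij) hp.le)
      (fun i => div_nonneg (h0 i) hp.le) (b / v 1 - 1) hsum hN2 l1 l2
    have e : 3 / 8 * (∑ j ∈ Icc 1 N, (dB j : ℝ) * (v j) ^ 2)
        + 3 * (∑ i ∈ Icc 1 N, HR (v 1) (v i)) =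
        v 1 ^ 2 * ∑ i ∈ Icc 1 N, kl_psi i (v i / v 1) := by
      rw [Finset.mul_sum, Finset.mul_sum, Finset.mul_sum, ← Finset.sum_add_distrib]
      refine Finset.sum_congr rfl fun i _ => ?_
      unfold kl_psi
      have h1 : HR (v 1) (v i) = v 1 ^ 2 * HR 1 (v i / v 1) := by
        rw [← kl_hr (v 1) 1 (v i / v 1) hp, mul_one, mul_div_cancel₀ _ hne]
      rw [h1]
      field_simp
    rw [e]
    have e2 : 0.5115 * b ^ 2 = v 1 ^ 2 * (0.5115 * (1 + (b / v 1 - 1)) ^ 2) := by
      field_simp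
      ring
    rw [e2]
    exact mul_le_mul_of_nonneg_left core (sq_nonneg _)

theorem num_b : type_of% @num_b_pr := @num_b_pr

end Pool.Agent.KE
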