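import Pool.Agent.Lib_helper59.KE.Defs
import Mathlib
set_option autoImplicit false

namespace Pool.Agent.KE

open Finset

theorem km_le {x y : ℝ} (h : y ≤ x) (h2 : x ≤ 2 * y) : HR x y = (x - y) ^ 2 := by
  unfold HR
  by_cases h1 : x ≤ y
  · have h3 : x = y := le_antisymm h1 h
    rw [if_pos h1, h3]
    ring
  · rw [if_neg h1, if_pos h2]

theorem km_gt {x y : ℝ} (h0 : 0 ≤ y) (h2 : 2 * y < x) : HR x y = 2 * x * y - 3 * y ^ 2 := by
  unfold HR
  rw [if_neg (by linarith), if_neg (by linarith)]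

/-- KM -/
theorem num_c_pr (x y z : ℝ) (hxy : y ≤ x) (hyz : z ≤ y) (hz : 0 ≤ z) (hx : x ≤ 0.8 * (x + y + z)) :
    0.55 * (x + y + z) ^ 2 ≤ 3 * (y ^ 2 + z ^ 2) + 3 * (HR x y + HR x z - HR y z) := by
  have hy : 0 ≤ y := hz.trans hyz
  have hx' : x ≤ 4 * (y + z) := by norm_num at hx; linarith
  rcases le_or_gt x (2 * y) with h1 | h1
  · rcases le_or_gt x (2 * z) with h2 | h2
    · rw [km_le hxy h1, km_le (hyz.trans hxy) h2, km_le hyz (hxy.trans h2)]
      nlinarith [sq_nonneg (2 * (y + z) - 3 * x), sq_nonneg (y + z), sq_nonneg x]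
    · rcases le_or_gt y (2 * z) with h3 | h3
      · rw [km_le hxy h1, km_gt hz h2, km_le hyz h3]
        nlinarith [mul_nonneg (sub_nonneg.2 hxy) (sub_nonneg.2 h2.le), mul_nonneg (sub_nonneg.2 hxy) hz,
          mul_nonneg (sub_nonneg.2 hyz) hz, mul_nonneg (sub_nonneg.2 h1) hz,
          mul_nonneg (sub_nonneg.2 h1) (sub_nonneg.2 hxy), mul_nonneg (sub_nonneg.2 h3) hz,
          mul_nonneg (sub_nonneg.2 h3) (sub_nonneg.2 hyz), mul_nonneg (sub_nonneg.2 h3) (sub_nonneg.2 h1),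
          mul_nonneg (sub_nonneg.2 hyz) (sub_nonneg.2 h1), mul_nonneg (sub_nonneg.2 h2.le) hz,
          sq_nonneg (x - y), sq_nonneg (x - 2 * z), sq_nonneg (y - z), sq_nonneg (x + y - 3 * z)]
      · rw [km_le hxy h1, km_gt hz h2, km_gt hz h3]
        nlinarith [mul_nonneg (sub_nonneg.2 hxy) (sub_nonneg.2 h3.le), mul_nonneg (sub_nonneg.2 hxy) hz,
          mul_nonneg (sub_nonneg.2 hyz) hz, mul_nonneg (sub_nonneg.2 h1) hz,
          mul_nonneg (sub_nonneg.2 h1) (sub_nonneg.2 hxy), mul_nonneg (sub_nonneg.2 h3.le) hz,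
          sq_nonneg (x - y), sq_nonneg (2 * x - 3 * y), sq_nonneg (y - z), sq_nonneg (2 * x - 3 * y + 2 * z),
          sq_nonneg (x - 3 / 2 * y + z)]
  · have h2 : 2 * z < x := by linarith
    rcases le_or_gt y (2 * z) with h3 | h3
    · rw [km_gt hy h1, km_gt hz h2, km_le hyz h3]
      nlinarith [mul_nonneg (sub_nonneg.2 hx') (sub_nonneg.2 h1.le), mul_nonneg (sub_nonneg.2 hx') hz,
        mul_nonneg (sub_nonneg.2 hx') hy, mul_nonneg (sub_nonneg.2 h3) hz,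
        mul_nonneg (sub_nonneg.2 h3) (sub_nonneg.2 hyz), mul_nonneg (sub_nonneg.2 h1.le) hz,
        mul_nonneg (sub_nonneg.2 h1.le) hy, mul_nonneg (sub_nonneg.2 hyz) hz,
        mul_nonneg (sub_nonneg.2 h1.le) (sub_nonneg.2 h3), mul_nonneg (sub_nonneg.2 hx') (sub_nonneg.2 h3)]
    · rw [km_gt hy h1, km_gt hz h2, km_gt hz h3]
      nlinarith [mul_nonneg (sub_nonneg.2 hx') (sub_nonneg.2 h1.le), mul_nonneg (sub_nonneg.2 hx') hz,
        mul_nonneg (sub_nonneg.2 hx') hy, mul_nonneg (sub_nonneg.2 h3.le) hz,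
        mul_nonneg (sub_nonneg.2 h1.le) hz, mul_nonneg (sub_nonneg.2 h1.le) hy,
        mul_nonneg (sub_nonneg.2 hx') (sub_nonneg.2 h3.le), mul_nonneg (sub_nonneg.2 h1.le) (sub_nonneg.2 h3.le)]

theorem num_c : type_of% @num_c_pr := @num_c_pr

end Pool.Agent.KE
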