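import Pool.Agent.Lib_helper59.KE.Defs
import Pool.Agent.Lib_helper59.KEF.KJ
import Pool.Agent.Lib_helper59.KEF.KK
import Pool.Agent.Lib_helper59.KEF.KL
import Pool.Agent.Lib_helper59.KEF.KM
import Mathlib
/-!
# Block KN: the E-lemma
-/

set_option autoImplicit false

namespace Pool.Agent.KE

open Finset

theorem kn_HH_cast (x y : ℕ) : ((HH (x : ℤ) (y : ℤ) : ℤ) : ℝ) = HR (x : ℝ) (y : ℝ) := by
  unfold HH HR
  have h1 : ((x : ℤ) ≤ (y : ℤ)) ↔ ((x : ℝ) ≤ (y : ℝ)) := by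
    rw [Nat.cast_le, Nat.cast_le]
  have h2 : ((x : ℤ) ≤ 2 * (y : ℤ)) ↔ ((x : ℝ) ≤ 2 * (y : ℝ)) := by
    constructor
    · intro h
      have h' : x ≤ 2 * y := by exact_mod_cast h
      exact_mod_cast h'
    · intro h
      have h' : x ≤ 2 * y := by exact_mod_cast h
      exact_mod_cast h'
  by_cases c1 : (x : ℤ) ≤ (y : ℤ)
  · rw [if_pos c1, if_pos (h1.1 c1)]; simp
  · rw [if_neg c1, if_neg (fun h => c1 (h1.2 h))]
    by_cases c2 : (x : ℤ) ≤ 2 * (y : ℤ)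
    · rw [if_pos c2, if_pos (h2.1 c2)]; push_cast; ring
    · rw [if_neg c2, if_neg (fun h => c2 (h2.2 h))]; push_cast; ring

/-- the trivial case: everything is zero -/
theorem kn_zero (J : ℕ) (f : ℤ → ℕ) (h : ∀ i, f i = 0) :
    ∑ i ∈ Icc (-(J : ℤ)) J, ∑ j ∈ Icc (-(J : ℤ)) J, Qp (f i) (f j) (f (i + j)) = 0 := by
  apply Finset.sum_eq_zero
  intro i _
  apply Finset.sum_eq_zero
  intro j _
  rw [h i, h j, h (i + j)]
  simp [Qp]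

/-- the attained maximum -/
theorem kn_max (J M : ℕ) (f : ℤ → ℕ) (hf : ∀ i, (J : ℤ) < |i| → f i = 0) (hM : ∀ i, f i ≤ M) :
    ∃ M0 : ℕ, M0 ≤ M ∧ (∀ i, f i ≤ M0) ∧ ∃ i, f i = M0 := by
  have hne : (Icc (-(J : ℤ)) J).Nonempty := ⟨0, by simp⟩
  obtain ⟨i0, hi0, hmax⟩ := Finset.exists_max_image (Icc (-(J : ℤ)) J) f hne
  refine ⟨f i0, hM i0, ?_, i0, rfl⟩
  intro i
  by_cases hi : i ∈ Icc (-(J : ℤ)) J
  · exact hmax i hi
  · have : (J : ℤ) < |i| := by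
      rw [Finset.mem_Icc, ← abs_le] at hi
      exact not_le.1 hi
    rw [hf i this]
    exact Nat.zero_le _

/-- KN1 (uses KJ, KK, KL) -/
theorem e_lemma_pr (J M : ℕ) (f : ℤ → ℕ) (hf : ∀ i, (J : ℤ) < |i| → f i = 0) (hM : ∀ i, f i ≤ M)
    (b : ℤ) (hb : b = ∑ i ∈ Icc (-(J : ℤ)) J, (f i : ℤ)) (h458 : 1000 * (M : ℤ) ≤ 458 * b) :
    10000 * ∑ i ∈ Icc (-(J : ℤ)) J, ∑ j ∈ Icc (-(J : ℤ)) J, Qp (f i) (f j) (f (i + j))
      ≤ 24885 * b ^ 2 := by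
  obtain ⟨M0, hM0, hfM0, hex⟩ := kn_max J M f hf hM
  rcases Nat.eq_zero_or_pos M0 with h0 | hpos
  · have hz : ∀ i, f i = 0 := fun i => Nat.le_zero.1 (h0 ▸ hfM0 i)
    rw [kn_zero J f hz]
    positivity
  · set Q := ∑ i ∈ Icc (-(J : ℤ)) J, ∑ j ∈ Icc (-(J : ℤ)) J, Qp (f i) (f j) (f (i + j)) with hQ
    obtain ⟨v, hanti, hv1, _, hsum, hA, hB, _⟩ :=
      three_bounds J M0 f hf hfM0 hex hpos b (3 * b ^ 2 - Q) hb rfl
    set N := 2 * J + 1 with hN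
    have hN1 : 1 ≤ N := by omega
    -- everything over the reals
    have hvR : ∀ i j, 1 ≤ i → i ≤ j → ((v j : ℕ) : ℝ) ≤ ((v i : ℕ) : ℝ) := by
      intro i j _ hij
      exact_mod_cast hanti i j hij
    have h0R : ∀ i, 0 ≤ ((v i : ℕ) : ℝ) := fun i => Nat.cast_nonneg _
    have hbR : (b : ℝ) = ∑ i ∈ Icc 1 N, ((v i : ℕ) : ℝ) := by
      rw [← hsum]; push_cast; rfl
    have hv1M : ((v 1 : ℕ) : ℝ) ≤ 0.458 * (b : ℝ) := by
      have h1 : 1000 * ((v 1 : ℕ) : ℤ) ≤ 458 * b := by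
        rw [hv1]
        have : (M0 : ℤ) ≤ (M : ℤ) := by exact_mod_cast hM0
        linarith
      have h2 : 1000 * ((v 1 : ℕ) : ℝ) ≤ 458 * (b : ℝ) := by exact_mod_cast h1
      linarith
    have key : 0.5115 * (b : ℝ) ^ 2 ≤ ((3 * b ^ 2 - Q : ℤ) : ℝ) := by
      rcases le_total (4.6 * ((v 1 : ℕ) : ℝ)) (b : ℝ) with hc | hc
      · have h1 := num_a N (fun i => ((v i : ℕ) : ℝ)) hvR h0R b hbR hN1 hc
        have hA' : (45 : ℝ) * (∑ i ∈ Icc 1 N, ∑ j ∈ Icc 1 N,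
              (min ((v i : ℕ) : ℝ) ((v j : ℕ) : ℝ)) ^ 2)
            + 48 * (∑ i ∈ Icc 1 N, ∑ j ∈ Icc 1 N, HR ((v i : ℕ) : ℝ) ((v j : ℕ) : ℝ))
            - 48 * ((v 1 : ℕ) : ℝ) ^ 2 ≤ 64 * ((3 * b ^ 2 - Q : ℤ) : ℝ) := by
          have hcast : (((45 * (∑ i ∈ Icc 1 N, ∑ j ∈ Icc 1 N, (min (v i : ℤ) (v j)) ^ 2)
              + 48 * (∑ i ∈ Icc 1 N, ∑ j ∈ Icc 1 N, HH (v i) (v j))
              - 48 * (v 1 : ℤ) ^ 2 : ℤ)) : ℝ) ≤ ((64 * (3 * b ^ 2 - Q) : ℤ) : ℝ) :=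
            Int.cast_le.2 hA
          simp only [Int.cast_add, Int.cast_sub, Int.cast_mul, Int.cast_sum, Int.cast_pow,
            Int.cast_min, Int.cast_natCast, Int.cast_ofNat, kn_HH_cast] at hcast ⊢
          exact hcast
        linarith
      · have h1 := num_b N (fun i => ((v i : ℕ) : ℝ)) hvR h0R b hbR hN1 hv1M hc
        have hB' : (3 : ℝ) * (∑ j ∈ Icc 1 N, (dB j : ℝ) * ((v j : ℕ) : ℝ) ^ 2)
            + 24 * (∑ i ∈ Icc 1 N, HR ((v 1 : ℕ) : ℝ) ((v i : ℕ) : ℝ))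
              ≤ 8 * ((3 * b ^ 2 - Q : ℤ) : ℝ) := by
          have hcast : ((3 * (∑ j ∈ Icc 1 N, dB j * (v j : ℤ) ^ 2)
              + 24 * (∑ i ∈ Icc 1 N, HH (v 1) (v i)) : ℤ) : ℝ)
                ≤ ((8 * (3 * b ^ 2 - Q) : ℤ) : ℝ) := Int.cast_le.2 hB
          simp only [Int.cast_add, Int.cast_sub, Int.cast_mul, Int.cast_sum, Int.cast_pow,
            Int.cast_natCast, Int.cast_ofNat, kn_HH_cast] at hcast ⊢
          exact hcast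
        linarith
    have hfin : ((10000 * Q : ℤ) : ℝ) ≤ ((24885 * b ^ 2 : ℤ) : ℝ) := by
      push_cast at key ⊢
      linarith
    exact Int.cast_le.1 hfin

/-- KN2 (uses KJ, KM) -/
theorem e_lemma_three_pr (M : ℕ) (f : ℤ → ℕ) (hf : ∀ i : ℤ, 1 < |i| → f i = 0)
    (hM : ∀ i, f i ≤ M)
    (b : ℤ) (hb : b = ∑ i ∈ Icc (-1 : ℤ) 1, (f i : ℤ)) (h8 : 5 * (M : ℤ) ≤ 4 * b) :
    20 * ∑ i ∈ Icc (-1 : ℤ) 1, ∑ j ∈ Icc (-1 : ℤ) 1, Qp (f i) (f j) (f (i + j))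
      ≤ 49 * b ^ 2 := by
  have hf' : ∀ i : ℤ, ((1 : ℕ) : ℤ) < |i| → f i = 0 := by
    intro i hi
    exact hf i (by simpa using hi)
  have hb' : b = ∑ i ∈ Icc (-((1 : ℕ) : ℤ)) ((1 : ℕ) : ℤ), (f i : ℤ) := by
    simpa using hb
  have hgoal : 20 * ∑ i ∈ Icc (-((1 : ℕ) : ℤ)) ((1 : ℕ) : ℤ),
      ∑ j ∈ Icc (-((1 : ℕ) : ℤ)) ((1 : ℕ) : ℤ), Qp (f i) (f j) (f (i + j)) ≤ 49 * b ^ 2 := by
    obtain ⟨M0, hM0, hfM0, hex⟩ := kn_max 1 M f hf' hM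
    rcases Nat.eq_zero_or_pos M0 with h0 | hpos
    · have hz : ∀ i, f i = 0 := fun i => Nat.le_zero.1 (h0 ▸ hfM0 i)
      rw [kn_zero 1 f hz]
      positivity
    · set Q := ∑ i ∈ Icc (-((1 : ℕ) : ℤ)) ((1 : ℕ) : ℤ),
        ∑ j ∈ Icc (-((1 : ℕ) : ℤ)) ((1 : ℕ) : ℤ), Qp (f i) (f j) (f (i + j)) with hQ
      obtain ⟨v, hanti, hv1, _, hsum, _, _, hC⟩ :=
        three_bounds 1 M0 f hf' hfM0 hex hpos b (3 * b ^ 2 - Q) hb' rfl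
      have hC' := hC rfl
      have hs : ((v 1 : ℕ) : ℤ) + (v 2 : ℕ) + (v 3 : ℕ) = b := by
        rw [← hsum]
        have : Icc 1 (2 * 1 + 1) = ({1, 2, 3} : Finset ℕ) := by decide
        rw [this]
        rw [Finset.sum_insert (by decide), Finset.sum_insert (by decide), Finset.sum_singleton]
        ring
      have hsR : ((v 1 : ℕ) : ℝ) + (v 2 : ℕ) + (v 3 : ℕ) = (b : ℝ) := by exact_mod_cast hs
      have h21 : ((v 2 : ℕ) : ℝ) ≤ ((v 1 : ℕ) : ℝ) := by exact_mod_cast hanti 1 2 (by norm_num)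
      have h32 : ((v 3 : ℕ) : ℝ) ≤ ((v 2 : ℕ) : ℝ) := by exact_mod_cast hanti 2 3 (by norm_num)
      have h08 : ((v 1 : ℕ) : ℝ) ≤ 0.8 * (((v 1 : ℕ) : ℝ) + (v 2 : ℕ) + (v 3 : ℕ)) := by
        rw [hsR]
        have h1 : 5 * ((v 1 : ℕ) : ℤ) ≤ 4 * b := by
          rw [hv1]
          have : (M0 : ℤ) ≤ (M : ℤ) := by exact_mod_cast hM0
          linarith
        have h2 : 5 * ((v 1 : ℕ) : ℝ) ≤ 4 * (b : ℝ) := by exact_mod_cast h1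
        linarith
      have h1 := num_c ((v 1 : ℕ) : ℝ) ((v 2 : ℕ) : ℝ) ((v 3 : ℕ) : ℝ) h21 h32
        (Nat.cast_nonneg _) h08
      rw [hsR] at h1
      have hcast : ((3 * ((v 2 : ℤ) ^ 2 + (v 3 : ℤ) ^ 2)
          + 3 * (HH (v 1) (v 2) + HH (v 1) (v 3) - HH (v 2) (v 3)) : ℤ) : ℝ)
            ≤ ((3 * b ^ 2 - Q : ℤ) : ℝ) := Int.cast_le.2 hC'
      simp only [Int.cast_add, Int.cast_sub, Int.cast_mul, Int.cast_pow,
            Int.cast_natCast, Int.cast_ofNat, kn_HH_cast] at hcast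
      have hfin : ((20 * Q : ℤ) : ℝ) ≤ ((49 * b ^ 2 : ℤ) : ℝ) := by
        push_cast
        linarith
      exact Int.cast_le.1 hfin
  simpa using hgoal

theorem e_lemma : type_of% @e_lemma_pr := @e_lemma_pr

theorem e_lemma_three : type_of% @e_lemma_three_pr := @e_lemma_three_pr

end Pool.Agent.KE
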