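import Pool.Agent.Lib_helper59.KE.Defs
import Mathlib
import Pool.Agent.Lib_helper25.POS.Defs
/-!
# KE, block KO: the levels of a no-wrap set
-/

set_option autoImplicit false

namespace Pool.Agent.KE

open Finset Pool.Agent.Lib_helper13.PL Pool.Agent.POS

variable {G : Type*} [AddCommGroup G] [DecidableEq G]

theorem ko_cast {m : ℕ} [NeZero m] (i v : ℤ) (h : (i : ZMod m) = (v : ZMod m))
    (hlt : |i - v| < (m : ℤ)) : i = v := by
  have h1 : (m : ℤ) ∣ i - v := (ZMod.intCast_eq_intCast_iff_dvd_sub v i m).1 h.symm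
  have h2 : i - v = 0 := Int.eq_zero_of_abs_lt_dvd h1 hlt
  omega

theorem ko_val {m : ℕ} [NeZero m] (chi : G →+ ZMod m) (B : Finset G) (hB : NoWrap chi B)
    (J : ℕ) (hJ : J = (m - 1) / 3) (x : G) (hx : x ∈ B) : |(chi x).valMinAbs| ≤ (J : ℤ) := by
  have h1 := hB x hx
  have hm : 0 < m := Nat.pos_of_ne_zero (NeZero.ne m)
  have h2 : (J : ℤ) = ((m : ℤ) - 1) / 3 := by
    rw [hJ]; push_cast [Nat.cast_sub hm]; rfl
  omega

theorem ko_3J (m : ℕ) [NeZero m] (J : ℕ) (hJ : J = (m - 1) / 3) : 3 * (J : ℤ) < m := by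
  have hm : 0 < m := Nat.pos_of_ne_zero (NeZero.ne m)
  omega

theorem ko_lev {m : ℕ} [NeZero m] (chi : G →+ ZMod m) (B : Finset G) (hB : NoWrap chi B)
    (J : ℕ) (hJ : J = (m - 1) / 3) (i : ℤ) (hi : |i| ≤ 2 * J) :
    lev chi B (i : ZMod m) = B.filter (fun x => (chi x).valMinAbs = i) := by
  unfold lev
  refine Finset.filter_congr fun x hx => ?_
  have h1 := ko_val chi B hB J hJ x hx
  have h3 := ko_3J m J hJ
  constructor
  · intro h
    have h2 : ((i : ℤ) : ZMod m) = (((chi x).valMinAbs : ℤ) : ZMod m) := by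
      rw [ZMod.coe_valMinAbs, h]
    symm
    apply ko_cast i _ h2
    rw [abs_lt]
    rw [abs_le] at h1 hi
    constructor <;> linarith [h1.1, h1.2, hi.1, hi.2]
  · intro h
    rw [← h, ZMod.coe_valMinAbs]

/-- KO1 -/
theorem lev_empty_pr {m : ℕ} [NeZero m] (chi : G →+ ZMod m) (B : Finset G) (hB : NoWrap chi B)
    (J : ℕ) (hJ : J = (m - 1) / 3) (i : ℤ) (hi : (J : ℤ) < |i|) (hi2 : |i| ≤ 2 * J) :
    lev chi B (i : ZMod m) = ∅ := by
  rw [ko_lev chi B hB J hJ i hi2]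
  refine Finset.filter_eq_empty_iff.2 fun x hx h => ?_
  have h1 := ko_val chi B hB J hJ x hx
  rw [h] at h1
  omega

theorem ko_sum {m : ℕ} [NeZero m] (chi : G →+ ZMod m) (B : Finset G) (hB : NoWrap chi B)
    (J : ℕ) (hJ : J = (m - 1) / 3) (F : G → ℤ) :
    ∑ x ∈ B, F x = ∑ i ∈ Icc (-(J : ℤ)) J, ∑ x ∈ lev chi B (i : ZMod m), F x := by
  have h1 : ∀ x ∈ B, (chi x).valMinAbs ∈ Icc (-(J : ℤ)) J := fun x hx => by
    rw [Finset.mem_Icc]
    exact abs_le.1 (ko_val chi B hB J hJ x hx)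
  rw [← Finset.sum_fiberwise_of_maps_to h1]
  refine Finset.sum_congr rfl fun i hi => ?_
  rw [Finset.mem_Icc] at hi
  rw [ko_lev chi B hB J hJ i (by rw [abs_le]; constructor <;> linarith [hi.1, hi.2])]

/-- KO2 -/
theorem card_levels_pr {m : ℕ} [NeZero m] (chi : G →+ ZMod m) (B : Finset G) (hB : NoWrap chi B)
    (J : ℕ) (hJ : J = (m - 1) / 3) :
    (B.card : ℤ) = ∑ i ∈ Icc (-(J : ℤ)) J, ((lev chi B (i : ZMod m)).card : ℤ) := by
  have h1 := ko_sum chi B hB J hJ (fun _ => 1)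
  simpa using h1

/-- KO3 -/
theorem sch_levels_pr {m : ℕ} [NeZero m] (chi : G →+ ZMod m) (B : Finset G) (hB : NoWrap chi B)
    (J : ℕ) (hJ : J = (m - 1) / 3) :
    GL.sch B = ∑ i ∈ Icc (-(J : ℤ)) J, ∑ j ∈ Icc (-(J : ℤ)) J,
      TT (lev chi B (i : ZMod m)) (lev chi B (j : ZMod m)) (lev chi B ((i + j : ℤ) : ZMod m)) := by
  have h1 : GL.sch B = ∑ x ∈ B, ∑ y ∈ B, if x + y ∈ B then 1 else 0 := by
    unfold GL.sch
    rw [Finset.card_filter]
    push_cast
    rw [Finset.sum_product]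
  rw [h1, ko_sum chi B hB J hJ]
  refine Finset.sum_congr rfl fun i _ => ?_
  have h2 : ∀ x ∈ lev chi B (i : ZMod m), (∑ y ∈ B, if x + y ∈ B then (1 : ℤ) else 0) =
      ∑ j ∈ Icc (-(J : ℤ)) J, ∑ y ∈ lev chi B (j : ZMod m),
        if x + y ∈ lev chi B ((i + j : ℤ) : ZMod m) then (1 : ℤ) else 0 := by
    intro x hx
    rw [ko_sum chi B hB J hJ]
    refine Finset.sum_congr rfl fun j _ => ?_
    refine Finset.sum_congr rfl fun y hy => ?_
    unfold lev at hx hy ⊢
    rw [Finset.mem_filter] at hx hy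
    have h3 : chi (x + y) = ((i + j : ℤ) : ZMod m) := by
      rw [map_add, hx.2, hy.2]; push_cast; rfl
    simp only [Finset.mem_filter, h3, and_true]
  rw [Finset.sum_congr rfl h2, Finset.sum_comm]
  rfl

/-- KO4 -/
theorem image_card_pr {m : ℕ} [NeZero m] (chi : G →+ ZMod m) (B : Finset G) (hB : NoWrap chi B)
    (J : ℕ) (hJ : J = (m - 1) / 3) : ((B.image chi).erase 0).card ≤ 2 * J := by
  have h1 : (B.image chi).erase 0 ⊆
      ((Icc (-(J : ℤ)) J).erase 0).image (fun i : ℤ => (i : ZMod m)) := by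
    intro u hu
    rw [Finset.mem_erase, Finset.mem_image] at hu
    obtain ⟨hu0, x, hx, hxu⟩ := hu
    rw [Finset.mem_image]
    refine ⟨(chi x).valMinAbs, ?_, ?_⟩
    · rw [Finset.mem_erase, Finset.mem_Icc]
      refine ⟨fun h => hu0 ?_, abs_le.1 (ko_val chi B hB J hJ x hx)⟩
      rw [ZMod.valMinAbs_eq_zero] at h
      rw [← hxu, h]
    · rw [← hxu]
      exact ZMod.coe_valMinAbs _
  refine (Finset.card_le_card h1).trans (Finset.card_image_le.trans ?_)
  rw [Finset.card_erase_of_mem (by rw [Finset.mem_Icc]; constructor <;> omega), Int.card_Icc]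
  omega

theorem ko_abs (J : ℕ) : ∑ i ∈ Icc (-(J : ℤ)) J, |i| = (J : ℤ) * (J + 1) := by
  induction J with
  | zero => simp
  | succ J ih =>
    have h1 : Icc (-((J + 1 : ℕ) : ℤ)) ((J + 1 : ℕ) : ℤ) =
        insert (-((J + 1 : ℕ) : ℤ)) (insert ((J + 1 : ℕ) : ℤ) (Icc (-(J : ℤ)) J)) := by
      ext i
      simp only [Finset.mem_insert, Finset.mem_Icc]
      push_cast
      omega
    rw [h1, Finset.sum_insert, Finset.sum_insert, ih]
    · rw [abs_neg, abs_of_nonneg (by positivity)]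
      push_cast
      ring
    · rw [Finset.mem_Icc]
      push_cast
      omega
    · rw [Finset.mem_insert, Finset.mem_Icc]
      push_cast
      omega

/-- KO5 -/
theorem card_pairs_pr (J : ℕ) :
    (((Icc (-(J : ℤ)) J ×ˢ Icc (-(J : ℤ)) J).filter (fun p => |p.1 + p.2| ≤ (J : ℤ))).card : ℤ)
      = 3 * J ^ 2 + 3 * J + 1 := by
  rw [Finset.card_filter]
  push_cast
  rw [Finset.sum_product]
  have h1 : ∀ i ∈ Icc (-(J : ℤ)) J, (∑ j ∈ Icc (-(J : ℤ)) J,
      if |(i, j).1 + (i, j).2| ≤ (J : ℤ) then (1 : ℤ) else 0) = (2 * (J : ℤ) + 1) - |i| := by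
    intro i hi
    rw [Finset.mem_Icc] at hi
    have h2 : (Icc (-(J : ℤ)) J).filter (fun j => |i + j| ≤ (J : ℤ)) =
        Icc (max (-(J : ℤ)) (-J - i)) (min (J : ℤ) (J - i)) := by
      ext j
      simp only [Finset.mem_filter, Finset.mem_Icc, abs_le]
      omega
    rw [← Finset.sum_filter, h2, Finset.sum_const, Int.card_Icc, nsmul_eq_mul, mul_one]
    rcases le_total 0 i with h3 | h3
    · rw [abs_of_nonneg h3]
      omega
    · rw [abs_of_nonpos h3]
      omega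
  rw [Finset.sum_congr rfl h1, Finset.sum_sub_distrib, ko_abs, Finset.sum_const, Int.card_Icc,
    nsmul_eq_mul]
  have h4 : (((J : ℤ) + 1 - -(J : ℤ)).toNat : ℤ) = 2 * J + 1 := by omega
  rw [h4]
  ring

theorem lev_empty : type_of% @lev_empty_pr := @lev_empty_pr

theorem card_levels : type_of% @card_levels_pr := @card_levels_pr

theorem sch_levels : type_of% @sch_levels_pr := @sch_levels_pr

theorem image_card : type_of% @image_card_pr := @image_card_pr

theorem card_pairs : type_of% @card_pairs_pr := @card_pairs_pr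

end Pool.Agent.KE
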