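import Pool.Agent.Lib_helper59.KE.Defs
import Pool.Agent.Lib_helper59.KEF.KO
import Mathlib
import Pool.Agent.Lib_helper25.POS.Defs
import Pool.Agent.Lib_helper25.PR.PA
/-!
# Block KQ: the star without alive bonus
-/

set_option autoImplicit false

namespace Pool.Agent.KE

open Finset Pool.Agent.Lib_helper13.PL Pool.Agent.POS

variable {G : Type*} [AddCommGroup G] [DecidableEq G]

/-- KQ1 -/
theorem cost_eq_pr (A B0 : Finset G) :
    cost A B0 = 2 * (A.card : ℤ) ^ 2 + 6 * A.card * B0.card - 8 * TT A B0 A := by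
  unfold cost
  rw [TT_self]
  ring

/-- the summand -/
def kq_k (w c : ℤ) : ℤ := 2 * w ^ 2 + 6 * w * c - 2 * Qp w c w

theorem kq_small {w c : ℤ} (hw : 0 ≤ w) (h : 2 * w ≤ c) : kq_k w c = 6 * w * (c - w) := by
  unfold kq_k Qp
  split_ifs with h1 h2 h3
  · have hc : c = 0 := by linarith
    have hw0 : w = 0 := by linarith
    rw [hc, hw0]
    ring
  · ring
  · exact absurd (by linarith : w + w ≤ c) h2
  · exact absurd (by linarith : w + w ≤ c) h2

theorem kq_large {w c : ℤ} (hc : 0 ≤ c) (h : c ≤ 2 * w) :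
    kq_k w c = 2 * w ^ 2 - 2 * w * c + 2 * c ^ 2 := by
  unfold kq_k Qp
  split_ifs with h1 h2 h3
  · have hc : c = 0 := by linarith
    rw [hc]
    ring
  · have hc : c = 2 * w := by linarith
    rw [hc]
    ring
  · have hc : c = 0 := by linarith
    rw [hc]
    ring
  · ring

theorem kq_low2 {w c : ℤ} (hw : 0 ≤ w) (hc : 0 ≤ c) : 2 * c * w ≤ kq_k w c := by
  rcases le_total (2 * w) c with h | h
  · rw [kq_small hw h]
    nlinarith [mul_nonneg hw (by linarith : 0 ≤ c - 2 * w), mul_nonneg hw hc]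
  · rw [kq_large hc h]
    nlinarith [sq_nonneg (w - c)]

theorem kq_low6 {w c : ℤ} (hw : 0 ≤ w) (hc : 0 ≤ c) : 6 * w * (c - w) ≤ kq_k w c := by
  rcases le_total (2 * w) c with h | h
  · rw [kq_small hw h]
  · rw [kq_large hc h]
    nlinarith [sq_nonneg (2 * w - c)]

theorem kq_nonneg {w c : ℤ} (hw : 0 ≤ w) (hc : 0 ≤ c) : 0 ≤ kq_k w c :=
  le_trans (by positivity) (kq_low2 hw hc)

/-- one level which is at least as large as the level `0` -/
theorem kq_max {ι : Type*} [DecidableEq ι] (U : Finset ι) (w : ι → ℤ) (hw : ∀ u ∈ U, 0 ≤ w u)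
    (c b : ℤ) (hc : 0 ≤ c) (hb : b = c + ∑ u ∈ U, w u) (u : ι) (hu : u ∈ U) (hcu : c ≤ w u) :
    2 * w u ^ 2 + 2 * c * (b - 2 * w u) ≤ ∑ u ∈ U, kq_k (w u) c ∧ c ≤ b - w u := by
  have h1 := Finset.add_sum_erase U (fun v => kq_k (w v) c) hu
  have h2 := Finset.add_sum_erase U w hu
  have h3 : ∑ v ∈ U.erase u, 2 * c * w v ≤ ∑ v ∈ U.erase u, kq_k (w v) c :=
    Finset.sum_le_sum fun v hv => kq_low2 (hw v (Finset.mem_of_mem_erase hv)) hc
  rw [← Finset.mul_sum] at h3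
  have h4 : 0 ≤ ∑ v ∈ U.erase u, w v :=
    Finset.sum_nonneg fun v hv => hw v (Finset.mem_of_mem_erase hv)
  have h5 : ∑ v ∈ U.erase u, w v = b - c - w u := by linarith
  rw [h5] at h3 h4
  have h6 := kq_large hc (by linarith [hw u hu] : c ≤ 2 * w u)
  rw [h6] at h1
  constructor
  · nlinarith
  · linarith

/-- the two bounds for a large level `0` -/
theorem kq_c {ι : Type*} [DecidableEq ι] (U : Finset ι) (w : ι → ℤ) (hw : ∀ u ∈ U, 0 ≤ w u)
    (c b : ℤ) (hc : 0 ≤ c) (hb : b = c + ∑ u ∈ U, w u) :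
    2 * c * (b - c) ≤ ∑ u ∈ U, kq_k (w u) c ∧
      6 * (b - c) * (2 * c - b) ≤ ∑ u ∈ U, kq_k (w u) c := by
  constructor
  · have h3 : ∑ v ∈ U, 2 * c * w v ≤ ∑ v ∈ U, kq_k (w v) c :=
      Finset.sum_le_sum fun v hv => kq_low2 (hw v hv) hc
    rw [← Finset.mul_sum] at h3
    have h5 : ∑ v ∈ U, w v = b - c := by linarith
    rw [h5] at h3
    exact h3
  · have h3 : ∑ v ∈ U, 6 * (2 * c - b) * w v ≤ ∑ v ∈ U, kq_k (w v) c := by
      refine Finset.sum_le_sum fun v hv => ?_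
      have h4 : w v ≤ ∑ u ∈ U, w u := Finset.single_le_sum hw hv
      have h5 := hw v hv
      have h6 := kq_low6 h5 hc
      nlinarith [mul_nonneg h5 (by linarith : 0 ≤ b - c - w v)]
    rw [← Finset.mul_sum] at h3
    have h5 : ∑ v ∈ U, w v = b - c := by linarith
    rw [h5] at h3
    linarith

/-- KQ2 : numbers; `w u` the sizes of the levels `u ≠ 0`, `c` the size of level 0 -/
theorem num_star_pr {ι : Type*} [DecidableEq ι] (U : Finset ι) (w : ι → ℤ)
    (hw : ∀ u ∈ U, 0 ≤ w u)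
    (c b : ℤ) (hc : 0 ≤ c) (hb : b = c + ∑ u ∈ U, w u) (h43 : 4 * c ≤ 3 * b)
    (hbig : 458 * b ≤ 1000 * c ∨ ∃ u ∈ U, 458 * b ≤ 1000 * w u) :
    4195 * b ^ 2 ≤ 10000 * ∑ u ∈ U, (2 * w u ^ 2 + 6 * w u * c - 2 * Qp (w u) c (w u)) := by
  change 4195 * b ^ 2 ≤ 10000 * ∑ u ∈ U, kq_k (w u) c
  have hsum0 : 0 ≤ ∑ u ∈ U, w u := Finset.sum_nonneg hw
  have hb0 : 0 ≤ b := by linarith
  -- one level above `c`
  have key : ∀ u ∈ U, c ≤ w u → 458 * b ≤ 1000 * w u →
      4195 * b ^ 2 ≤ 10000 * ∑ u ∈ U, kq_k (w u) c := by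
    intro u hu hcu hbu
    obtain ⟨h1, h2⟩ := kq_max U w hw c b hc hb u hu hcu
    obtain ⟨M, hM⟩ : ∃ M, M = w u := ⟨_, rfl⟩
    rw [← hM] at h1 h2 hbu
    rcases le_total (2 * M) b with h3 | h3
    · have h4 : 0 ≤ 2 * c * (b - 2 * M) := mul_nonneg (by linarith) (by linarith)
      have h5 : (458 * b) ^ 2 ≤ (1000 * M) ^ 2 := pow_le_pow_left₀ (by linarith) hbu 2
      nlinarith
    · have h4 : 0 ≤ 2 * (b - M - c) * (2 * M - b) := mul_nonneg (by linarith) (by linarith)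
      nlinarith [sq_nonneg (2 * M - b), sq_nonneg b]
  by_cases hex : ∃ u ∈ U, c ≤ w u ∧ 458 * b ≤ 1000 * w u
  · obtain ⟨u, hu, h1, h2⟩ := hex
    exact key u hu h1 h2
  have hcb : 458 * b ≤ 1000 * c := by
    rcases hbig with h | ⟨u, hu, h⟩
    · exact h
    · by_contra hlt
      exact hex ⟨u, hu, by linarith, h⟩
  obtain ⟨h1, h2⟩ := kq_c U w hw c b hc hb
  rcases le_total (10 * c) (7 * b) with h3 | h3
  · nlinarith [mul_nonneg (by linarith : 0 ≤ 1000 * c - 458 * b) (by linarith : 0 ≤ 7 * b - 10 * c),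
      mul_nonneg hb0 (by linarith : 0 ≤ 7 * b - 10 * c)]
  · nlinarith [mul_nonneg (by linarith : 0 ≤ 10 * c - 7 * b) (by linarith : 0 ≤ 3 * b - 4 * c),
      mul_nonneg hb0 hc, sq_nonneg b]

/-- KQ3 -/
theorem num_star8_pr {ι : Type*} [DecidableEq ι] (U : Finset ι) (w : ι → ℤ)
    (hw : ∀ u ∈ U, 0 ≤ w u)
    (c b : ℤ) (hc : 0 ≤ c) (hb : b = c + ∑ u ∈ U, w u) (h43 : 4 * c ≤ 3 * b)
    (hbig : 4 * b ≤ 5 * c ∨ ∃ u ∈ U, 4 * b ≤ 5 * w u) :
    b ^ 2 ≤ ∑ u ∈ U, (2 * w u ^ 2 + 6 * w u * c - 2 * Qp (w u) c (w u)) := by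
  change b ^ 2 ≤ ∑ u ∈ U, kq_k (w u) c
  have hsum0 : 0 ≤ ∑ u ∈ U, w u := Finset.sum_nonneg hw
  have hb0 : 0 ≤ b := by linarith
  rcases hbig with h | ⟨u, hu, h⟩
  · have hb1 : b = 0 := by linarith
    rw [hb1]
    have h0 : 0 ≤ ∑ u ∈ U, kq_k (w u) c := Finset.sum_nonneg fun v hv => kq_nonneg (hw v hv) hc
    simpa using h0
  · have hle : w u ≤ ∑ v ∈ U, w v := Finset.single_le_sum hw hu
    obtain ⟨h1, h2⟩ := kq_max U w hw c b hc hb u hu (by linarith)
    obtain ⟨M, hM⟩ : ∃ M, M = w u := ⟨_, rfl⟩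
    rw [← hM] at h1 h2 h
    have h4 : 0 ≤ 2 * (b - M - c) * (2 * M - b) := mul_nonneg (by linarith) (by linarith)
    nlinarith [mul_nonneg (by linarith : 0 ≤ 5 * M - 4 * b) hb0, sq_nonneg (5 * M - 4 * b),
      sq_nonneg b]

/-- KQ4 (uses `pl_star` of POS, KQ1, KO4): the star when no triple `(u,0;u)` has a bonus
larger than `K'^2` -/
theorem star_bound_pr {m : ℕ} [NeZero m] (chi : G →+ ZMod m) (B : Finset G) (hB : NoWrap chi B)
    (J : ℕ) (hJ : J = (m - 1) / 3) (K' : ℤ)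
    (hnb : ∀ u v : ZMod m, 4 * TT (lev chi B u) (lev chi B v) (lev chi B (u + v))
      ≤ Qp (lev chi B u).card (lev chi B v).card (lev chi B (u + v)).card + K' ^ 2) :
    GL.FF B ≤ (4 * J + 1) * K' ^ 2
      - ∑ u ∈ (B.image chi).erase 0, (2 * ((lev chi B u).card : ℤ) ^ 2
          + 6 * ((lev chi B u).card : ℤ) * (lev chi B 0).card
          - 2 * Qp (lev chi B u).card (lev chi B 0).card (lev chi B u).card) := by
  have h1 := pl_star chi B hB
  have h2 : GL.FF (lev chi B 0) ≤ K' ^ 2 := by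
    have h3 := hnb 0 0
    rw [add_zero] at h3
    have h4 : Qp (lev chi B 0).card (lev chi B 0).card (lev chi B 0).card =
        3 * ((lev chi B 0).card : ℤ) ^ 2 := by
      obtain ⟨c, hc⟩ : ∃ c : ℤ, c = ((lev chi B 0).card : ℤ) := ⟨_, rfl⟩
      have hc0 : 0 ≤ c := by rw [hc]; positivity
      rw [← hc]
      unfold Qp
      split_ifs with h5
      · have h6 : c = 0 := by linarith
        rw [h6]
        ring
      · ring
    rw [h4] at h3
    unfold GL.FF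
    rw [← TT_eq_sch]
    linarith
  have h5 : ∀ u ∈ (B.image chi).erase 0, (2 * ((lev chi B u).card : ℤ) ^ 2
          + 6 * ((lev chi B u).card : ℤ) * (lev chi B 0).card
          - 2 * Qp (lev chi B u).card (lev chi B 0).card (lev chi B u).card) - 2 * K' ^ 2 ≤
      cost (lev chi B u) (lev chi B 0) := by
    intro u _
    have h3 := hnb u 0
    rw [add_zero] at h3
    rw [cost_eq_pr]
    linarith
  have h6 := Finset.sum_le_sum h5
  rw [Finset.sum_sub_distrib, Finset.sum_const, nsmul_eq_mul] at h6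
  have h7 : ((((B.image chi).erase 0).card : ℕ) : ℤ) ≤ 2 * J := by
    exact_mod_cast image_card chi B hB J hJ
  have h8 : ((((B.image chi).erase 0).card : ℕ) : ℤ) * (2 * K' ^ 2) ≤ 2 * J * (2 * K' ^ 2) :=
    mul_le_mul_of_nonneg_right h7 (by positivity)
  nlinarith [sq_nonneg (DD chi B)]

theorem cost_eq : type_of% @cost_eq_pr := @cost_eq_pr

theorem num_star : type_of% @num_star_pr := @num_star_pr

theorem num_star8 : type_of% @num_star8_pr := @num_star8_pr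

theorem star_bound : type_of% @star_bound_pr := @star_bound_pr

end Pool.Agent.KE
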