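import Pool.Agent.Lib_helper59.KE.Defs
import Mathlib
set_option autoImplicit false

namespace Pool.Agent.KE

open Finset

theorem kr_one (J : ℕ) (K' E : ℤ) (hJ : 2 ≤ J) (hE : 3 * (J : ℤ) + 1 ≤ E) :
    49 * ((3 * (J : ℤ) ^ 2 + 3 * J + 1) * K' ^ 2) ≤ 19 * (E * K') ^ 2 := by
  have hJ' : (2 : ℤ) ≤ J := by exact_mod_cast hJ
  have h1 : 49 * (3 * (J : ℤ) ^ 2 + 3 * J + 1) ≤ 19 * (3 * (J : ℤ) + 1) ^ 2 := by nlinarith
  have h2 : (3 * (J : ℤ) + 1) ^ 2 ≤ E ^ 2 := by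
    apply pow_le_pow_left₀ (by linarith) hE
  have h3 := mul_le_mul_of_nonneg_right (h1.trans (mul_le_mul_of_nonneg_left h2 (by norm_num)))
    (sq_nonneg K')
  rw [mul_pow]
  linarith

theorem kr_two (J : ℕ) (K' E : ℤ) (hJ : 2 ≤ J) (hE : 3 * (J : ℤ) + 1 ≤ E) :
    49 * ((4 * (J : ℤ) + 1) * K' ^ 2) ≤ 9 * (E * K') ^ 2 := by
  have hJ' : (2 : ℤ) ≤ J := by exact_mod_cast hJ
  have h1 : 49 * (4 * (J : ℤ) + 1) ≤ 9 * (3 * (J : ℤ) + 1) ^ 2 := by nlinarith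
  have h2 : (3 * (J : ℤ) + 1) ^ 2 ≤ E ^ 2 := by
    apply pow_le_pow_left₀ (by linarith) hE
  have h3 := mul_le_mul_of_nonneg_right (h1.trans (mul_le_mul_of_nonneg_left h2 (by norm_num)))
    (sq_nonneg K')
  rw [mul_pow]
  linarith

theorem kr_three (J : ℕ) (K' E : ℤ) (hJ : J = 1) (hE : 3 * (J : ℤ) + 1 ≤ E) :
    16 * K' ^ 2 ≤ (E * K') ^ 2 := by
  rw [hJ] at hE
  norm_num at hE
  have h2 : (4 : ℤ) ^ 2 ≤ E ^ 2 := by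
    apply pow_le_pow_left₀ (by norm_num) hE
  have h3 := mul_le_mul_of_nonneg_right h2 (sq_nonneg K')
  rw [mul_pow]
  linarith

/-- KR -/
theorem num_fin_pr (J : ℕ) (K' b F E : ℤ) (hE : 3 * (J : ℤ) + 1 ≤ E) (hK : 0 ≤ K') (hb : 0 ≤ b)
    (h : (2 ≤ J ∧ 10000 * F ≤ -5115 * b ^ 2 + 10000 * (3 * J ^ 2 + 3 * J + 1) * K' ^ 2) ∨
      (2 ≤ J ∧ 10000 * F ≤ -4195 * b ^ 2 + 10000 * (4 * J + 1) * K' ^ 2) ∨
      (J = 1 ∧ 20 * F ≤ -11 * b ^ 2 + 140 * K' ^ 2) ∨ (J = 1 ∧ F ≤ -b ^ 2 + 5 * K' ^ 2) ∨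
      (b = 0 ∧ F ≤ 0)) :
    F ≤ (2 * E * K' - b) * (6 * E * K' - 5 * b) := by
  have e1 : (2 * E * K' - b) * (6 * E * K' - 5 * b) =
      12 * (E * K') ^ 2 - 16 * ((E * K') * b) + 5 * b ^ 2 := by ring
  rw [e1]
  rcases h with ⟨hJ, h⟩ | ⟨hJ, h⟩ | ⟨hJ, h⟩ | ⟨hJ, h⟩ | ⟨h1, h2⟩
  · have h1 := kr_one J K' E hJ hE
    generalize E * K' = X at *
    have h2 := sq_nonneg (11380000 * X - 7840000 * b)
    have h3 := sq_nonneg b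
    nlinarith
  · have h1 := kr_two J K' E hJ hE
    generalize E * K' = X at *
    have h2 := sq_nonneg (11580000 * X - 7840000 * b)
    have h3 := sq_nonneg b
    nlinarith
  · have h1 := kr_three J K' E hJ hE
    generalize E * K' = X at *
    have h2 := sq_nonneg (1445 * X - 1000 * b)
    have h3 := sq_nonneg b
    nlinarith
  · have h1 := kr_three J K' E hJ hE
    generalize E * K' = X at *
    have h2 := sq_nonneg (1445 * X - 1000 * b)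
    have h3 := sq_nonneg b
    nlinarith
  · rw [h1]
    nlinarith [sq_nonneg (E * K')]

/-- KR2 -/
theorem num_fin2_pr (J : ℕ) (K' b F E : ℤ) (hE : 3 * (J : ℤ) + 1 ≤ E) (hK : 0 ≤ K') (hb : 0 ≤ b)
    (h : (2 ≤ J ∧ 10000 * F ≤ -5115 * b ^ 2 + 10000 * (3 * J ^ 2 + 3 * J + 1) * K' ^ 2) ∨
      (2 ≤ J ∧ 10000 * F ≤ -4195 * b ^ 2 + 10000 * (4 * J + 1) * K' ^ 2) ∨
      (J = 1 ∧ 20 * F ≤ -11 * b ^ 2 + 140 * K' ^ 2) ∨ (J = 1 ∧ F ≤ -b ^ 2 + 5 * K' ^ 2) ∨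
      (b = 0 ∧ F ≤ 0)) (h32 : 3 * (E * K') ≤ 2 * b) :
    3 * F ≤ -b ^ 2 := by
  have hE0 : 0 ≤ E := by
    have : (0 : ℤ) ≤ J := Int.natCast_nonneg J
    linarith
  have hX : 0 ≤ E * K' := mul_nonneg hE0 hK
  have h9 : 9 * (E * K') ^ 2 ≤ 4 * b ^ 2 := by
    have := pow_le_pow_left₀ (by linarith : (0 : ℤ) ≤ 3 * (E * K')) h32 2
    linarith
  have h3 := sq_nonneg b
  rcases h with ⟨hJ, h⟩ | ⟨hJ, h⟩ | ⟨hJ, h⟩ | ⟨hJ, h⟩ | ⟨h1, h2⟩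
  · have h1 := kr_one J K' E hJ hE
    linarith
  · have h1 := kr_two J K' E hJ hE
    linarith
  · have h1 := kr_three J K' E hJ hE
    linarith
  · have h1 := kr_three J K' E hJ hE
    linarith
  · rw [h1]
    linarith

theorem num_fin : type_of% @num_fin_pr := @num_fin_pr

theorem num_fin2 : type_of% @num_fin2_pr := @num_fin2_pr

end Pool.Agent.KE
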