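import Pool.Agent.Lib_helper59.KE.Defs
import Pool.Agent.Lib_helper59.KEF.KN
import Pool.Agent.Lib_helper59.KEF.KO
import Pool.Agent.Lib_helper59.KEF.KQ
import Pool.Agent.Lib_helper59.KEF.KR
import Mathlib
import Pool.Agent.Lib_helper25.POS.Defs
/-!
# Block KS: no alive bonus
-/

set_option autoImplicit false

namespace Pool.Agent.KE

open Finset Pool.Agent.Lib_helper13.PL Pool.Agent.POS

variable {G : Type*} [AddCommGroup G] [DecidableEq G]

/-- the level sizes -/
noncomputable def ks_f {m : ℕ} (chi : G →+ ZMod m) (B : Finset G) (J : ℕ) (i : ℤ) : ℕ :=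
  if |i| ≤ (J : ℤ) then (lev chi B (i : ZMod m)).card else 0

theorem ks_f_eq {m : ℕ} [NeZero m] (chi : G →+ ZMod m) (B : Finset G) (hB : NoWrap chi B)
    (J : ℕ) (hJ : J = (m - 1) / 3) (i : ℤ) (hi : |i| ≤ 2 * (J : ℤ)) :
    ks_f chi B J i = (lev chi B (i : ZMod m)).card := by
  unfold ks_f
  split_ifs with h
  · rfl
  · rw [lev_empty chi B hB J hJ i (not_le.1 h) hi, Finset.card_empty]

theorem ks_qp_zero (x y : ℤ) : Qp x y 0 = 0 := by
  unfold Qp
  split_ifs
  · ring
  · ring
  · exfalso; omega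
  · exfalso; omega

/-- the bound by the sum over pairs of levels -/
theorem ks_ff {m : ℕ} [NeZero m] (chi : G →+ ZMod m) (B : Finset G) (hB : NoWrap chi B)
    (J : ℕ) (hJ : J = (m - 1) / 3) (K' : ℤ)
    (hnb : ∀ u v : ZMod m, 4 * TT (lev chi B u) (lev chi B v) (lev chi B (u + v))
      ≤ Qp (lev chi B u).card (lev chi B v).card (lev chi B (u + v)).card + K' ^ 2) :
    GL.FF B ≤ (∑ i ∈ Icc (-(J : ℤ)) J, ∑ j ∈ Icc (-(J : ℤ)) J,
      Qp (ks_f chi B J i) (ks_f chi B J j) (ks_f chi B J (i + j)))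
      + (3 * J ^ 2 + 3 * J + 1) * K' ^ 2 - 3 * (B.card : ℤ) ^ 2 := by
  have h1 : ∑ i ∈ Icc (-(J : ℤ)) J, ∑ j ∈ Icc (-(J : ℤ)) J,
      (if |i + j| ≤ (J : ℤ) then K' ^ 2 else 0) = (3 * J ^ 2 + 3 * J + 1) * K' ^ 2 := by
    rw [← card_pairs J, ← Finset.sum_product', Finset.sum_ite, Finset.sum_const_zero, add_zero,
      Finset.sum_const, nsmul_eq_mul]
  have h2 : 4 * GL.sch B ≤ ∑ i ∈ Icc (-(J : ℤ)) J, ∑ j ∈ Icc (-(J : ℤ)) J,
      (Qp (ks_f chi B J i) (ks_f chi B J j) (ks_f chi B J (i + j)) +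
        (if |i + j| ≤ (J : ℤ) then K' ^ 2 else 0)) := by
    rw [sch_levels chi B hB J hJ, Finset.mul_sum]
    refine Finset.sum_le_sum fun i hi => ?_
    rw [Finset.mul_sum]
    refine Finset.sum_le_sum fun j hj => ?_
    rw [Finset.mem_Icc] at hi hj
    have hi' : |i| ≤ (J : ℤ) := abs_le.2 hi
    have hj' : |j| ≤ (J : ℤ) := abs_le.2 hj
    have hij : |i + j| ≤ 2 * (J : ℤ) := (abs_add_le i j).trans (by linarith)
    have ei := ks_f_eq chi B hB J hJ i (by linarith [abs_nonneg i])
    have ej := ks_f_eq chi B hB J hJ j (by linarith [abs_nonneg j])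
    have eij := ks_f_eq chi B hB J hJ (i + j) hij
    by_cases h : |i + j| ≤ (J : ℤ)
    · rw [if_pos h, ei, ej, eij]
      have := hnb (i : ZMod m) (j : ZMod m)
      rw [← Int.cast_add] at this
      exact this
    · rw [if_neg h, add_zero]
      have e0 := lev_empty chi B hB J hJ (i + j) (not_le.1 h) hij
      have e1 : ks_f chi B J (i + j) = 0 := by rw [eij, e0, Finset.card_empty]
      rw [e1, e0, Nat.cast_zero, ks_qp_zero]
      have : TT (lev chi B (i : ZMod m)) (lev chi B (j : ZMod m)) (∅ : Finset G) = 0 := by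
        unfold TT
        simp
      rw [this]
      norm_num
  simp only [Finset.sum_add_distrib] at h2
  rw [h1] at h2
  unfold GL.FF
  linarith

omit [DecidableEq G] in
theorem ks_card {m : ℕ} (chi : G →+ ZMod m) (B : Finset G) :
    (B.card : ℤ) = ((lev chi B 0).card : ℤ) +
      ∑ u ∈ (B.image chi).erase 0, ((lev chi B u).card : ℤ) := by
  have h1 : (B.card : ℤ) = ∑ u ∈ B.image chi, ((lev chi B u).card : ℤ) := by
    have := Finset.card_eq_sum_card_image chi B
    unfold lev
    exact_mod_cast this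
  rw [h1]
  by_cases h : (0 : ZMod m) ∈ B.image chi
  · rw [← Finset.add_sum_erase _ _ h]
  · have h2 : lev chi B 0 = ∅ := by
      rw [Finset.eq_empty_iff_forall_notMem]
      intro x hx
      unfold lev at hx
      rw [Finset.mem_filter] at hx
      exact h (Finset.mem_image.2 ⟨x, hx.1, hx.2⟩)
    rw [h2, Finset.erase_eq_of_notMem h]
    simp

omit [DecidableEq G] in
/-- a big level is level `0` or one of the others -/
theorem ks_big {m : ℕ} (chi : G →+ ZMod m) (B : Finset G) (J : ℕ) (i : ℤ) (M : ℕ)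
    (h : M < ks_f chi B J i) :
    M < (lev chi B 0).card ∨ ∃ u ∈ (B.image chi).erase 0, M < (lev chi B u).card := by
  unfold ks_f at h
  split_ifs at h
  · by_cases h0 : (i : ZMod m) = 0
    · left
      rwa [h0] at h
    · right
      refine ⟨(i : ZMod m), ?_, h⟩
      rw [Finset.mem_erase]
      refine ⟨h0, ?_⟩
      have h1 : (lev chi B (i : ZMod m)).Nonempty := by
        rw [← Finset.card_pos]
        omega
      obtain ⟨x, hx⟩ := h1
      unfold lev at hx
      rw [Finset.mem_filter] at hx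
      exact Finset.mem_image.2 ⟨x, hx.1, hx.2⟩
  · omega

/-- KS0 (uses KN, KO, KQ): the core of the final theorem -/
theorem no_bonus_core_pr {m : ℕ} [NeZero m] (chi : G →+ ZMod m) (B : Finset G) (hB : NoWrap chi B)
    (h43 : 4 * (lev chi B 0).card ≤ 3 * B.card) (K' : ℤ) (hK : 0 ≤ K')
    (hnb : ∀ u v : ZMod m, 4 * TT (lev chi B u) (lev chi B v) (lev chi B (u + v))
      ≤ Qp (lev chi B u).card (lev chi B v).card (lev chi B (u + v)).card + K' ^ 2)
    (J : ℕ) (hJ : J = (m - 1) / 3) (b F : ℤ) (hb : b = B.card) (hF : F = GL.FF B) :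
    (2 ≤ J ∧ 10000 * F ≤ -5115 * b ^ 2 + 10000 * (3 * J ^ 2 + 3 * J + 1) * K' ^ 2) ∨
      (2 ≤ J ∧ 10000 * F ≤ -4195 * b ^ 2 + 10000 * (4 * J + 1) * K' ^ 2) ∨
      (J = 1 ∧ 20 * F ≤ -11 * b ^ 2 + 140 * K' ^ 2) ∨ (J = 1 ∧ F ≤ -b ^ 2 + 5 * K' ^ 2) ∨
      (b = 0 ∧ F ≤ 0) := by
  subst hb hF
  have hm : 0 < m := Nat.pos_of_ne_zero (NeZero.ne m)
  have hf : ∀ i : ℤ, (J : ℤ) < |i| → ks_f chi B J i = 0 := by
    intro i hi
    unfold ks_f
    rw [if_neg (not_le.2 hi)]
  have hb : (B.card : ℤ) = ∑ i ∈ Icc (-(J : ℤ)) J, (ks_f chi B J i : ℤ) := by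
    rw [card_levels chi B hB J hJ]
    refine Finset.sum_congr rfl fun i hi => ?_
    rw [Finset.mem_Icc] at hi
    rw [ks_f, if_pos (abs_le.2 hi)]
  have hff := ks_ff chi B hB J hJ K' hnb
  have hst := star_bound chi B hB J hJ K' hnb
  have hcard := ks_card chi B
  have h43' : 4 * ((lev chi B 0).card : ℤ) ≤ 3 * (B.card : ℤ) := by exact_mod_cast h43
  rcases Nat.lt_or_ge J 1 with hJ0 | hJ1
  · -- `J = 0`
    have hJ00 : J = 0 := by omega
    right; right; right; right
    have hm3 : m ≤ 3 := by omega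
    have hl : lev chi B 0 = B := by
      unfold lev
      rw [Finset.filter_eq_self]
      intro x hx
      have h1 := hB x hx
      have h2 : |(chi x).valMinAbs| < 1 := by
        have : (m : ℤ) ≤ 3 := by exact_mod_cast hm3
        linarith
      have h3 : (chi x).valMinAbs = 0 := Int.abs_lt_one_iff.1 h2
      exact (ZMod.valMinAbs_eq_zero _).1 h3
    have hb0 : B.card = 0 := by
      rw [hl] at h43
      omega
    refine ⟨by exact_mod_cast hb0, ?_⟩
    rw [Finset.card_eq_zero] at hb0
    rw [hb0]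
    unfold GL.FF GL.sch
    simp
  · rcases Nat.lt_or_ge J 2 with hJ2 | hJ2
    · -- `J = 1`
      have hJ11 : J = 1 := by omega
      by_cases hM : ∀ i, ks_f chi B J i ≤ 4 * B.card / 5
      · right; right; left
        refine ⟨hJ11, ?_⟩
        subst hJ11
        have h := e_lemma_three (4 * B.card / 5) (ks_f chi B 1)
          (fun i hi => hf i (by exact_mod_cast hi)) hM (B.card : ℤ) (by exact_mod_cast hb)
          (by
            have : 5 * (4 * B.card / 5) ≤ 4 * B.card := Nat.mul_div_le _ _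
            exact_mod_cast this)
        push_cast at hff h ⊢
        linarith
      · right; right; right; left
        refine ⟨hJ11, ?_⟩
        push Not at hM
        obtain ⟨i, hi⟩ := hM
        have hbig : 4 * (B.card : ℤ) ≤ 5 * ((lev chi B 0).card : ℤ) ∨
            ∃ u ∈ (B.image chi).erase 0, 4 * (B.card : ℤ) ≤ 5 * ((lev chi B u).card : ℤ) := by
          rcases ks_big chi B J i _ hi with h | ⟨u, hu, h⟩
          · left
            have : 4 * B.card ≤ 5 * (lev chi B 0).card := by omega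
            exact_mod_cast this
          · right
            refine ⟨u, hu, ?_⟩
            have : 4 * B.card ≤ 5 * (lev chi B u).card := by omega
            exact_mod_cast this
        have h := num_star8 ((B.image chi).erase 0) (fun u => ((lev chi B u).card : ℤ))
          (fun u _ => by positivity) ((lev chi B 0).card : ℤ) (B.card : ℤ) (by positivity)
          hcard h43' hbig
        subst hJ11
        push_cast at hst ⊢
        linarith
    · -- `2 ≤ J`
      by_cases hM : ∀ i, ks_f chi B J i ≤ 458 * B.card / 1000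
      · left
        refine ⟨hJ2, ?_⟩
        have h := e_lemma J (458 * B.card / 1000) (ks_f chi B J) hf hM (B.card : ℤ) hb
          (by
            have : 1000 * (458 * B.card / 1000) ≤ 458 * B.card := Nat.mul_div_le _ _
            exact_mod_cast this)
        linarith
      · right; left
        refine ⟨hJ2, ?_⟩
        push Not at hM
        obtain ⟨i, hi⟩ := hM
        have hbig : 458 * (B.card : ℤ) ≤ 1000 * ((lev chi B 0).card : ℤ) ∨
            ∃ u ∈ (B.image chi).erase 0, 458 * (B.card : ℤ) ≤ 1000 * ((lev chi B u).card : ℤ) := by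
          rcases ks_big chi B J i _ hi with h | ⟨u, hu, h⟩
          · left
            have : 458 * B.card ≤ 1000 * (lev chi B 0).card := by omega
            exact_mod_cast this
          · right
            refine ⟨u, hu, ?_⟩
            have : 458 * B.card ≤ 1000 * (lev chi B u).card := by omega
            exact_mod_cast this
        have h := num_star ((B.image chi).erase 0) (fun u => ((lev chi B u).card : ℤ))
          (fun u _ => by positivity) ((lev chi B 0).card : ℤ) (B.card : ℤ) (by positivity)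
          hcard h43' hbig
        linarith

/-- KS (uses KN, KO, KQ, KR) -/
theorem no_bonus_pr {m : ℕ} [NeZero m] (chi : G →+ ZMod m) (B : Finset G) (hB : NoWrap chi B)
    (h43 : 4 * (lev chi B 0).card ≤ 3 * B.card) (K' : ℤ) (hK : 0 ≤ K')
    (hnb : ∀ u v : ZMod m, 4 * TT (lev chi B u) (lev chi B v) (lev chi B (u + v))
      ≤ Qp (lev chi B u).card (lev chi B v).card (lev chi B (u + v)).card + K' ^ 2)
    (E : ℤ) (hE : (m : ℤ) ≤ E) :
    GL.FF B ≤ (2 * E * K' - B.card) * (6 * E * K' - 5 * B.card) ∧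
      (3 * (E * K') ≤ 2 * B.card → 3 * GL.FF B ≤ -(B.card : ℤ) ^ 2) := by
  obtain ⟨J, hJ⟩ : ∃ J, J = (m - 1) / 3 := ⟨_, rfl⟩
  have hm : 0 < m := Nat.pos_of_ne_zero (NeZero.ne m)
  have hJm : 3 * J + 1 ≤ m := by omega
  have hE' : 3 * (J : ℤ) + 1 ≤ E := by
    have : ((3 * J + 1 : ℕ) : ℤ) ≤ m := by exact_mod_cast hJm
    push_cast at this
    linarith
  have h := no_bonus_core_pr chi B hB h43 K' hK hnb J hJ (B.card : ℤ) (GL.FF B) rfl rfl
  exact ⟨num_fin J K' B.card (GL.FF B) E hE' hK (by positivity) h,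
    fun h32 => num_fin2 J K' B.card (GL.FF B) E hE' hK (by positivity) h h32⟩

theorem no_bonus_core : type_of% @no_bonus_core_pr := @no_bonus_core_pr

theorem no_bonus : type_of% @no_bonus_pr := @no_bonus_pr

end Pool.Agent.KE
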